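import Mathlib

/-!
# MP_305fdd_al (LW): the data used in Stepanov's method for Galois covers of the line
-/

set_option autoImplicit false

namespace Pool.Agent.Lib.MP_305fdd_al.LW

open Polynomial

/-- A Galois cover of the affine line over the finite field `E`, attached to a monic polynomial
`g ∈ E[t][y]`: a domain `B` (the ring of functions of the cover), the Galois group `G`, the filtration
`F l` by the order of the poles at infinity, an expansion `ι₀` at a rational point over `t = 0` and an
expansion `ι t₀` at a geometric point over every `t₀` in a set `T` of good points, and a root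
`Y ∈ B` of `g`. -/
structure CData (E k : Type) [Field E] [Field k] (i : E →+* k) (g : E[X][X]) (e κ c : ℕ) where
  /-- the ring of functions -/
  B : Type
  [cr : CommRing B]
  [dom : IsDomain B]
  [alg : Algebra E B]
  /-- the Galois group -/
  G : Type
  [gr : Group G]
  [fg : Fintype G]
  [act : MulSemiringAction G B]
  /-- the coordinate of the line -/
  t : B
  smul_const : ∀ (τ : G) (a : E), τ • algebraMap E B a = algebraMap E B a
  smul_t : ∀ τ : G, τ • t = t
  card_G : Fintype.card G = e
  /-- the functions with poles of order at most `l` at infinity -/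
  F : ℕ → Submodule E B
  mul_mem : ∀ {l m : ℕ} {x y : B}, x ∈ F l → y ∈ F m → x * y ∈ F (l + m)
  smul_mem : ∀ {l : ℕ} (τ : G) {x : B}, x ∈ F l → τ • x ∈ F l
  dim : ∀ l : ℕ, ∃ v : Fin (e * (l + 1 - κ)) → B, LinearIndependent E v ∧ ∀ j, v j ∈ F l
  norm_mem : ∀ {l : ℕ} {x : B}, x ∈ F l → ∃ N : E[X], N.natDegree ≤ e * l ∧
    ∏ τ : G, τ • x = aeval t N
  /-- the expansion at the rational point over `0` -/
  ι₀ : B →+* PowerSeries E
  ι₀_inj : Function.Injective ι₀
  ι₀_const : ∀ a : E, ι₀ (algebraMap E B a) = PowerSeries.C a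
  ι₀_t : ι₀ t = PowerSeries.X
  /-- the good points -/
  T : Set E
  card_T : (Tᶜ).ncard ≤ c
  /-- the expansion at a point over `t₀` -/
  ι : T → B →+* PowerSeries k
  ι_const : ∀ (t₀ : T) (a : E), ι t₀ (algebraMap E B a) = PowerSeries.C (i a)
  ι_t : ∀ t₀ : T, ι t₀ t = PowerSeries.C (i t₀) + PowerSeries.X
  frob : ∀ (t₀ : T) (τ : G), ∃ σ : G, ∀ b : B,
    PowerSeries.constantCoeff (ι t₀ (τ • σ • b)) =
      PowerSeries.constantCoeff (ι t₀ (τ • b)) ^ Nat.card E
  /-- a root of `g` -/
  Y : B
  Y_root : (g.map (aeval t : E[X] →ₐ[E] B).toRingHom).eval Y = 0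
  stab : ∀ (t₀ : T) (τ τ' : G), PowerSeries.constantCoeff (ι t₀ (τ • Y)) =
    PowerSeries.constantCoeff (ι t₀ (τ' • Y)) → τ • Y = τ' • Y
  uniq : ∀ (t₀ : T) (τ σ σ' : G), (∀ b : B, PowerSeries.constantCoeff (ι t₀ (τ • σ • b)) =
    PowerSeries.constantCoeff (ι t₀ (τ • σ' • b))) → σ = σ'

attribute [instance] CData.cr CData.dom CData.alg CData.gr CData.fg CData.act

end Pool.Agent.Lib.MP_305fdd_al.LW
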