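import Mathlib

/-!
# Hensel factorisation over power series

A monic polynomial over `k⟦X⟧` whose reduction is split and separable is a product of linear
factors with roots having distinct constant coefficients.
-/

set_option autoImplicit false
namespace Pool.Agent.Lib.MP_305fdd_al.LW
open Polynomial

theorem hensel_splits {k : Type} [Field k] (f : (PowerSeries k)[X]) (hf : f.Monic)
    (hs : (f.map PowerSeries.constantCoeff).Splits)
    (hsep : (f.map PowerSeries.constantCoeff).Separable) :
    ∃ s : Finset (PowerSeries k), f = ∏ y ∈ s, (X - C y) ∧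
      Set.InjOn (PowerSeries.constantCoeff : PowerSeries k →+* k) s := by
  classical
  set φ : PowerSeries k →+* k := PowerSeries.constantCoeff with hφ
  set F : k[X] := f.map φ with hF
  have hFm : F.Monic := hf.map _
  -- every root of the reduction lifts
  have lift : ∀ c : k, c ∈ F.roots.toFinset → ∃ y : PowerSeries k, f.IsRoot y ∧ φ y = c := by
    intro c hc
    have hc' : F.IsRoot c := (mem_roots hFm.ne_zero).1 (Multiset.mem_toFinset.1 hc)
    have hev : ∀ g : (PowerSeries k)[X], φ (g.eval (PowerSeries.C c)) = (g.map φ).eval c := by
      intro g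
      rw [eval_map, ← eval₂_at_apply, hφ, PowerSeries.constantCoeff_C]
    have hder : F.derivative.eval c ≠ 0 := by
      have h := hsep.eval₂_derivative_ne_zero (RingHom.id k) (x := c)
        (by rw [eval₂_id]; exact hc')
      rwa [eval₂_id] at h
    have H : ∃ a : PowerSeries k, f.IsRoot a ∧ a - PowerSeries.C c ∈
        (Ideal.span {PowerSeries.X} : Ideal (PowerSeries k)) := by
      refine HenselianRing.is_henselian f hf (PowerSeries.C c) ?_ ?_
      · rw [Ideal.mem_span_singleton, PowerSeries.X_dvd_iff, ← hφ, hev]
        exact hc'
      · refine IsUnit.map _ ?_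
        rw [PowerSeries.isUnit_iff_constantCoeff, ← hφ, hev, ← derivative_map]
        exact isUnit_iff_ne_zero.2 hder
    obtain ⟨a, ha, hac⟩ := H
    refine ⟨a, ha, ?_⟩
    rw [Ideal.mem_span_singleton, PowerSeries.X_dvd_iff, map_sub, PowerSeries.constantCoeff_C,
      sub_eq_zero] at hac
    exact hac
  choose! y hy using lift
  have hinj : Set.InjOn y (F.roots.toFinset : Set k) := by
    intro a ha b hb hab
    rw [← (hy a ha).2, ← (hy b hb).2, hab]
  refine ⟨F.roots.toFinset.image y, ?_, ?_⟩
  · have hsub : (F.roots.toFinset.image y).val ≤ f.roots := by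
      rw [Finset.val_le_iff_val_subset]
      intro z hz
      have hz' : z ∈ F.roots.toFinset.image y := hz
      obtain ⟨c, hc, rfl⟩ := Finset.mem_image.1 hz'
      exact (mem_roots hf.ne_zero).2 (hy c hc).1
    have hcard : Multiset.card (F.roots.toFinset.image y).val = f.natDegree := by
      have h1 : (F.roots.toFinset.image y).card = F.roots.toFinset.card :=
        Finset.card_image_of_injOn hinj
      have h2 : F.roots.toFinset.card = Multiset.card F.roots :=
        Multiset.toFinset_card_of_nodup (nodup_roots hsep)
      have h3 : Multiset.card F.roots = F.natDegree := hs.natDegree_eq_card_roots.symm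
      have h4 : F.natDegree = f.natDegree := hf.natDegree_map φ
      calc Multiset.card (F.roots.toFinset.image y).val = (F.roots.toFinset.image y).card := rfl
        _ = f.natDegree := by rw [h1, h2, h3, h4]
    have heq : (F.roots.toFinset.image y).val = f.roots :=
      Multiset.eq_of_le_of_card_le hsub (by rw [hcard]; exact card_roots' f)
    have hprod := prod_multiset_X_sub_C_of_monic_of_roots_card_eq hf (by rw [← heq, hcard])
    rw [← heq] at hprod
    exact hprod.symm
  · intro a ha b hb hab
    obtain ⟨c, hc, rfl⟩ := Finset.mem_image.1 ha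
    obtain ⟨d, hd, rfl⟩ := Finset.mem_image.1 hb
    have h1 : φ (y c) = φ (y d) := hab
    rw [(hy c hc).2, (hy d hd).2] at h1
    rw [h1]

end Pool.Agent.Lib.MP_305fdd_al.LW
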