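import Mathlib
import Pool.Agent.Lib.MP_305fdd_al.LW.Defs
import Pool.Agent.Lib.MP_305fdd_al.LW.Hensel

/-!
# MP_305fdd_al (LW), piece C: construction of the Galois cover data of a monic polynomial over `E[t]`
-/

set_option autoImplicit false
set_option linter.unusedSectionVars false

namespace Pool.Agent.Lib.MP_305fdd_al.LW

open Polynomial

/-- degree of a determinant of polynomials -/
theorem natDegree_det_le_of_entries {R : Type} [CommRing R] {n : ℕ} (M : Matrix (Fin n) (Fin n) R[X])
    (w : ℕ) (hM : ∀ i j, (M i j).natDegree ≤ w) : M.det.natDegree ≤ n * w := by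
  rw [Matrix.det_apply]
  refine natDegree_sum_le_of_forall_le _ _ fun σ _ => ?_
  rw [Units.smul_def]
  refine (natDegree_smul_le _ _).trans ?_
  refine (natDegree_prod_le _ _).trans ?_
  calc ∑ i : Fin n, (M (σ i) i).natDegree ≤ ∑ _i : Fin n, w := Finset.sum_le_sum fun i _ => hM _ _
    _ = n * w := by simp

/-- the determinant which decides separability -/
theorem disc_iff {A F : Type} [CommRing A] [Field F] (φ : A →+* F) (g : A[X]) (hg : g.Monic) :
    φ (resultant g (derivative g) g.natDegree (g.natDegree - 1)) ≠ 0 ↔ (g.map φ).Separable := by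
  have hm : (g.map φ).Monic := hg.map _
  have hmd : (g.map φ).natDegree = g.natDegree := hg.natDegree_map φ
  have h1 : φ (resultant g (derivative g) g.natDegree (g.natDegree - 1)) =
      resultant (g.map φ) ((derivative g).map φ) g.natDegree (g.natDegree - 1) := by
    rw [resultant_map_map]
  rw [← Polynomial.derivative_map] at h1
  have h2 : (derivative (g.map φ)).natDegree ≤ g.natDegree - 1 := by
    rw [← hmd]; exact natDegree_derivative_le _
  obtain ⟨k, hk⟩ := Nat.exists_eq_add_of_le h2
  rw [hk, ← hmd, resultant_add_right_deg _ _ _ _ _ le_rfl, hm.coeff_natDegree, one_pow,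
    one_mul] at h1
  rw [hk, ← hmd] 
  rw [h1, separable_def, ← isUnit_resultant_iff_isCoprime hm, isUnit_iff_ne_zero]

theorem bad_points {E : Type} [Field E] {d w : ℕ} (hd : 0 < d) (g : E[X][X]) (hg : g.Monic)
    (hdeg : g.natDegree = d) (hw : ∀ j, (g.coeff j).natDegree ≤ w)
    (hsep : (g.map (evalRingHom (0 : E))).Separable) :
    ({t : E | (g.map (evalRingHom t)).Separable}ᶜ : Set E).ncard ≤ w * d ^ 2 := by
  classical
  set δ : E[X] := resultant g (derivative g) g.natDegree (g.natDegree - 1) with hδ
  have hδdeg : δ.natDegree ≤ w * d ^ 2 := by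
    have h1 : δ.natDegree ≤ (d + (d - 1)) * w := by
      rw [← hdeg]
      refine natDegree_det_le_of_entries _ w fun i j => ?_
      have hw' : ∀ j, ((derivative g).coeff j).natDegree ≤ w := by
        intro j
        rw [coeff_derivative]
        refine natDegree_mul_le.trans ?_
        have : ((j : E[X]) + 1).natDegree = 0 := by
          have := natDegree_natCast (R := E) (j + 1)
          simpa using this
        rw [this]
        simpa using hw (j + 1)
      induction j using Fin.addCases with
      | left j =>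
        rw [sylvester, Matrix.of_apply, Fin.addCases_left]
        split_ifs
        · exact hw' _
        · simp
      | right j =>
        rw [sylvester, Matrix.of_apply, Fin.addCases_right]
        split_ifs
        · exact hw _
        · simp
    refine h1.trans ?_
    obtain ⟨m, rfl⟩ : ∃ m, d = m + 1 := ⟨d - 1, by omega⟩
    have : (m + 1 + (m + 1 - 1)) ≤ (m + 1) ^ 2 := by
      simp only [Nat.add_sub_cancel]; nlinarith
    calc (m + 1 + (m + 1 - 1)) * w ≤ (m + 1) ^ 2 * w := Nat.mul_le_mul_right _ this
      _ = w * (m + 1) ^ 2 := mul_comm _ _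
  have key : ∀ t : E, δ.eval t ≠ 0 ↔ (g.map (evalRingHom t)).Separable :=
    fun t => disc_iff (evalRingHom t) g hg
  have hδ0 : δ ≠ 0 := by
    intro h
    have := (key 0).mpr hsep
    rw [h] at this; simp at this
  have : ({t : E | (g.map (evalRingHom t)).Separable}ᶜ : Set E) ⊆ (δ.roots.toFinset : Set E) := by
    intro t ht
    simp only [Set.mem_compl_iff, Set.mem_ofPred_eq] at ht
    simp only [Finset.mem_coe, Multiset.mem_toFinset, mem_roots hδ0, IsRoot.def]
    by_contra h
    exact ht ((key t).mp h)
  calc _ ≤ (δ.roots.toFinset : Set E).ncard := Set.ncard_le_ncard this (Finset.finite_toSet _)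
    _ = δ.roots.toFinset.card := Set.ncard_coe_finset _
    _ ≤ Multiset.card δ.roots := Multiset.toFinset_card_le _
    _ ≤ δ.natDegree := card_roots' _
    _ ≤ _ := hδdeg

/-- the ring of rational functions regular at infinity -/
theorem exists_infty (E : Type) [Field E] : ∃ O : Subring (RatFunc E),
    (∀ (N : E[X]) (m : ℕ), algebraMap E[X] (RatFunc E) N / (algebraMap E[X] (RatFunc E) X) ^ m ∈ O ↔ N.natDegree ≤ m) ∧
    (∀ x : RatFunc E, O.subtype.IsIntegralElem x → x ∈ O) := by
  classical
  let V := (RatFunc.inftyValuation E).valuationSubring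
  refine ⟨V.toSubring, fun N m => ?_, fun x hx => ?_⟩
  · have hV : ∀ x : RatFunc E, x ∈ V.toSubring ↔ RatFunc.inftyValuation E x ≤ 1 := fun x => Iff.rfl
    rw [hV, map_div₀, map_pow]
    by_cases hN : N = 0
    · simp [hN]
    have h1 : RatFunc.inftyValuation E (algebraMap E[X] (RatFunc E) N) = WithZero.exp (N.natDegree : ℤ) := by
      rw [RatFunc.inftyValuation_apply]; exact RatFunc.inftyValuation.polynomial E hN
    have h2 : RatFunc.inftyValuation E (algebraMap E[X] (RatFunc E) X) = WithZero.exp (1 : ℤ) := by
      rw [RatFunc.inftyValuation_apply, RatFunc.inftyValuation.polynomial E X_ne_zero]; simp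
    rw [h1, h2, ← WithZero.exp_nsmul, ← WithZero.exp_sub, ← WithZero.exp_zero, WithZero.exp_le_exp]
    simp
  · have h1 : IsIntegral V x := by
      obtain ⟨p, hp, hpx⟩ := hx
      exact ⟨p, hp, hpx⟩
    obtain ⟨y, hy⟩ := IsIntegrallyClosed.algebraMap_eq_of_integral h1
    rw [← hy]
    exact y.2

/-- embedding of the integral closure in a splitting field into power series -/
theorem exists_lift {E k : Type} [Field E] [Field k] {K L : Type} [Field K] [Field L]
    [Algebra E[X] K] [IsFractionRing E[X] K] [Algebra K L] [Algebra E[X] L] [IsScalarTower E[X] K L]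
    (g : E[X][X]) (hg : g.Monic) [IsSplittingField K L (g.map (algebraMap E[X] K))]
    (j : E[X] →+* PowerSeries k) (hj : Function.Injective j)
    (hs : ((g.map j).map PowerSeries.constantCoeff).Splits)
    (hsep : ((g.map j).map PowerSeries.constantCoeff).Separable) :
    ∃ Ψ : integralClosure E[X] L →+* PowerSeries k, Function.Injective Ψ ∧
      ∀ a : E[X], Ψ (algebraMap E[X] (integralClosure E[X] L) a) = j a := by
  obtain ⟨s, hs1, -⟩ := hensel_splits (g.map j) (hg.map j) hs hsep
  let φ : PowerSeries k →+* LaurentSeries k := algebraMap _ _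
  have hφ : Function.Injective φ := IsFractionRing.injective (PowerSeries k) (LaurentSeries k)
  have hφj : Function.Injective (φ.comp j) := by
    rw [RingHom.coe_comp]; exact hφ.comp hj
  let θ : K →+* LaurentSeries k := IsFractionRing.lift (A := E[X]) hφj
  have hθ : ∀ a, θ (algebraMap E[X] K a) = φ (j a) := fun a => IsFractionRing.lift_algebraMap hφj a
  let _ : Algebra K (LaurentSeries k) := θ.toAlgebra
  have hsplit : ((g.map (algebraMap E[X] K)).map (algebraMap K (LaurentSeries k))).Splits := by
    have : (g.map (algebraMap E[X] K)).map (algebraMap K (LaurentSeries k)) = (g.map j).map φ := by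
      rw [Polynomial.map_map, Polynomial.map_map]
      congr 1
      refine Polynomial.ringHom_ext (fun a => ?_) ?_
      · exact hθ (C a)
      · exact hθ X
    rw [this, hs1, Polynomial.map_prod]
    refine Splits.prod fun y _ => ?_
    simp
  let Θ : L →ₐ[K] LaurentSeries k := IsSplittingField.lift L (g.map (algebraMap E[X] K)) hsplit
  have hΘ : ∀ a : E[X], Θ (algebraMap E[X] L a) = φ (j a) := by
    intro a
    rw [IsScalarTower.algebraMap_apply E[X] K L, AlgHom.commutes]
    exact hθ a
  have hrange : ∀ b : integralClosure E[X] L, Θ (b : L) ∈ φ.range := by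
    intro b
    obtain ⟨p, hp, hpb⟩ := b.2
    have h1 : IsIntegral (PowerSeries k) (Θ (b : L)) := by
      refine ⟨p.map j, hp.map j, ?_⟩
      rw [Polynomial.eval₂_map]
      have : (algebraMap (PowerSeries k) (LaurentSeries k)).comp j = (Θ : L →+* LaurentSeries k).comp (algebraMap E[X] L) := by
        refine Polynomial.ringHom_ext (fun a => ?_) ?_
        · exact (hΘ (C a)).symm
        · exact (hΘ X).symm
      rw [this]
      have := congrArg Θ hpb
      rw [map_zero] at this
      rw [← this]
      exact (Polynomial.hom_eval₂ p (algebraMap E[X] L) (Θ : L →+* LaurentSeries k) (b : L)).symm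
    obtain ⟨y, hy⟩ := IsIntegrallyClosed.algebraMap_eq_of_integral h1
    exact ⟨y, hy⟩
  let Θ' : integralClosure E[X] L →+* φ.range :=
    ((Θ : L →+* LaurentSeries k).comp (integralClosure E[X] L).val.toRingHom).codRestrict _ hrange
  let eφ : PowerSeries k ≃+* φ.range := RingEquiv.ofBijective φ.rangeRestrict
    ⟨fun x y h => hφ (congrArg Subtype.val h), φ.rangeRestrict_surjective⟩
  have heφ : ∀ z : φ.range, φ (eφ.symm z) = z := by
    intro z
    have := eφ.apply_symm_apply z
    exact congrArg Subtype.val this
  refine ⟨(eφ.symm : φ.range →+* PowerSeries k).comp Θ', ?_, ?_⟩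
  · rw [RingHom.coe_comp]
    refine eφ.symm.injective.comp ?_
    intro x y h
    have := congrArg Subtype.val h
    exact Subtype.ext (Θ.toRingHom.injective this)
  · intro a
    apply hφ
    rw [RingHom.comp_apply]
    refine (heφ _).trans ?_
    exact hΘ a

/-- a basis of a splitting field consisting of monomials in the roots -/
theorem exists_mono_basis {K L : Type} [Field K] [Field L] [Algebra K L] (f : K[X]) (hf : f.Monic)
    (hd : 0 < f.natDegree) [IsSplittingField K L f] :
    ∃ R : Finset L, (∀ y ∈ R, (f.map (algebraMap K L)).IsRoot y) ∧ R.card ≤ f.natDegree ∧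
      ∃ b : Fin (Module.finrank K L) → L, LinearIndependent K b ∧
      ∀ i, ∃ a : L → ℕ, (∀ y, a y ≤ f.natDegree - 1) ∧ b i = ∏ y ∈ R, y ^ a y := by
  classical
  refine ⟨(f.map (algebraMap K L)).roots.toFinset, fun y hy => ?_, ?_, ?_⟩
  · rwa [Multiset.mem_toFinset, mem_roots (map_monic_ne_zero hf)] at hy
  · refine (Multiset.toFinset_card_le _).trans ((card_roots' _).trans ?_)
    exact natDegree_map_le
  set R := (f.map (algebraMap K L)).roots.toFinset with hR
  set d := f.natDegree with hdd
  let S : Set L := {m | ∃ a : L → ℕ, (∀ y, a y ≤ d - 1) ∧ m = ∏ y ∈ R, y ^ a y}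
  let M : Submodule K L := Submodule.span K S
  have hroot : ∀ y ∈ R, y ^ d = - ∑ i ∈ Finset.range d, algebraMap K L (f.coeff i) * y ^ i := by
    intro y hy
    rw [hR, Multiset.mem_toFinset, mem_roots (map_monic_ne_zero hf), IsRoot.def, eval_map, eval₂_eq_sum_range,
      Finset.sum_range_succ, ← hdd, show f.coeff d = 1 from hf.coeff_natDegree, map_one, one_mul] at hy
    exact eq_neg_of_add_eq_zero_right hy
  have hmulgen : ∀ y₀ ∈ R, ∀ m ∈ S, y₀ * m ∈ M := by
    rintro y₀ hy₀ m ⟨a, ha, rfl⟩
    have hupd : ∀ i, i ≤ d - 1 → (∏ y ∈ R.erase y₀, y ^ a y) * y₀ ^ i ∈ S := by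
      intro i hi
      refine ⟨Function.update a y₀ i, fun y => ?_, ?_⟩
      · by_cases h : y = y₀
        · subst h; simpa using hi
        · rw [Function.update_of_ne h]; exact ha y
      · rw [← Finset.prod_erase_mul R _ hy₀, Function.update_self]
        congr 1
        refine Finset.prod_congr rfl fun y hy => ?_
        rw [Function.update_of_ne (Finset.ne_of_mem_erase hy)]
    have hm : y₀ * ∏ y ∈ R, y ^ a y = (∏ y ∈ R.erase y₀, y ^ a y) * y₀ ^ (a y₀ + 1) := by
      rw [← Finset.prod_erase_mul R _ hy₀]; ring
    rw [hm]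
    by_cases h : a y₀ + 1 ≤ d - 1
    · exact Submodule.subset_span (hupd _ h)
    · have h2 : a y₀ + 1 = d := by have := ha y₀; omega
      rw [h2, hroot y₀ hy₀, mul_neg, Finset.mul_sum]
      refine M.neg_mem (M.sum_mem fun i hi => ?_)
      have : (∏ y ∈ R.erase y₀, y ^ a y) * (algebraMap K L (f.coeff i) * y₀ ^ i) =
          f.coeff i • ((∏ y ∈ R.erase y₀, y ^ a y) * y₀ ^ i) := by
        rw [Algebra.smul_def]; ring
      rw [this]
      exact M.smul_mem _ (Submodule.subset_span (hupd i (by have := Finset.mem_range.mp hi; omega)))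
  have hmul : ∀ y₀ ∈ R, ∀ m ∈ M, y₀ * m ∈ M := by
    intro y₀ hy₀ m hm
    induction hm using Submodule.span_induction with
    | mem x hx => exact hmulgen y₀ hy₀ x hx
    | zero => simp
    | add x y _ _ hx hy => rw [mul_add]; exact M.add_mem hx hy
    | smul c x _ hx => rw [mul_smul_comm]; exact M.smul_mem c hx
  have hone : (1 : L) ∈ M := Submodule.subset_span ⟨fun _ => 0, fun _ => Nat.zero_le _, by simp⟩
  have hall : ∀ x : L, ∀ m ∈ M, x * m ∈ M := by
    intro x
    have hx : x ∈ Algebra.adjoin K (f.rootSet L) := by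
      rw [IsSplittingField.adjoin_rootSet L f]; trivial
    induction hx using Algebra.adjoin_induction with
    | mem x hx =>
      refine hmul x ?_
      rw [rootSet_def] at hx
      rw [hR, Multiset.mem_toFinset]
      simpa [aroots] using hx
    | algebraMap c => intro m hm; rw [← Algebra.smul_def]; exact M.smul_mem c hm
    | add x y _ _ hx hy => intro m hm; rw [add_mul]; exact M.add_mem (hx m hm) (hy m hm)
    | mul x y _ _ hx hy => intro m hm; rw [mul_assoc]; exact hx _ (hy m hm)
  have htop : Submodule.span K S = ⊤ := by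
    rw [eq_top_iff]
    intro x _
    have := hall x 1 hone
    rwa [mul_one] at this
  have : FiniteDimensional K L := IsSplittingField.finiteDimensional L f
  obtain ⟨b, hb1, -, hb3⟩ := Submodule.exists_fun_fin_finrank_span_eq K S
  have hfr : Module.finrank K L = Module.finrank K (Submodule.span K S) := by
    rw [htop, finrank_top]
  refine ⟨b ∘ Fin.cast hfr, hb3.comp _ (Fin.cast_injective hfr), fun i => ?_⟩
  exact hb1 _

section Filt

variable (E : Type) [Field E] {K L : Type} [Field K] [Field L] [Algebra E[X] K]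
  [IsFractionRing E[X] K] [Algebra K L] [Algebra E[X] L] [IsScalarTower E[X] K L]

/-- `z / t ^ l` is integral over the ring `O` of functions regular at infinity -/
def IntAt (O : Subring K) (l : ℕ) (z : L) : Prop :=
  ((algebraMap K L).comp O.subtype).IsIntegralElem (z / (algebraMap E[X] L X) ^ l)

/-- `O` is the ring of rational functions regular at infinity -/
structure IsInfty (O : Subring K) : Prop where
  poly : ∀ (N : E[X]) (m : ℕ), algebraMap E[X] K N / (algebraMap E[X] K X) ^ m ∈ O ↔ N.natDegree ≤ m
  closed : ∀ x : K, O.subtype.IsIntegralElem x → x ∈ O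

variable {E} {O : Subring K}

omit [IsFractionRing E[X] K] in
theorem mem_int {x : K} (hx : x ∈ O) :
    ((algebraMap K L).comp O.subtype).IsIntegralElem (algebraMap K L x) :=
  ((algebraMap K L).comp O.subtype).isIntegralElem_map (x := ⟨x, hx⟩)

include K in
theorem t_ne_zero : algebraMap E[X] L X ≠ 0 := by
  rw [IsScalarTower.algebraMap_apply E[X] K L]
  simp only [ne_eq, map_eq_zero]
  intro h
  exact X_ne_zero ((IsFractionRing.injective E[X] K) (h.trans (map_zero _).symm))

theorem IntAt.mul {l m : ℕ} {x y : L} (hx : IntAt E O l x) (hy : IntAt E O m y) :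
    IntAt E O (l + m) (x * y) := by
  have := RingHom.IsIntegralElem.mul _ hx hy
  rwa [div_mul_div_comm, ← pow_add] at this

theorem IntAt.add {l : ℕ} {x y : L} (hx : IntAt E O l x) (hy : IntAt E O l y) :
    IntAt E O l (x + y) := by
  have := RingHom.IsIntegralElem.add _ hx hy
  rwa [← add_div] at this

theorem IntAt.poly (hO : IsInfty E O) {N : E[X]} {m : ℕ} (h : N.natDegree ≤ m) :
    IntAt E O m (algebraMap E[X] L N) := by
  have := mem_int (L := L) ((hO.poly N m).mpr h)
  rwa [map_div₀, map_pow, ← IsScalarTower.algebraMap_apply, ← IsScalarTower.algebraMap_apply] at this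

theorem IntAt.of_poly (hO : IsInfty E O) {N : E[X]} {m : ℕ}
    (h : IntAt E O m (algebraMap E[X] L N)) : N.natDegree ≤ m := by
  rw [← hO.poly N m]
  apply hO.closed
  obtain ⟨p, hp, hpx⟩ := h
  refine ⟨p, hp, (algebraMap K L).injective ?_⟩
  rw [Polynomial.hom_eval₂, map_div₀, map_pow, ← IsScalarTower.algebraMap_apply,
    ← IsScalarTower.algebraMap_apply, hpx, map_zero]

theorem IntAt.zero (hO : IsInfty E O) (m : ℕ) : IntAt E O m (0 : L) := by
  have := IntAt.poly (L := L) hO (N := 0) (m := m) (by simp)
  rwa [map_zero] at this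

theorem IntAt.one (hO : IsInfty E O) (m : ℕ) : IntAt E O m (1 : L) := by
  have := IntAt.poly (L := L) hO (N := 1) (m := m) (by simp)
  rwa [map_one] at this

theorem IntAt.mono (hO : IsInfty E O) {l m : ℕ} (hlm : l ≤ m) {x : L} (hx : IntAt E O l x) :
    IntAt E O m x := by
  obtain ⟨k, rfl⟩ := Nat.exists_eq_add_of_le hlm
  simpa using hx.mul (IntAt.one (L := L) hO k)

theorem IntAt.prod (hO : IsInfty E O) {ι : Type} (s : Finset ι) (l : ι → ℕ) (x : ι → L)
    (h : ∀ i ∈ s, IntAt E O (l i) (x i)) : IntAt E O (∑ i ∈ s, l i) (∏ i ∈ s, x i) := by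
  classical
  induction s using Finset.induction_on with
  | empty => simpa using IntAt.one (L := L) hO 0
  | insert a s ha ih =>
    rw [Finset.prod_insert ha, Finset.sum_insert ha]
    exact (h a (Finset.mem_insert_self _ _)).mul (ih fun i hi => h i (Finset.mem_insert_of_mem hi))

theorem IntAt.pow (hO : IsInfty E O) {l : ℕ} {x : L} (hx : IntAt E O l x) (n : ℕ) :
    IntAt E O (n * l) (x ^ n) := by
  have := IntAt.prod hO (Finset.range n) (fun _ => l) (fun _ => x) (fun _ _ => hx)
  simpa using this

theorem IntAt.map {l : ℕ} {x : L} (σ : L ≃ₐ[K] L) (hx : IntAt E O l x) : IntAt E O l (σ x) := by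
  obtain ⟨p, hp, hpx⟩ := hx
  refine ⟨p, hp, ?_⟩
  have h1 : σ (x / (algebraMap E[X] L X) ^ l) = σ x / (algebraMap E[X] L X) ^ l := by
    rw [map_div₀, map_pow, IsScalarTower.algebraMap_apply E[X] K L, AlgEquiv.commutes]
  rw [← h1]
  have h2 : (algebraMap K L).comp O.subtype =
      (σ : L →+* L).comp ((algebraMap K L).comp O.subtype) := by
    ext a
    exact (AlgEquiv.commutes σ _).symm
  rw [h2]
  have := Polynomial.hom_eval₂ p ((algebraMap K L).comp O.subtype) (σ : L →+* L)
    (x / (algebraMap E[X] L X) ^ l)
  refine Eq.trans this.symm ?_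
  rw [hpx, map_zero]

theorem IntAt.root (hO : IsInfty E O) {w : ℕ} {g : E[X][X]} (hg : g.Monic)
    (hw : ∀ j, (g.coeff j).natDegree ≤ w) {y : L} (hy : (g.map (algebraMap E[X] L)).eval y = 0) :
    IntAt E O w y := by
  have hy' : aeval y (g.map (algebraMap E[X] K)) = 0 := by
    rw [aeval_def, eval₂_eq_eval_map, Polynomial.map_map, ← IsScalarTower.algebraMap_eq, hy]
  set s : K := ((algebraMap E[X] K X) ^ w)⁻¹ with hs
  have h1 := scaleRoots_aeval_eq_zero (A := L) (r := s) hy'
  set q := (g.map (algebraMap E[X] K)).scaleRoots s with hq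
  have hqm : q.Monic := (monic_scaleRoots_iff s).mpr (hg.map _)
  have hqc : (↑q.coeffs : Set K) ⊆ O := by
    intro c hc
    rw [Finset.mem_coe, mem_coeffs_iff] at hc
    obtain ⟨n, hn, rfl⟩ := hc
    rw [hq, coeff_scaleRoots, hg.natDegree_map, coeff_map, hs, inv_pow, ← pow_mul, ← div_eq_mul_inv,
      SetLike.mem_coe, hO.poly]
    rcases lt_or_ge n g.natDegree with h | h
    · refine (hw n).trans ?_
      have : 1 ≤ g.natDegree - n := by omega
      nlinarith
    · rcases h.eq_or_lt with h | h
      · rw [← h, hg.coeff_natDegree]; simp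
      · rw [coeff_eq_zero_of_natDegree_lt h]; simp
  refine ⟨q.toSubring O hqc, (monic_toSubring q O hqc).mpr hqm, ?_⟩
  rw [← Polynomial.eval₂_map, map_toSubring]
  have h2 : algebraMap K L s * y = y / (algebraMap E[X] L X) ^ w := by
    rw [hs, map_inv₀, map_pow, ← IsScalarTower.algebraMap_apply]
    field_simp
  rw [← h2]
  exact h1

end Filt

section Gal

variable {E : Type} [Field E] {K L : Type} [Field K] [Field L] [Algebra E[X] K]
  [IsFractionRing E[X] K] [Algebra K L] [Algebra E[X] L] [IsScalarTower E[X] K L]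

theorem isInvariant_gal [FiniteDimensional K L] [IsGalois K L] :
    Algebra.IsInvariant E[X] (integralClosure E[X] L) (L ≃ₐ[K] L) := by
  refine ⟨fun b hb => ?_⟩
  have h1 : (b : L) ∈ (⊥ : IntermediateField K L) := by
    rw [IsGalois.mem_bot_iff_fixed]
    intro σ
    exact congrArg Subtype.val (hb σ)
  rw [IntermediateField.mem_bot] at h1
  obtain ⟨x, hx⟩ := h1
  have h2 : IsIntegral E[X] x := by
    have h3 : IsIntegral E[X] (b : L) := b.2
    rw [← hx] at h3
    exact (isIntegral_algebraMap_iff (algebraMap K L).injective).mp h3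
  obtain ⟨a, rfl⟩ := IsIntegrallyClosed.algebraMap_eq_of_integral h2
  exact ⟨a, Subtype.ext ((IsScalarTower.algebraMap_apply E[X] K L a).trans hx)⟩

theorem exists_frob [Finite E] {k : Type} [Field k] (i : E →+* k) [FiniteDimensional K L]
    [IsGalois K L] (t₀ : E) (P : integralClosure E[X] L →+* k)
    (hP : ∀ a : E[X], P (algebraMap E[X] (integralClosure E[X] L) a) = i (a.eval t₀)) :
    ∃ σ : L ≃ₐ[K] L, ∀ b : integralClosure E[X] L, P (σ • b) = P b ^ Nat.card E := by
  have hinv := isInvariant_gal (E := E) (K := K) (L := L)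
  let Q : Ideal (integralClosure E[X] L) := RingHom.ker P
  have hQ : Q.IsPrime := RingHom.ker_isPrime P
  have hu : Q.under E[X] = RingHom.ker (evalRingHom t₀) := by
    ext a
    rw [Ideal.under, Ideal.mem_comap, RingHom.mem_ker, RingHom.mem_ker, hP, map_eq_zero,
      coe_evalRingHom]
  have hsurj : Function.Surjective (evalRingHom t₀ : E[X] →+* E) := fun a => ⟨C a, by simp⟩
  have e1 : (E[X] ⧸ Q.under E[X]) ≃ E :=
    ((Ideal.quotEquivOfEq hu).trans (RingHom.quotientKerEquivOfSurjective hsurj)).toEquiv
  have hcard : Nat.card (E[X] ⧸ Q.under E[X]) = Nat.card E := Nat.card_congr e1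
  have hfin : Finite (E[X] ⧸ Q.under E[X]) := Finite.of_equiv E e1.symm
  have hmf : Module.Finite E[X] (integralClosure E[X] L) :=
    IsIntegralClosure.finite E[X] K L (integralClosure E[X] L)
  have hmf2 : Module.Finite E[X] (integralClosure E[X] L ⧸ Q) :=
    Module.Finite.of_surjective (Submodule.mkQ (Q.restrictScalars E[X]))
      (Submodule.mkQ_surjective _)
  have hmf3 : Module.Finite (E[X] ⧸ Q.under E[X]) (integralClosure E[X] L ⧸ Q) :=
    Module.Finite.of_restrictScalars_finite E[X] _ _
  have hfin2 : Finite (integralClosure E[X] L ⧸ Q) :=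
    Module.finite_of_finite (E[X] ⧸ Q.under E[X])
  obtain ⟨σ, hσ⟩ := IsArithFrobAt.exists_of_isInvariant E[X] (L ≃ₐ[K] L) Q
  refine ⟨σ, fun b => ?_⟩
  have := hσ b
  rw [hcard] at this
  have h2 : P (σ • b - b ^ Nat.card E) = 0 := this
  rw [map_sub, map_pow, sub_eq_zero] at h2
  exact h2

theorem inj_roots {k : Type} [Field k] {B : Type} [CommRing B] [IsDomain B] [Algebra E[X] B]
    (P : B →+* k) (g : E[X][X])
    (hsep : (g.map (P.comp (algebraMap E[X] B))).Separable) {b b' : B}
    (hb : (g.map (algebraMap E[X] B)).eval b = 0) (hb' : (g.map (algebraMap E[X] B)).eval b' = 0)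
    (h : P b = P b') : b = b' := by
  by_contra hne
  obtain ⟨q, hq⟩ := dvd_iff_isRoot.mpr hb
  have h1 : q.eval b' = 0 := by
    rw [hq, eval_mul, eval_sub, eval_X, eval_C] at hb'
    rcases mul_eq_zero.mp hb' with h | h
    · exact absurd (sub_eq_zero.mp h).symm hne
    · exact h
  have h2 : g.map (P.comp (algebraMap E[X] B)) = (X - C (P b)) * q.map P := by
    rw [← Polynomial.map_map, hq, Polynomial.map_mul]
    simp
  have h3 : (q.map P).eval (P b) = 0 := by
    rw [h, eval_map, Polynomial.eval₂_at_apply, h1, map_zero]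
  obtain ⟨r, hr⟩ := dvd_iff_isRoot.mpr h3
  rw [h2, hr] at hsep
  have h4 : IsUnit (X - C (P b)) := isUnit_of_self_mul_dvd_separable hsep ⟨r, by ring⟩
  exact not_isUnit_X_sub_C _ h4

theorem root_coe (g : E[X][X]) (b : integralClosure E[X] L) :
    (((g.map (algebraMap E[X] (integralClosure E[X] L))).eval b : integralClosure E[X] L) : L) =
      (g.map (algebraMap E[X] L)).eval (b : L) := by
  rw [eval_map, eval_map]
  exact Polynomial.hom_eval₂ g (algebraMap E[X] (integralClosure E[X] L))
        (integralClosure E[X] L).val.toRingHom b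

theorem gal_ext (g : E[X][X]) (hg : g.Monic) [IsSplittingField K L (g.map (algebraMap E[X] K))]
    {σ σ' : L ≃ₐ[K] L} (h : ∀ b : integralClosure E[X] L,
      (g.map (algebraMap E[X] (integralClosure E[X] L))).eval b = 0 → σ • b = σ' • b) : σ = σ' := by
  classical
  have h1 : (σ : L →ₐ[K] L) = (σ' : L →ₐ[K] L) := by
    refine AlgHom.ext_of_adjoin_eq_top (IsSplittingField.adjoin_rootSet L (g.map (algebraMap E[X] K))) ?_
    intro y hy
    rw [rootSet_def, Finset.mem_coe, Multiset.mem_toFinset, aroots, Polynomial.map_map,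
      ← IsScalarTower.algebraMap_eq, mem_roots (map_monic_ne_zero hg), IsRoot.def] at hy
    have hyi : IsIntegral E[X] y := ⟨g, hg, by rw [← eval_map, hy]⟩
    have := h ⟨y, hyi⟩ (Subtype.ext ((root_coe g ⟨y, hyi⟩).trans hy))
    exact congrArg Subtype.val this
  ext x
  exact congrArg (fun f : L →ₐ[K] L => f x) h1

end Gal

theorem card_gal_le {K L : Type} [Field K] [Field L] [Algebra K L] (f : K[X]) (hf : f ≠ 0)
    [IsSplittingField K L f] : Nat.card (L ≃ₐ[K] L) ≤ f.natDegree.factorial := by
  classical
  have hmem : ∀ y : L, y ∈ f.rootSet L ↔ aeval y f = 0 := fun y => by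
    rw [mem_rootSet, and_iff_right hf]
  let F : (L ≃ₐ[K] L) → (f.rootSet L ↪ f.rootSet L) := fun σ =>
    ⟨fun y => ⟨σ y, by
      rw [hmem]
      have h1 := (hmem y).mp y.2
      have := Polynomial.aeval_algHom_apply (σ : L →ₐ[K] L) (y : L) f
      rw [h1, map_zero] at this
      exact this⟩, fun y z h => Subtype.ext (σ.injective (congrArg Subtype.val h))⟩
  have hF : Function.Injective F := by
    intro σ σ' h
    have h1 : (σ : L →ₐ[K] L) = (σ' : L →ₐ[K] L) := by
      refine AlgHom.ext_of_adjoin_eq_top (IsSplittingField.adjoin_rootSet L f) ?_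
      intro y hy
      have := congrArg (fun φ : (f.rootSet L ↪ f.rootSet L) => ((φ ⟨y, hy⟩ : f.rootSet L) : L)) h
      exact this
    ext x
    exact congrArg (fun f : L →ₐ[K] L => f x) h1
  have _ : Fintype (f.rootSet L) := f.rootSetFintype L
  calc Nat.card (L ≃ₐ[K] L) ≤ Nat.card (f.rootSet L ↪ f.rootSet L) :=
        Nat.card_le_card_of_injective F hF
    _ = Fintype.card (f.rootSet L ↪ f.rootSet L) := Nat.card_eq_fintype_card
    _ = (Fintype.card (f.rootSet L)).factorial := by
        rw [Fintype.card_embedding_eq, Nat.descFactorial_self]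
    _ ≤ f.natDegree.factorial := by
        apply Nat.factorial_le
        rw [← Set.toFinset_card]
        have : (f.rootSet L).toFinset = (f.aroots L).toFinset := by
          simp [rootSet_def]
        rw [this]
        refine (Multiset.toFinset_card_le _).trans ((card_roots' _).trans natDegree_map_le)

section Dim

variable {E : Type} [Field E] {K L : Type} [Field K] [Field L] [Algebra E[X] K]
  [IsFractionRing E[X] K] [Algebra K L] [Algebra E[X] L] [IsScalarTower E[X] K L]
  [Algebra E L] [IsScalarTower E E[X] L]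

theorem exists_indep {O : Subring K} (hO : IsInfty E O) {d w : ℕ} (hd : 0 < d) (g : E[X][X])
    (hg : g.Monic) (hdeg : g.natDegree = d) (hw : ∀ j, (g.coeff j).natDegree ≤ w)
    [IsSplittingField K L (g.map (algebraMap E[X] K))] (l : ℕ) :
    ∃ v : Fin (Module.finrank K L * (l + 1 - w * d.factorial)) → integralClosure E[X] L,
      LinearIndependent E v ∧ ∀ j, IntAt E O l (v j : L) := by
  have hfd : (g.map (algebraMap E[X] K)).natDegree = d := by rw [hg.natDegree_map, hdeg]
  obtain ⟨R, hR, hRc, b, hb, hba⟩ := exists_mono_basis (L := L) (g.map (algebraMap E[X] K))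
    (hg.map _) (by rw [hfd]; exact hd)
  rw [hfd] at hRc hba
  have hroot : ∀ y ∈ R, (g.map (algebraMap E[X] L)).eval y = 0 := by
    intro y hy
    have := hR y hy
    rwa [Polynomial.map_map, ← IsScalarTower.algebraMap_eq, IsRoot.def] at this
  have hfac : d * (d - 1) ≤ d.factorial := by
    obtain ⟨m, rfl⟩ : ∃ m, d = m + 1 := ⟨d - 1, by omega⟩
    rw [Nat.factorial_succ, Nat.add_sub_cancel]
    exact Nat.mul_le_mul_left _ (Nat.self_le_factorial m)
  have hbκ : ∀ i, IntAt E O (w * d.factorial) (b i) := by
    intro i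
    obtain ⟨a, ha, hi⟩ := hba i
    rw [hi]
    have h1 : IntAt E O (∑ y ∈ R, a y * w) (∏ y ∈ R, y ^ a y) :=
      IntAt.prod hO R (fun y => a y * w) (fun y => y ^ a y) fun y hy =>
        (IntAt.root hO hg hw (hroot y hy)).pow hO (a y)
    refine h1.mono hO ?_
    calc ∑ y ∈ R, a y * w ≤ ∑ _y ∈ R, (d - 1) * w :=
          Finset.sum_le_sum fun y _ => Nat.mul_le_mul_right _ (ha y)
      _ = R.card * ((d - 1) * w) := by simp
      _ ≤ d * ((d - 1) * w) := Nat.mul_le_mul_right _ hRc
      _ = w * (d * (d - 1)) := by ring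
      _ ≤ w * d.factorial := Nat.mul_le_mul_left _ hfac
  have hbint : ∀ i, IsIntegral E[X] (b i) := by
    intro i
    obtain ⟨a, ha, hi⟩ := hba i
    rw [hi]
    refine IsIntegral.prod _ fun y hy => IsIntegral.pow ⟨g, hg, ?_⟩ _
    rw [← eval_map]; exact hroot y hy
  set m := l + 1 - w * d.factorial with hm
  have hind1 : LinearIndependent E[X] b :=
    hb.restrict_scalars (by
      intro x y hxy
      simp only [Algebra.smul_def, mul_one] at hxy
      exact IsFractionRing.injective E[X] K hxy)
  have hind0 : LinearIndependent E (fun i : Fin m => (X ^ (i : ℕ) : E[X])) := by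
    have h1 : LinearIndependent E (fun i : ℕ => (X ^ i : E[X])) := by
      have := (Polynomial.basisMonomials E).linearIndependent
      rw [Polynomial.coe_basisMonomials] at this
      convert this using 1
      ext i : 1
      rw [monomial_one_right_eq_X_pow]
    exact h1.comp _ Fin.val_injective
  have hind2 : LinearIndependent E (fun p : Fin m × Fin (Module.finrank K L) =>
      (X ^ (p.1 : ℕ) : E[X]) • b p.2) := linearIndependent_smul hind0 hind1
  let e : Fin (Module.finrank K L * m) ≃ Fin m × Fin (Module.finrank K L) :=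
    (finProdFinEquiv.symm).trans (Equiv.prodComm _ _)
  refine ⟨fun j => (X ^ ((e j).1 : ℕ) : E[X]) • ⟨b (e j).2, hbint _⟩, ?_, ?_⟩
  · have h3 : LinearIndependent E (fun j => (X ^ ((e j).1 : ℕ) : E[X]) • b (e j).2) :=
      hind2.comp e e.injective
    refine LinearIndependent.of_comp ((integralClosure E[X] L).val.toLinearMap.restrictScalars E) ?_
    exact h3
  · intro j
    have h4 : (((X ^ ((e j).1 : ℕ) : E[X]) • (⟨b (e j).2, hbint _⟩ : integralClosure E[X] L) :
        integralClosure E[X] L) : L) = algebraMap E[X] L (X ^ ((e j).1 : ℕ)) * b (e j).2 := by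
      rw [← Algebra.smul_def]; rfl
    rw [h4]
    have h5 : IntAt E O ((e j).1 : ℕ) (algebraMap E[X] L (X ^ ((e j).1 : ℕ))) :=
      IntAt.poly hO (by simp)
    refine (h5.mul (hbκ (e j).2)).mono hO ?_
    have := (e j).1.2
    omega

end Dim

/-- the map `E[t] → k⟦X⟧`, `t ↦ t₀ + X` -/
noncomputable def expand {E k : Type} [Field E] [Field k] (i : E →+* k) (t₀ : E) :
    E[X] →+* PowerSeries k :=
  (Polynomial.coeToPowerSeries.ringHom).comp
    ((compRingHom (X + C (i t₀))).comp (mapRingHom i))

theorem expand_C {E k : Type} [Field E] [Field k] (i : E →+* k) (t₀ a : E) :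
    expand i t₀ (C a) = PowerSeries.C (i a) := by
  simp [expand]

theorem expand_X {E k : Type} [Field E] [Field k] (i : E →+* k) (t₀ : E) :
    expand i t₀ X = PowerSeries.C (i t₀) + PowerSeries.X := by
  simp [expand, add_comm]

theorem expand_injective {E k : Type} [Field E] [Field k] (i : E →+* k) (t₀ : E) :
    Function.Injective (expand i t₀) := by
  have h1 : Function.Injective (Polynomial.coeToPowerSeries.ringHom : k[X] →+* PowerSeries k) :=
    Polynomial.coe_injective k
  have h2 : Function.Injective (mapRingHom i) := Polynomial.map_injective i i.injective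
  have h3 : Function.Injective (compRingHom (X + C (i t₀)) : k[X] →+* k[X]) := by
    intro p q h
    exact Polynomial.taylor_injective (i t₀) h
  exact h1.comp (h3.comp h2)

theorem constantCoeff_expand {E k : Type} [Field E] [Field k] (i : E →+* k) (t₀ : E) :
    (PowerSeries.constantCoeff : PowerSeries k →+* k).comp (expand i t₀) =
      i.comp (evalRingHom t₀) := by
  refine Polynomial.ringHom_ext (fun a => ?_) ?_
  · rw [RingHom.comp_apply, expand_C]; simp
  · rw [RingHom.comp_apply, expand_X]; simp

theorem exists_cdata_aux {d w : ℕ} (hd : 0 < d) {E : Type} [Field E] [Finite E] (g : E[X][X])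
    (hg : g.Monic) (hdeg : g.natDegree = d) (hw : ∀ j, (g.coeff j).natDegree ≤ w)
    (hs : (g.map (evalRingHom 0)).Splits) (hsep : (g.map (evalRingHom 0)).Separable)
    {K L : Type} [Field K] [Field L] [Algebra E[X] K]
    [IsFractionRing E[X] K] [Algebra K L] [Algebra E[X] L] [IsScalarTower E[X] K L]
    [Algebra E L] [IsScalarTower E E[X] L] {O : Subring K} (hO : IsInfty E O)
    [IsSplittingField K L (g.map (algebraMap E[X] K))] :
    ∃ e : ℕ, 0 < e ∧ e ≤ d.factorial ∧
      Nonempty (CData E (AlgebraicClosure E) (algebraMap E (AlgebraicClosure E)) g e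
        (w * d.factorial) (w * d ^ 2)) := by
  have hfd : (g.map (algebraMap E[X] K)).natDegree = d := by rw [hg.natDegree_map, hdeg]
  have hfsep : (g.map (algebraMap E[X] K)).Separable := by
    rw [← disc_iff _ g hg]
    have h1 := (disc_iff (evalRingHom (0 : E)) g hg).mpr hsep
    intro h2
    apply h1
    rw [(IsFractionRing.injective E[X] K) (h2.trans (map_zero _).symm), map_zero]
  have hgal : IsGalois K L := IsGalois.of_separable_splitting_field hfsep
  have hfin : FiniteDimensional K L := IsSplittingField.finiteDimensional L (g.map (algebraMap E[X] K))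
  have hfinG : Fintype (L ≃ₐ[K] L) := Fintype.ofFinite _
  have hcard : Fintype.card (L ≃ₐ[K] L) = Module.finrank K L := by
    rw [← Nat.card_eq_fintype_card, IsGalois.card_aut_eq_finrank]
  have hinv := isInvariant_gal (E := E) (K := K) (L := L)
  -- expansion at the rational point
  obtain ⟨ι₀, hι₀, hι₀a⟩ := exists_lift (E := E) (k := E) (K := K) (L := L) g hg
    (expand (RingHom.id E) 0) (expand_injective _ _)
    (by rw [Polynomial.map_map, constantCoeff_expand]; exact hs)
    (by rw [Polynomial.map_map, constantCoeff_expand]; exact hsep)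
  -- expansions at the good points
  have hgood : ∀ t₀ : {t : E | (g.map (evalRingHom t)).Separable},
      ∃ Ψ : integralClosure E[X] L →+* PowerSeries (AlgebraicClosure E), Function.Injective Ψ ∧
      ∀ a : E[X], Ψ (algebraMap E[X] (integralClosure E[X] L) a) =
        expand (algebraMap E (AlgebraicClosure E)) t₀ a := by
    intro t₀
    refine exists_lift (E := E) (K := K) (L := L) g hg
      (expand (algebraMap E (AlgebraicClosure E)) t₀) (expand_injective _ _)
      (IsAlgClosed.splits _) ?_
    rw [Polynomial.map_map, constantCoeff_expand, ← Polynomial.map_map]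
    exact Separable.map t₀.2
  choose ι hι hιa using hgood
  -- the root
  obtain ⟨y, hy⟩ : ∃ y : L, (g.map (algebraMap E[X] L)).eval y = 0 := by
    have h1 := IsSplittingField.splits L (g.map (algebraMap E[X] K))
    rw [Polynomial.map_map, ← IsScalarTower.algebraMap_eq] at h1
    refine h1.exists_eval_eq_zero ?_
    intro h
    have h2 := natDegree_eq_of_degree_eq_some (n := 0) h
    rw [hg.natDegree_map, hdeg] at h2
    omega
  have hyi : IsIntegral E[X] y := ⟨g, hg, by rw [← eval_map, hy]⟩
  let Y : integralClosure E[X] L := ⟨y, hyi⟩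
  have hY : (g.map (algebraMap E[X] (integralClosure E[X] L))).eval Y = 0 :=
    Subtype.ext ((root_coe g Y).trans hy)
  have haeval : ∀ N : E[X], aeval (algebraMap E[X] (integralClosure E[X] L) X) N =
      algebraMap E[X] (integralClosure E[X] L) N := by
    intro N
    rw [Polynomial.aeval_algebraMap_apply, aeval_X_left_apply]
  have halg : ∀ a : E, algebraMap E (integralClosure E[X] L) a =
      algebraMap E[X] (integralClosure E[X] L) (C a) := by
    intro a
    rw [IsScalarTower.algebraMap_apply E E[X] (integralClosure E[X] L)]; rfl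
  have hrootsmul : ∀ (τ : L ≃ₐ[K] L) (b : integralClosure E[X] L),
      (g.map (algebraMap E[X] (integralClosure E[X] L))).eval b = 0 →
      (g.map (algebraMap E[X] (integralClosure E[X] L))).eval (τ • b) = 0 := by
    intro τ b hb
    have h1 := Polynomial.hom_eval₂ g (algebraMap E[X] (integralClosure E[X] L))
      (MulSemiringAction.toRingHom (L ≃ₐ[K] L) (integralClosure E[X] L) τ) b
    rw [← eval_map, hb, map_zero] at h1
    rw [eval_map, h1]
    congr 1
    refine Polynomial.ringHom_ext (fun a => ?_) ?_
    · exact (smul_algebraMap τ (C a)).symm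
    · exact (smul_algebraMap τ X).symm
  have hPsep : ∀ t₀ : {t : E | (g.map (evalRingHom t)).Separable},
      (g.map (((PowerSeries.constantCoeff : PowerSeries (AlgebraicClosure E) →+* _).comp
        (ι t₀)).comp (algebraMap E[X] (integralClosure E[X] L)))).Separable := by
    intro t₀
    have h1 : ((PowerSeries.constantCoeff : PowerSeries (AlgebraicClosure E) →+* _).comp
        (ι t₀)).comp (algebraMap E[X] (integralClosure E[X] L)) =
        (algebraMap E (AlgebraicClosure E)).comp (evalRingHom (t₀ : E)) := by
      rw [← constantCoeff_expand]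
      refine RingHom.ext fun a => ?_
      exact congrArg (PowerSeries.constantCoeff : PowerSeries (AlgebraicClosure E) →+* _)
        (hιa t₀ a)
    rw [h1, ← Polynomial.map_map]
    exact Separable.map t₀.2
  refine ⟨Fintype.card (L ≃ₐ[K] L), Fintype.card_pos, ?_, ⟨?_⟩⟩
  · rw [← Nat.card_eq_fintype_card, ← hfd]
    exact card_gal_le (L := L) (g.map (algebraMap E[X] K)) (hg.map _).ne_zero
  exact
    { B := integralClosure E[X] L
      G := L ≃ₐ[K] L
      t := algebraMap E[X] (integralClosure E[X] L) X
      smul_const := fun τ a => by rw [halg]; exact smul_algebraMap τ (C a)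
      smul_t := fun τ => smul_algebraMap τ X
      card_G := rfl
      F := fun l =>
        { carrier := {b | IntAt E O l (b : L)}
          add_mem' := fun {a b} ha hb => IntAt.add (K := K) ha hb
          zero_mem' := IntAt.zero (L := L) hO l
          smul_mem' := fun c x hx => by
            have h1 : ((c • x : integralClosure E[X] L) : L) = algebraMap E[X] L (C c) * (x : L) := by
              rw [Algebra.smul_def, halg]; rfl
            change IntAt E O l ((c • x : integralClosure E[X] L) : L)
            rw [h1]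
            have h2 := (IntAt.poly (L := L) hO (N := C c) (m := 0) (by simp)).mul (K := K) hx
            rwa [zero_add] at h2 }
      mul_mem := fun {l m x y} hx hy => IntAt.mul (K := K) hx hy
      smul_mem := fun {l} τ {x} hx => IntAt.map (K := K) τ hx
      dim := fun l => by
        rw [hcard]
        exact exists_indep hO hd g hg hdeg hw l
      norm_mem := fun {l x} hx => by
        obtain ⟨N, hN⟩ := hinv.isInvariant (∏ τ : L ≃ₐ[K] L, τ • x) (fun σ => by
          rw [Finset.smul_prod']
          simp only [smul_smul]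
          exact Fintype.prod_equiv (Equiv.mulLeft σ) _ _ fun τ => rfl)
        refine ⟨N, ?_, by rw [haeval, hN]⟩
        apply IntAt.of_poly (L := L) hO
        have h1 : algebraMap E[X] L N = ∏ τ : L ≃ₐ[K] L, τ (x : L) := by
          have := congrArg Subtype.val hN
          rw [show (algebraMap E[X] L N) =
            ((algebraMap E[X] (integralClosure E[X] L) N : integralClosure E[X] L) : L) from rfl, this]
          exact map_prod (integralClosure E[X] L).val _ _
        rw [h1]
        have h2 := IntAt.prod hO Finset.univ (fun _ : L ≃ₐ[K] L => l) (fun τ => τ (x : L))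
          (fun τ _ => IntAt.map τ hx)
        simpa using h2
      ι₀ := ι₀
      ι₀_inj := hι₀
      ι₀_const := fun a => by rw [halg, hι₀a, expand_C]; rfl
      ι₀_t := by rw [hι₀a, expand_X]; simp
      T := {t : E | (g.map (evalRingHom t)).Separable}
      card_T := bad_points hd g hg hdeg hw hsep
      ι := ι
      ι_const := fun t₀ a => by rw [halg, hιa, expand_C]
      ι_t := fun t₀ => by rw [hιa, expand_X]
      frob := fun t₀ τ => by
        obtain ⟨σ, hσ⟩ := exists_frob (K := K) (L := L) (algebraMap E (AlgebraicClosure E)) (t₀ : E)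
          (((PowerSeries.constantCoeff : PowerSeries (AlgebraicClosure E) →+* _).comp
            (ι t₀)).comp (MulSemiringAction.toRingHom (L ≃ₐ[K] L) (integralClosure E[X] L) τ))
          (fun a => by
            have h1 : (MulSemiringAction.toRingHom (L ≃ₐ[K] L) (integralClosure E[X] L) τ)
              (algebraMap E[X] (integralClosure E[X] L) a) =
              algebraMap E[X] (integralClosure E[X] L) a := smul_algebraMap τ a
            rw [RingHom.comp_apply, h1, RingHom.comp_apply, hιa]
            exact congrArg (fun f : E[X] →+* AlgebraicClosure E => f a)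
              (constantCoeff_expand (algebraMap E (AlgebraicClosure E)) (t₀ : E)))
        exact ⟨σ, hσ⟩
      Y := Y
      Y_root := by
        have h1 : (aeval (algebraMap E[X] (integralClosure E[X] L) X) :
          E[X] →ₐ[E] (integralClosure E[X] L)).toRingHom =
            algebraMap E[X] (integralClosure E[X] L) := RingHom.ext haeval
        rw [h1, hY]
      stab := fun t₀ τ τ' h => inj_roots ((PowerSeries.constantCoeff :
          PowerSeries (AlgebraicClosure E) →+* _).comp (ι t₀)) g (hPsep t₀)
          (hrootsmul τ Y hY) (hrootsmul τ' Y hY) h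
      uniq := fun t₀ τ σ σ' h => by
        refine gal_ext g hg fun b hb => ?_
        have h1 := inj_roots ((PowerSeries.constantCoeff :
          PowerSeries (AlgebraicClosure E) →+* _).comp (ι t₀)) g (hPsep t₀)
          (hrootsmul τ _ (hrootsmul σ b hb)) (hrootsmul τ _ (hrootsmul σ' b hb)) (h b)
        exact smul_left_cancel τ h1 }

theorem exists_cdata (d w : ℕ) (hd : 0 < d) (E : Type) [Field E] [Finite E] (g : E[X][X])
    (hg : g.Monic) (hdeg : g.natDegree = d) (hw : ∀ j, (g.coeff j).natDegree ≤ w)
    (hs : (g.map (evalRingHom 0)).Splits) (hsep : (g.map (evalRingHom 0)).Separable) :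
    ∃ e : ℕ, 0 < e ∧ e ≤ d.factorial ∧
      Nonempty (CData E (AlgebraicClosure E) (algebraMap E (AlgebraicClosure E)) g e
        (w * d.factorial) (w * d ^ 2)) := by
  obtain ⟨O, hO1, hO2⟩ := exists_infty E
  let f : (RatFunc E)[X] := g.map (algebraMap E[X] (RatFunc E))
  obtain ⟨L, _, _, hL⟩ : ∃ (L : Type) (_ : Field L) (_ : Algebra (RatFunc E) L),
      IsSplittingField (RatFunc E) L f :=
    ⟨f.SplittingField, inferInstance, inferInstance, inferInstance⟩
  let _ : Algebra E[X] L := ((algebraMap (RatFunc E) L).comp (algebraMap E[X] (RatFunc E))).toAlgebra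
  have _ : IsScalarTower E[X] (RatFunc E) L := IsScalarTower.of_algebraMap_eq fun _ => rfl
  let _ : Algebra E L := ((algebraMap E[X] L).comp (C : E →+* E[X])).toAlgebra
  have _ : IsScalarTower E E[X] L := IsScalarTower.of_algebraMap_eq fun _ => rfl
  exact exists_cdata_aux (K := RatFunc E) (L := L) hd g hg hdeg hw hs hsep
    (O := O) ⟨hO1, hO2⟩

end Pool.Agent.Lib.MP_305fdd_al.LW
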