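import Pool.Agent.Lib.MP_305fdd_al.LW.RepRing
import Pool.Agent.Lib.MP_305fdd_al.Basic

/-!
# MP_305fdd_al (LW): the universal representation ring of a group in the genus of a free group is a
domain modulo every prime
-/

set_option autoImplicit false

namespace Pool.Agent.Lib.MP_305fdd_al.LW

open Polynomial Pool.Agent.MP_305fdd_al

/-- the statement of piece D -/
def DomainStatement : Prop := ∀ (F : Type) [Field F] [Finite F] (B : Type) [CommRing B] [IsDomain B]
    [Algebra F B] [Algebra.FiniteType F B] (b : B) (_ : b ≠ 0) {ι : Type} [Fintype ι] (s : ι → B)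
    (_ : AlgebraicIndependent F s),
    ∃ (F₁ : Type) (_ : Field F₁) (_ : Finite F₁) (_ : Algebra F F₁) (C : ℕ),
      ∀ (E : Type) [Field E] [Finite E] [Algebra F E], Nonempty (F₁ →ₐ[F] E) →
      ∀ Q : ℕ, Nat.card E = Q ^ 2 →
        Nat.card E ^ (Fintype.card ι + 1) ≤
          Nat.card E * Nat.card {ψ : B →ₐ[F] E // ψ b ≠ 0} +
            C * Q * Nat.card E ^ (Fintype.card ι)

/-- the statement of piece R -/
def SeriesStatement : Prop := ∀ {n N : ℕ} {Λ : Type} [Group Λ] [Group.FG Λ]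
    (_ : SameFiniteQuotients Λ (FreeGroup (Fin n))) (ℓ : ℕ)
    [Fact ℓ.Prime] (x : RepRing (ZMod ℓ) Λ N) (_ : x ≠ 0),
    ∃ (F : Type) (_ : Field F) (_ : Finite F) (_ : Algebra (ZMod ℓ) F) (B : Type)
      (_ : CommRing B) (_ : IsDomain B) (_ : Algebra F B) (_ : Algebra.FiniteType F B)
      (θ : RepRing (ZMod ℓ) Λ N →+* B),
      θ x ≠ 0 ∧ Algebra.adjoin F (Set.range θ) = ⊤ ∧
      ∃ s : Fin n × Fin N × Fin N → B, AlgebraicIndependent F s

/-- the number of points of the universal representation ring over a finite field -/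
theorem card_points_le {n N : ℕ} {Λ : Type} [Group Λ] [Group.FG Λ]
    (h : SameFiniteQuotients Λ (FreeGroup (Fin n))) (ℓ : ℕ) [Fact ℓ.Prime] (E : Type) [Field E]
    [Finite E] [Algebra (ZMod ℓ) E] :
    Finite (RepRing (ZMod ℓ) Λ N →+* E) ∧
    Nat.card (RepRing (ZMod ℓ) Λ N →+* E) ≤ Nat.card E ^ (n * (N * N)) := by
  have hfin : Finite (Λ →* GL (Fin N) E) := finite_hom Λ _
  -- a point gives a representation
  let f : (RepRing (ZMod ℓ) Λ N →+* E) → (Λ →* GL (Fin N) E) := fun P =>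
    ((RingHom.mapMatrix P).toMonoidHom.comp (RepRing.univ (ZMod ℓ) Λ N)).toHomUnits
  have hf : Function.Injective f := by
    intro P P' hPP
    apply RepRing.hom_ext
    · intro c
      have : (P.comp (algebraMap (ZMod ℓ) _)) = (P'.comp (algebraMap (ZMod ℓ) _)) :=
        Subsingleton.elim _ _
      exact DFunLike.congr_fun this c
    · intro x a b
      have h1 := congrArg (fun ρ : Λ →* GL (Fin N) E => (ρ x : Matrix (Fin N) (Fin N) E) a b) hPP
      exact h1
  refine ⟨Finite.of_injective f hf, ?_⟩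
  refine (Nat.card_le_card_of_injective f hf).trans ?_
  have h1 : Nat.card (Λ →* GL (Fin N) E) = Nat.card (FreeGroup (Fin n) →* GL (Fin N) E) :=
    hc_eq_of_same _ h
  rw [h1, Nat.card_congr (FreeGroup.lift (α := Fin n) (β := GL (Fin N) E)).symm,
    Nat.card_fun, Nat.card_eq_fintype_card (α := Fin n), Fintype.card_fin]
  have h2 : Nat.card (GL (Fin N) E) ≤ Nat.card E ^ (N * N) := by
    refine (Nat.card_le_card_of_injective (fun g : GL (Fin N) E =>
      (g : Matrix (Fin N) (Fin N) E)) Units.val_injective).trans ?_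
    change Nat.card (Fin N → Fin N → E) ≤ _
    rw [Nat.card_fun, Nat.card_fun, Nat.card_eq_fintype_card (α := Fin N), Fintype.card_fin,
      ← pow_mul]
  calc Nat.card (GL (Fin N) E) ^ n ≤ (Nat.card E ^ (N * N)) ^ n := Nat.pow_le_pow_left h2 n
    _ = Nat.card E ^ (n * (N * N)) := by rw [← pow_mul, mul_comm]

/-- many points at which a given non-zero element does not vanish -/
theorem many_points (HD : DomainStatement) (HR : SeriesStatement) {n N : ℕ} {Λ : Type} [Group Λ]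
    [Group.FG Λ] (h : SameFiniteQuotients Λ (FreeGroup (Fin n))) (ℓ : ℕ) [Fact ℓ.Prime]
    (x : RepRing (ZMod ℓ) Λ N) (hx : x ≠ 0) :
    ∃ r C : ℕ, 0 < r ∧ ∀ (E : Type) [Field E] [Finite E] [Algebra (ZMod ℓ) E],
      r ∣ Module.finrank (ZMod ℓ) E → ∀ Q : ℕ, Nat.card E = Q ^ 2 →
      Nat.card E ^ (n * (N * N) + 1) ≤
        Nat.card E * Nat.card {P : RepRing (ZMod ℓ) Λ N →+* E // P x ≠ 0} +
          C * Q * Nat.card E ^ (n * (N * N)) := by
  obtain ⟨F, _, _, _, B, _, _, _, _, θ, hθx, hθ, s, hs⟩ := HR h ℓ x hx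
  obtain ⟨F₁, _, _, _, C, hC⟩ := HD F B (θ x) hθx s hs
  let _ : Algebra (ZMod ℓ) F₁ := ((algebraMap F F₁).comp (algebraMap (ZMod ℓ) F)).toAlgebra
  have hfin₁ : Module.Finite (ZMod ℓ) F₁ := Module.Finite.of_finite
  refine ⟨Module.finrank (ZMod ℓ) F₁, C, Module.finrank_pos, ?_⟩
  intro E _ _ _ hdvd Q hQ
  obtain ⟨j⟩ := FiniteField.nonempty_algHom_of_finrank_dvd hdvd
  let _ : Algebra F E := (j.toRingHom.comp (algebraMap F F₁)).toAlgebra
  let j' : F₁ →ₐ[F] E := { j.toRingHom with commutes' := fun c => rfl }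
  have h1 := hC E ⟨j'⟩ Q hQ
  have h2 : Fintype.card (Fin n × Fin N × Fin N) = n * (N * N) := by
    simp [Fintype.card_prod]
  rw [h2] at h1
  have hfinP : Finite (RepRing (ZMod ℓ) Λ N →+* E) := (card_points_le h ℓ E).1
  have h3 : Nat.card {ψ : B →ₐ[F] E // ψ (θ x) ≠ 0} ≤
      Nat.card {P : RepRing (ZMod ℓ) Λ N →+* E // P x ≠ 0} := by
    refine Nat.card_le_card_of_injective
      (fun ψ => ⟨ψ.1.toRingHom.comp θ, ψ.2⟩) ?_
    rintro ⟨ψ, hψ⟩ ⟨ψ', hψ'⟩ heq
    apply Subtype.ext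
    have h4 : ψ.toRingHom.comp θ = ψ'.toRingHom.comp θ := congrArg Subtype.val heq
    refine AlgHom.ext_of_adjoin_eq_top hθ ?_
    rintro _ ⟨y, rfl⟩
    exact DFunLike.congr_fun h4 y
  exact h1.trans (Nat.add_le_add_right (Nat.mul_le_mul_left _ h3) _)

theorem noZeroDivisors (HD : DomainStatement) (HR : SeriesStatement) {n N : ℕ} {Λ : Type} [Group Λ]
    [Group.FG Λ] (h : SameFiniteQuotients Λ (FreeGroup (Fin n))) (ℓ : ℕ) [Fact ℓ.Prime]
    (x x' : RepRing (ZMod ℓ) Λ N) (hxx : x * x' = 0) : x = 0 ∨ x' = 0 := by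
  by_contra hcon
  push Not at hcon
  obtain ⟨hx, hx'⟩ := hcon
  obtain ⟨r, C, hr, H⟩ := many_points HD HR h ℓ x hx
  obtain ⟨r', C', hr', H'⟩ := many_points HD HR h ℓ x' hx'
  have hℓ : ℓ.Prime := Fact.out
  -- a large finite field
  let e := r * r' * (C + C' + 1)
  have he : 0 < e := by positivity
  let E := GaloisField ℓ (e * 2)
  have hcard : Nat.card E = (ℓ ^ e) ^ 2 := by
    rw [← pow_mul]
    exact GaloisField.card ℓ (e * 2) (by positivity)
  have hfinE : Finite E := Nat.finite_of_card_ne_zero (by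
    rw [hcard]
    have := hℓ.pos
    positivity)
  have hrank : Module.finrank (ZMod ℓ) E = e * 2 := GaloisField.finrank ℓ (by positivity)
  have h1 := H E (by
    rw [hrank]
    exact ⟨r' * (C + C' + 1) * 2, by simp only [e]; ring⟩) (ℓ ^ e) hcard
  have h2 := H' E (by
    rw [hrank]
    exact ⟨r * (C + C' + 1) * 2, by simp only [e]; ring⟩) (ℓ ^ e) hcard
  obtain ⟨hfinP, h3⟩ := card_points_le (N := N) h ℓ E
  -- the two sets of points are disjoint
  have h4 : Nat.card {P : RepRing (ZMod ℓ) Λ N →+* E // P x ≠ 0} +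
      Nat.card {P : RepRing (ZMod ℓ) Λ N →+* E // P x' ≠ 0} ≤
      Nat.card (RepRing (ZMod ℓ) Λ N →+* E) := by
    rw [← Nat.card_sum]
    refine Nat.card_le_card_of_injective
      (Sum.elim Subtype.val Subtype.val) ?_
    have hdis : ∀ P : RepRing (ZMod ℓ) Λ N →+* E, P x ≠ 0 → P x' ≠ 0 → False := by
      intro P hP hP'
      have := congrArg P hxx
      rw [map_mul, map_zero] at this
      rcases mul_eq_zero.1 this with h | h
      · exact hP h
      · exact hP' h
    rintro (⟨P, hP⟩ | ⟨P, hP⟩) (⟨P', hP'⟩ | ⟨P', hP'⟩) heq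
    · exact congrArg Sum.inl (Subtype.ext heq)
    · exact (hdis P hP (by have : P = P' := heq; rw [this]; exact hP')).elim
    · exact (hdis P (by have : P = P' := heq; rw [this]; exact hP') hP).elim
    · exact congrArg Sum.inr (Subtype.ext heq)
  set q := Nat.card E with hq
  set D := n * (N * N) with hD
  set Q := ℓ ^ e with hQdef
  set a := Nat.card {P : RepRing (ZMod ℓ) Λ N →+* E // P x ≠ 0}
  set a' := Nat.card {P : RepRing (ZMod ℓ) Λ N →+* E // P x' ≠ 0}
  have hq0 : 0 < q := Nat.card_pos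
  have hqD : 0 < q ^ D := pow_pos hq0 D
  have h5 : q * (a + a') ≤ q * q ^ D := Nat.mul_le_mul_left _ (h4.trans h3)
  have h6 : q ^ D * q ≤ q ^ D * ((C + C') * Q) := by
    have e1 : q ^ (D + 1) = q * q ^ D := by rw [pow_succ, mul_comm]
    rw [e1] at h1 h2
    have e2 : q * (a + a') = q * a + q * a' := mul_add _ _ _
    rw [e2] at h5
    have e3 : q ^ D * ((C + C') * Q) = C * Q * q ^ D + C' * Q * q ^ D := by ring
    have e4 : q ^ D * q = q * q ^ D := mul_comm _ _
    rw [e3, e4]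
    omega
  have h7 : q ≤ (C + C') * Q := Nat.le_of_mul_le_mul_left h6 hqD
  rw [hcard, pow_two] at h7
  have hQ0 : 0 < Q := pow_pos hℓ.pos e
  have h8 : Q ≤ C + C' := Nat.le_of_mul_le_mul_right h7 hQ0
  have h9 : C + C' + 1 ≤ e := by
    have : 1 ≤ r * r' := Nat.mul_pos hr hr'
    calc C + C' + 1 = 1 * (C + C' + 1) := (one_mul _).symm
      _ ≤ r * r' * (C + C' + 1) := Nat.mul_le_mul_right _ this
  have h10 : e < Q := Nat.lt_pow_self hℓ.one_lt
  omega

end Pool.Agent.Lib.MP_305fdd_al.LW
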