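import Pool.Agent.Lib.MP_305fdd_al.LW.Count

/-!
# MP_305fdd_al (LW): the number of points of a plane curve with a split fibre, given the cover data
-/

set_option autoImplicit false

namespace Pool.Agent.Lib.MP_305fdd_al.LW

open Polynomial

/-- the statement of piece C -/
def CoverStatement : Prop := ∀ (d w : ℕ) (_ : 0 < d) (E : Type) [Field E] [Finite E] (g : E[X][X])
    (_ : g.Monic) (_ : g.natDegree = d) (_ : ∀ j, (g.coeff j).natDegree ≤ w)
    (_ : (g.map (evalRingHom 0)).Splits) (_ : (g.map (evalRingHom 0)).Separable),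
    ∃ e : ℕ, 0 < e ∧ e ≤ d.factorial ∧
      Nonempty (CData E (AlgebraicClosure E) (algebraMap E (AlgebraicClosure E)) g e
        (w * d.factorial) (w * d ^ 2))

theorem curve_bound_of (HC : CoverStatement) (d w : ℕ) (hd : 0 < d) :
    ∃ C : ℕ, ∀ (E : Type) [Field E] [Finite E] (Q : ℕ),
    Nat.card E = Q ^ 2 → ∀ g : E[X][X], g.Monic → g.natDegree = d →
    (∀ j, (g.coeff j).natDegree ≤ w) → (g.map (evalRingHom 0)).Splits →
    (g.map (evalRingHom 0)).Separable →
    Nat.card E ≤ Nat.card {p : E × E // (g.map (evalRingHom p.1)).eval p.2 = 0} + C * Q := by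
  let D := d.factorial
  let κ := w * D
  let c := w * d ^ 2
  refine ⟨D * c + D * (2 * κ * D + 1 + D * D * ((κ + 1) * (κ + 2))), ?_⟩
  intro E _ _ Q hQ g hg hdeg hw hs hsep
  obtain ⟨e, he, heD, ⟨data⟩⟩ := HC d w hd E g hg hdeg hw hs hsep
  refine (data.card_points he hQ).trans ?_
  have h1 : e * (w * d ^ 2) + e * (2 * (w * d.factorial) * e + 1 +
      e * e * ((w * d.factorial + 1) * (w * d.factorial + 2))) ≤
      D * c + D * (2 * κ * D + 1 + D * D * ((κ + 1) * (κ + 2))) := by
    have : e ≤ D := heD
    gcongr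
  exact Nat.add_le_add_left (Nat.mul_le_mul_right _ h1) _

/-- from lines through a split point to hypersurfaces -/
theorem hyper_bound_of (HC : CoverStatement) (d w : ℕ) (hd : 0 < d) :
    ∃ C : ℕ, ∀ (E : Type) [Field E] [Finite E] (Q : ℕ),
    Nat.card E = Q ^ 2 → ∀ (m : ℕ) (f : (MvPolynomial (Fin m) E)[X]), f.Monic → f.natDegree = d →
    (∀ j, (f.coeff j).totalDegree ≤ w) →
    (∃ a : Fin m → E, (f.map (MvPolynomial.eval a)).Splits ∧
      (f.map (MvPolynomial.eval a)).Separable) →
    Nat.card E ^ (m + 1) ≤
      Nat.card E * Nat.card {p : (Fin m → E) × E // (f.map (MvPolynomial.eval p.1)).eval p.2 = 0} +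
      C * Q * Nat.card E ^ m := by
  classical
  obtain ⟨C₀, hC⟩ := curve_bound_of HC d w hd
  refine ⟨C₀ + d, ?_⟩
  intro E _ _ Q hQ m f hf hdeg hw ⟨a, hs, hsep⟩
  have := Fintype.ofFinite E
  -- the number of points over `x`
  let W : (Fin m → E) → ℕ := fun x =>
    (Finset.univ.filter fun y : E => (f.map (MvPolynomial.eval x)).eval y = 0).card
  have hWd : ∀ x, W x ≤ d := by
    intro x
    have h1 : (f.map (MvPolynomial.eval x)).Monic := hf.map _
    have h2 : (Finset.univ.filter fun y : E => (f.map (MvPolynomial.eval x)).eval y = 0) ⊆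
        (f.map (MvPolynomial.eval x)).roots.toFinset := by
      intro y hy
      rw [Finset.mem_filter] at hy
      rw [Multiset.mem_toFinset, mem_roots h1.ne_zero]
      exact hy.2
    calc W x ≤ (f.map (MvPolynomial.eval x)).roots.toFinset.card := Finset.card_le_card h2
      _ ≤ Multiset.card (f.map (MvPolynomial.eval x)).roots := Multiset.toFinset_card_le _
      _ ≤ (f.map (MvPolynomial.eval x)).natDegree := card_roots' _
      _ = d := by rw [hf.natDegree_map, hdeg]
  have hcount : Nat.card {p : (Fin m → E) × E // (f.map (MvPolynomial.eval p.1)).eval p.2 = 0} =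
      ∑ x, W x := by
    rw [Nat.card_eq_fintype_card, Fintype.card_subtype, ← Finset.univ_product_univ,
      Finset.card_filter, Finset.sum_product]
    refine Finset.sum_congr rfl fun x _ => ?_
    rw [← Finset.card_filter]
  -- the line through `a` with direction `v`
  let L : (Fin m → E) → (MvPolynomial (Fin m) E →+* E[X]) := fun v =>
    (MvPolynomial.aeval fun j => C (a j) + C (v j) * X : MvPolynomial (Fin m) E →ₐ[E] E[X])
  have hLeval : ∀ v (t : E), (evalRingHom t).comp (L v) =
      (MvPolynomial.eval (a + t • v) : MvPolynomial (Fin m) E →+* E) := by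
    intro v t
    apply MvPolynomial.ringHom_ext
    · intro r
      simp [L]
    · intro j
      simp only [L, RingHom.comp_apply, RingHom.coe_coe, MvPolynomial.aeval_X, coe_evalRingHom,
        eval_add, eval_mul, eval_C, eval_X, MvPolynomial.eval_X, Pi.add_apply, Pi.smul_apply,
        smul_eq_mul]
      rw [mul_comm]
  have hLdeg : ∀ v (p : MvPolynomial (Fin m) E), (L v p).natDegree ≤ p.totalDegree := by
    intro v p
    have h1 : L v p = ∑ s ∈ p.support, C (p.coeff s) * ∏ j, (C (a j) + C (v j) * X) ^ s j := by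
      change MvPolynomial.aeval _ p = _
      rw [MvPolynomial.aeval_def, MvPolynomial.eval₂_eq']
      rfl
    rw [h1]
    apply natDegree_sum_le_of_forall_le
    intro s hs
    refine (natDegree_C_mul_le _ _).trans ?_
    refine (natDegree_prod_le _ _).trans ?_
    refine le_trans ?_ (MvPolynomial.le_totalDegree hs)
    rw [Finsupp.sum_fintype _ _ (fun _ => rfl)]
    refine Finset.sum_le_sum fun j _ => ?_
    refine natDegree_pow_le.trans ?_
    have h2 : (C (a j) + C (v j) * X : E[X]).natDegree ≤ 1 := by
      rw [add_comm]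
      exact natDegree_linear_le
    calc s j * (C (a j) + C (v j) * X : E[X]).natDegree ≤ s j * 1 := Nat.mul_le_mul_left _ h2
      _ = s j := mul_one _
  have hline : ∀ v, Nat.card E ≤ ∑ t : E, W (a + t • v) + C₀ * Q := by
    intro v
    have h0 : (f.map (L v)).map (evalRingHom 0) = f.map (MvPolynomial.eval a) := by
      rw [map_map, hLeval, zero_smul, add_zero]
    have h1 := hC E Q hQ (f.map (L v)) (hf.map _) (by rw [hf.natDegree_map, hdeg])
      (fun j => by rw [coeff_map]; exact (hLdeg v _).trans (hw j)) (by rw [h0]; exact hs)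
      (by rw [h0]; exact hsep)
    have h2 : Nat.card {p : E × E // ((f.map (L v)).map (evalRingHom p.1)).eval p.2 = 0} =
        ∑ t : E, W (a + t • v) := by
      rw [Nat.card_eq_fintype_card, Fintype.card_subtype, ← Finset.univ_product_univ,
        Finset.card_filter, Finset.sum_product]
      refine Finset.sum_congr rfl fun t _ => ?_
      rw [← Finset.card_filter]
      simp only [map_map, hLeval]
      rfl
    rw [h2] at h1
    exact h1
  -- sum over all directions
  have hsum : ∑ v : Fin m → E, ∑ t : E, W (a + t • v) ≤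
      Nat.card E * ∑ x, W x + d * Nat.card E ^ m := by
    rw [Finset.sum_comm, ← Finset.add_sum_erase Finset.univ _ (Finset.mem_univ (0 : E)), add_comm]
    apply add_le_add
    · calc ∑ t ∈ Finset.univ.erase (0 : E), ∑ v, W (a + t • v)
          = ∑ t ∈ Finset.univ.erase (0 : E), ∑ x, W x := by
            refine Finset.sum_congr rfl fun t ht => ?_
            have ht0 : t ≠ 0 := Finset.ne_of_mem_erase ht
            refine Fintype.sum_equiv ((MulAction.toPerm (Units.mk0 t ht0)).trans
              (Equiv.addLeft a)) _ _ ?_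
            intro v
            rfl
        _ ≤ ∑ t : E, ∑ x, W x := Finset.sum_le_sum_of_subset (Finset.erase_subset _ _)
        _ = Nat.card E * ∑ x, W x := by
            rw [Finset.sum_const, Finset.card_univ, Nat.card_eq_fintype_card, smul_eq_mul]
    · calc ∑ v : Fin m → E, W (a + (0 : E) • v) ≤ ∑ v : Fin m → E, d :=
            Finset.sum_le_sum fun v _ => hWd _
        _ = d * Nat.card E ^ m := by
            rw [Finset.sum_const, Finset.card_univ, smul_eq_mul, Fintype.card_fun,
              Fintype.card_fin, Nat.card_eq_fintype_card, mul_comm]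
  have htot : Nat.card E ^ m * Nat.card E ≤
      (∑ v : Fin m → E, ∑ t : E, W (a + t • v)) + Nat.card E ^ m * (C₀ * Q) := by
    have h1 : Nat.card E ^ m = Fintype.card (Fin m → E) := by
      rw [Fintype.card_fun, Fintype.card_fin, Nat.card_eq_fintype_card]
    rw [h1, ← Finset.card_univ, ← smul_eq_mul, ← smul_eq_mul, ← Finset.sum_const,
      ← Finset.sum_const, ← Finset.sum_add_distrib]
    exact Finset.sum_le_sum fun v _ => hline v
  rw [hcount, pow_succ]
  have hQ0 : 1 ≤ Q := by
    rcases Nat.eq_zero_or_pos Q with h | h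
    · rw [h] at hQ
      have := Nat.card_pos (α := E)
      omega
    · exact h
  calc Nat.card E ^ m * Nat.card E
      ≤ (Nat.card E * ∑ x, W x + d * Nat.card E ^ m) + Nat.card E ^ m * (C₀ * Q) :=
        htot.trans (Nat.add_le_add_right hsum _)
    _ = Nat.card E * ∑ x, W x + (C₀ * Q * Nat.card E ^ m + d * 1 * Nat.card E ^ m) := by ring
    _ ≤ Nat.card E * ∑ x, W x + (C₀ * Q * Nat.card E ^ m + d * Q * Nat.card E ^ m) := by gcongr
    _ = _ := by ring

end Pool.Agent.Lib.MP_305fdd_al.LW
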