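import Pool.Agent.Lib.MP_305fdd_al.LW.Defs

/-!
# MP_305fdd_al (LW): Stepanov's method, the core estimate
-/

set_option autoImplicit false

namespace Pool.Agent.Lib.MP_305fdd_al.LW

open Polynomial

namespace CData

variable {E k : Type} [Field E] [Field k] {i : E →+* k} {g : E[X][X]} {e κ c : ℕ}
  (D : CData E k i g e κ c)

/-- evaluation at the geometric point over `t₀` -/
noncomputable def ev (t₀ : D.T) : D.B →+* k := PowerSeries.constantCoeff.comp (D.ι t₀)

theorem ev_apply (t₀ : D.T) (b : D.B) : D.ev t₀ b = PowerSeries.constantCoeff (D.ι t₀ b) := rfl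

theorem ι₀_aeval (N : E[X]) : D.ι₀ (aeval D.t N) = (N : PowerSeries E) := by
  have : D.ι₀.comp (aeval D.t : E[X] →ₐ[E] D.B).toRingHom = Polynomial.coeToPowerSeries.ringHom := by
    apply Polynomial.ringHom_ext
    · intro a
      simp [D.ι₀_const]
    · simp [D.ι₀_t]
  exact DFunLike.congr_fun this N

theorem ι_aeval (t₀ : D.T) (N : E[X]) : D.ι t₀ (aeval D.t N) =
    (((N.map i).comp (X + C (i t₀)) : k[X]) : PowerSeries k) := by
  have : (D.ι t₀).comp (aeval D.t : E[X] →ₐ[E] D.B).toRingHom =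
      (Polynomial.coeToPowerSeries.ringHom).comp
        ((Polynomial.compRingHom (X + C (i t₀))).comp (Polynomial.mapRingHom i)) := by
    apply Polynomial.ringHom_ext
    · intro a
      simp [D.ι_const]
    · simp [D.ι_t, add_comm]
  exact DFunLike.congr_fun this N

theorem smul_ne_zero' {b : D.B} (hb : b ≠ 0) (τ : D.G) : τ • b ≠ 0 := by
  intro h
  apply hb
  have := congrArg (fun x => τ⁻¹ • x) h
  simpa using this

theorem norm_ne_zero {b : D.B} (hb : b ≠ 0) : ∏ τ : D.G, τ • b ≠ 0 :=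
  Finset.prod_ne_zero_iff.2 fun τ _ => D.smul_ne_zero' hb τ

theorem order_le_of_mem {l : ℕ} {b : D.B} (hb : b ∈ D.F l) (hb0 : b ≠ 0) :
    (D.ι₀ b).order ≤ (e * l : ℕ) := by
  classical
  obtain ⟨N, hN, hN'⟩ := D.norm_mem hb
  have hN0 : N ≠ 0 := by
    rintro rfl
    rw [map_zero] at hN'
    exact D.norm_ne_zero hb0 hN'
  have h1 : (D.ι₀ b).order ≤ (D.ι₀ (∏ τ : D.G, τ • b)).order := by
    rw [← Finset.mul_prod_erase Finset.univ (fun τ : D.G => τ • b) (Finset.mem_univ 1), one_smul,
      map_mul, PowerSeries.order_mul]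
    exact le_self_add
  refine h1.trans ?_
  rw [hN', ι₀_aeval]
  have h2 : (N : PowerSeries E).order ≤ N.natDegree := by
    apply PowerSeries.order_le
    rw [Polynomial.coeff_coe]
    exact Polynomial.leadingCoeff_ne_zero.2 hN0
  exact h2.trans (by exact_mod_cast hN)

/-- the orders at the rational point of the functions with poles of order at most `l` -/
noncomputable def jumps (l : ℕ) : Finset ℕ :=
  open Classical in
  (Finset.range (e * l + 1)).filter fun s => ∃ f ∈ D.F l, (D.ι₀ f).order = s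

theorem mem_jumps {l s : ℕ} : s ∈ D.jumps l ↔ ∃ f ∈ D.F l, (D.ι₀ f).order = s := by
  classical
  rw [jumps, Finset.mem_filter, Finset.mem_range]
  constructor
  · exact fun h => h.2
  · rintro ⟨f, hf, hs⟩
    refine ⟨?_, f, hf, hs⟩
    have hf0 : f ≠ 0 := by
      rintro rfl
      rw [map_zero, PowerSeries.order_zero] at hs
      exact absurd hs (by simp)
    have := D.order_le_of_mem hf hf0
    rw [hs] at this
    have h2 : s ≤ e * l := by exact_mod_cast this
    omega

theorem lt_of_mem_jumps {l s : ℕ} (h : s ∈ D.jumps l) : s < e * l + 1 := by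
  classical
  rw [jumps, Finset.mem_filter, Finset.mem_range] at h
  exact h.1

/-- the coefficients at the jumps -/
noncomputable def jumpMap (l : ℕ) : D.F l →ₗ[E] (D.jumps l → E) where
  toFun b s := PowerSeries.coeff s (D.ι₀ b)
  map_add' x y := by
    ext s
    simp
  map_smul' a x := by
    ext s
    rw [Submodule.coe_smul, Algebra.smul_def, map_mul, D.ι₀_const, PowerSeries.coeff_C_mul]
    simp

theorem jumpMap_injective (l : ℕ) : Function.Injective (D.jumpMap l) := by
  rw [← LinearMap.ker_eq_bot, LinearMap.ker_eq_bot']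
  intro b hb
  by_contra hne
  have hb0 : (b : D.B) ≠ 0 := fun h => hne (Subtype.ext h)
  have hι : D.ι₀ b ≠ 0 := fun h => hb0 (D.ι₀_inj (by rw [h, map_zero]))
  have hfin : (D.ι₀ b).order < ⊤ := PowerSeries.order_finite_iff_ne_zero.2 hι
  obtain ⟨s, hs⟩ := ENat.ne_top_iff_exists.1 hfin.ne
  have hmem : s ∈ D.jumps l := D.mem_jumps.2 ⟨b, b.2, hs.symm⟩
  have h1 : PowerSeries.coeff s (D.ι₀ b) = 0 := congrFun hb ⟨s, hmem⟩
  have h2 := (PowerSeries.order_eq_nat.1 hs.symm).1
  exact h2 h1

instance finite_F (l : ℕ) : Module.Finite E (D.F l) :=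
  Module.Finite.of_injective (D.jumpMap l) (D.jumpMap_injective l)

theorem finrank_le_jumps (l : ℕ) : Module.finrank E (D.F l) ≤ (D.jumps l).card := by
  have := LinearMap.finrank_le_finrank_of_injective (D.jumpMap_injective l)
  simpa using this

theorem card_jumps_le (l : ℕ) : (D.jumps l).card ≤ e * l + 1 := by
  classical
  rw [jumps]
  exact (Finset.card_filter_le _ _).trans (by rw [Finset.card_range])

theorem le_finrank (l : ℕ) : e * (l + 1 - κ) ≤ Module.finrank E (D.F l) := by
  obtain ⟨v, hv, hvF⟩ := D.dim l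
  have : LinearIndependent E (fun j => (⟨v j, hvF j⟩ : D.F l)) := by
    apply LinearIndependent.of_comp (D.F l).subtype
    exact hv
  have := this.fintype_card_le_finrank
  simpa using this

theorem pow_mem {l : ℕ} {x : D.B} (hx : x ∈ D.F l) (n : ℕ) : x ^ (n + 1) ∈ D.F ((n + 1) * l) := by
  induction n with
  | zero => simpa using hx
  | succ n ih =>
    rw [pow_succ, Nat.succ_mul]
    exact D.mul_mem ih hx

/-- the linear algebra step: a non-trivial relation `∑ f_s ^ Q * a_s = 0` -/
theorem exists_relation {l m Q : ℕ} (hQ : 0 < Q) (f : D.jumps l → D.B)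
    (hf : ∀ s, f s ∈ D.F l)
    (hlt : e * (Q * l + m) + 1 < e * (l + 1 - κ) * (e * (m + 1 - κ))) :
    ∃ a : D.jumps l → D.B, (∀ s, a s ∈ D.F m) ∧ (∃ s, a s ≠ 0) ∧ ∑ s, f s ^ Q * a s = 0 := by
  classical
  have hmem : ∀ a : D.jumps l → D.F m, ∑ s, f s ^ Q * (a s : D.B) ∈ D.F (Q * l + m) := by
    intro a
    refine Submodule.sum_mem _ fun s _ => ?_
    obtain ⟨q, rfl⟩ : ∃ q, Q = q + 1 := ⟨Q - 1, by omega⟩
    exact D.mul_mem (D.pow_mem (hf s) q) (a s).2
  let Φ : (D.jumps l → D.F m) →ₗ[E] D.F (Q * l + m) :=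
    { toFun := fun a => ⟨∑ s, f s ^ Q * (a s : D.B), hmem a⟩
      map_add' := fun a b => by
        apply Subtype.ext
        simp only [Pi.add_apply, Submodule.coe_add, mul_add, Finset.sum_add_distrib]
      map_smul' := fun r a => by
        apply Subtype.ext
        simp only [Pi.smul_apply, Submodule.coe_smul, RingHom.id_apply, Finset.smul_sum,
          mul_smul_comm] }
  have hlt' : Module.finrank E (D.F (Q * l + m)) < Module.finrank E (D.jumps l → D.F m) := by
    rw [Module.finrank_pi_fintype, Finset.sum_const, Finset.card_univ, Fintype.card_coe,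
      smul_eq_mul]
    calc Module.finrank E (D.F (Q * l + m)) ≤ (D.jumps (Q * l + m)).card := D.finrank_le_jumps _
      _ ≤ e * (Q * l + m) + 1 := D.card_jumps_le _
      _ < e * (l + 1 - κ) * (e * (m + 1 - κ)) := hlt
      _ ≤ (D.jumps l).card * Module.finrank E (D.F m) :=
        Nat.mul_le_mul ((D.le_finrank l).trans (D.finrank_le_jumps l)) (D.le_finrank m)
  have hker : LinearMap.ker Φ ≠ ⊥ := LinearMap.ker_ne_bot_of_finrank_lt hlt'
  obtain ⟨a, ha, ha0⟩ := (Submodule.ne_bot_iff _).1 hker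
  refine ⟨fun s => a s, fun s => (a s).2, ?_, ?_⟩
  · by_contra hcon
    push Not at hcon
    apply ha0
    funext s
    exact Subtype.ext (hcon s)
  · have := congrArg Subtype.val (LinearMap.mem_ker.1 ha)
    exact this

/-- sums of functions with distinct orders modulo `Q` do not vanish -/
theorem sum_ne_zero {l Q : ℕ} (hQ : e * l < Q) (f : D.jumps l → D.B)
    (hf : ∀ s, (D.ι₀ (f s)).order = (s : ℕ)) (b : D.jumps l → D.B) (hb : ∃ s, b s ≠ 0) :
    ∑ s, f s * b s ^ Q ≠ 0 := by
  classical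
  intro hsum
  -- the orders of the non-zero terms
  have hord : ∀ s, b s ≠ 0 → ∃ o : ℕ, (D.ι₀ (b s)).order = o := by
    intro s hs
    have hι : D.ι₀ (b s) ≠ 0 := fun h => hs (D.ι₀_inj (by rw [h, map_zero]))
    obtain ⟨o, ho⟩ := ENat.ne_top_iff_exists.1 (PowerSeries.order_finite_iff_ne_zero.2 hι).ne
    exact ⟨o, ho.symm⟩
  choose! o ho using hord
  let v : D.jumps l → ℕ := fun s => s + Q * o s
  have hv : ∀ s, b s ≠ 0 → (D.ι₀ (f s * b s ^ Q)).order = (v s : ℕ) := by
    intro s hs
    rw [map_mul, map_pow, PowerSeries.order_mul, PowerSeries.order_pow, hf, ho s hs]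
    simp [v]
  obtain ⟨s₁, hs₁⟩ := hb
  obtain ⟨s₀, hs₀, hmin⟩ := Finset.exists_min_image (Finset.univ.filter fun s => b s ≠ 0) v
    ⟨s₁, by simpa using hs₁⟩
  have hs₀' : b s₀ ≠ 0 := by simpa using hs₀
  have hlt : ∀ s : D.jumps l, (s : ℕ) < Q := by
    intro s
    have := D.lt_of_mem_jumps s.2
    omega
  -- look at the coefficient of order `v s₀`
  have h1 : PowerSeries.coeff (v s₀) (D.ι₀ (∑ s, f s * b s ^ Q)) = 0 := by
    rw [hsum, map_zero, map_zero]
  rw [map_sum, map_sum, Finset.sum_eq_single s₀] at h1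
  · exact (PowerSeries.order_eq_nat.1 (hv s₀ hs₀')).1 h1
  · intro s _ hs
    by_cases hbs : b s = 0
    · rw [hbs, zero_pow (by omega), mul_zero, map_zero, map_zero]
    · have h2 : v s₀ ≤ v s := hmin s (by simpa using hbs)
      have h3 : v s₀ ≠ v s := by
        intro h4
        apply hs
        have h5 : (s : ℕ) % Q = (s₀ : ℕ) % Q := by
          have h6 : v s % Q = (s : ℕ) % Q := by simp [v]
          have h7 : v s₀ % Q = (s₀ : ℕ) % Q := by simp [v]
          rw [← h6, ← h7, h4]
        rw [Nat.mod_eq_of_lt (hlt s), Nat.mod_eq_of_lt (hlt s₀)] at h5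
        exact Subtype.ext h5
      exact (PowerSeries.order_eq_nat.1 (hv s hbs)).2 _ (lt_of_le_of_ne h2 h3)
  · intro h
    exact absurd (Finset.mem_univ _) h

/-- counting zeros with the norm -/
theorem card_zeros_le [Finite E] {r : ℕ} {h : D.B} (hr : h ∈ D.F r) (h0 : h ≠ 0) :
    Nat.card {p : D.T × D.G // D.ev p.1 (p.2 • h) = 0} ≤ e * r := by
  classical
  obtain ⟨N, hN, hN'⟩ := D.norm_mem hr
  have hN0 : N ≠ 0 := by
    rintro rfl
    rw [map_zero] at hN'
    exact D.norm_ne_zero h0 hN'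
  have := Fintype.ofFinite D.T
  -- the local estimate
  have hloc : ∀ t₀ : D.T, (Finset.univ.filter fun τ : D.G => D.ev t₀ (τ • h) = 0).card ≤
      rootMultiplicity (t₀ : E) N := by
    intro t₀
    set m₀ := (Finset.univ.filter fun τ : D.G => D.ev t₀ (τ • h) = 0).card with hm₀
    have h1 : (PowerSeries.X : PowerSeries k) ^ m₀ ∣ D.ι t₀ (∏ τ : D.G, τ • h) := by
      rw [map_prod, hm₀, ← Finset.prod_const]
      rw [← Finset.prod_filter_mul_prod_filter_not Finset.univ
        (fun τ : D.G => D.ev t₀ (τ • h) = 0)]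
      refine Dvd.dvd.mul_right ?_ _
      apply Finset.prod_dvd_prod_of_dvd
      intro τ hτ
      rw [Finset.mem_filter] at hτ
      exact PowerSeries.X_dvd_iff.2 hτ.2
    rw [hN', ι_aeval, PowerSeries.X_pow_dvd_iff] at h1
    have h2 : (X : k[X]) ^ m₀ ∣ (N.map i).comp (X + C (i t₀)) := by
      rw [Polynomial.X_pow_dvd_iff]
      intro d hd
      have := h1 d hd
      rwa [Polynomial.coeff_coe] at this
    have h3 : rootMultiplicity (t₀ : E) N = rootMultiplicity 0 ((N.map i).comp (X + C (i t₀))) := by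
      rw [← Polynomial.rootMultiplicity_eq_rootMultiplicity, Polynomial.eq_rootMultiplicity_map
        i.injective]
    rw [h3, Polynomial.le_rootMultiplicity_iff, C_0, sub_zero]
    · exact h2
    · intro h4
      have h5 : N.map i = 0 := by
        have h6 := congrArg (fun p : k[X] => p.comp (X - C (i t₀))) h4
        simpa [Polynomial.comp_assoc] using h6
      exact hN0 ((Polynomial.map_eq_zero_iff i.injective).1 h5)
  have hcount : Nat.card {p : D.T × D.G // D.ev p.1 (p.2 • h) = 0} =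
      ∑ t₀ : D.T, (Finset.univ.filter fun τ : D.G => D.ev t₀ (τ • h) = 0).card := by
    rw [Nat.card_eq_fintype_card, Fintype.card_subtype]
    rw [← Finset.univ_product_univ, Finset.card_filter, Finset.sum_product]
    refine Finset.sum_congr rfl fun t₀ _ => ?_
    rw [Finset.card_filter]
  rw [hcount]
  refine (Finset.sum_le_sum fun t₀ _ => hloc t₀).trans ?_
  have h7 : ∑ t₀ : D.T, rootMultiplicity (t₀ : E) N ≤ Multiset.card N.roots := by
    have h8 : ∑ t₀ : D.T, rootMultiplicity (t₀ : E) N =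
        ∑ t₀ ∈ Finset.univ.map ⟨((↑) : D.T → E), Subtype.val_injective⟩,
          N.roots.count t₀ := by
      rw [Finset.sum_map]
      refine Finset.sum_congr rfl fun t₀ _ => ?_
      rw [Polynomial.count_roots]
      rfl
    rw [h8]
    calc ∑ t₀ ∈ Finset.univ.map ⟨((↑) : D.T → E), Subtype.val_injective⟩, N.roots.count t₀
        ≤ ∑ t₀ ∈ (Finset.univ.map ⟨((↑) : D.T → E), Subtype.val_injective⟩) ∪ N.roots.toFinset,
          N.roots.count t₀ := Finset.sum_le_sum_of_subset Finset.subset_union_left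
      _ = Multiset.card N.roots := by
        rw [Multiset.sum_count_eq_card]
        intro a ha
        exact Finset.mem_union_right _ (Multiset.mem_toFinset.2 ha)
  exact h7.trans ((Polynomial.card_roots' N).trans hN)

/-- The pairs (good point, element of the group) with Frobenius element `σ`. -/
def FrobSet (q : ℕ) (σ : D.G) : Set (D.T × D.G) :=
  {p | ∀ b : D.B, D.ev p.1 (p.2 • σ • b) = D.ev p.1 (p.2 • b) ^ q}

/-- **Stepanov's estimate**, with parameters. -/
theorem frobSet_le_aux [Finite E] {Q : ℕ} (hQ : Nat.card E = Q ^ 2) {l m : ℕ}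
    (hl : e * l < Q)
    (hlt : e * (Q * l + m) + 1 < e * (l + 1 - κ) * (e * (m + 1 - κ))) (σ : D.G) :
    (D.FrobSet (Nat.card E) σ).ncard ≤ e * (l + Q * m) := by
  classical
  have hQ0 : 0 < Q := by omega
  have hch : ∀ s : D.jumps l, ∃ f ∈ D.F l, (D.ι₀ f).order = (s : ℕ) := fun s =>
    D.mem_jumps.1 s.2
  choose f hfF hfo using hch
  obtain ⟨a, haF, ha0, hrel⟩ := D.exists_relation hQ0 f hfF hlt
  let h : D.B := ∑ s, f s * (σ⁻¹ • a s) ^ Q
  have hhF : h ∈ D.F (l + Q * m) := by
    refine Submodule.sum_mem _ fun s _ => D.mul_mem (hfF s) ?_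
    obtain ⟨q, rfl⟩ : ∃ q, Q = q + 1 := ⟨Q - 1, by omega⟩
    exact D.pow_mem (D.smul_mem _ (haF s)) q
  have hh0 : h ≠ 0 := by
    apply D.sum_ne_zero hl f hfo
    obtain ⟨s, hs⟩ := ha0
    exact ⟨s, D.smul_ne_zero' hs _⟩
  -- characteristic
  obtain ⟨p, hp⟩ := CharP.exists E
  have hpr : p.Prime := by
    rcases CharP.char_is_prime_or_zero E p with h1 | h1
    · exact h1
    · subst h1
      have := CharP.charP_to_charZero E
      exact absurd (inferInstance : Infinite E) (not_infinite_iff_finite.2 inferInstance)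
  have hfact : Fact p.Prime := ⟨hpr⟩
  obtain ⟨j, hj⟩ : ∃ j : ℕ, Q = p ^ j := by
    have := Fintype.ofFinite E
    obtain ⟨n, _, hn⟩ := FiniteField.card E p
    rw [← Nat.card_eq_fintype_card, hQ] at hn
    have h1 : Q ∣ p ^ (n : ℕ) := ⟨Q, by rw [← hn, pow_two]⟩
    obtain ⟨j, _, hj⟩ := (Nat.dvd_prime_pow hpr).1 h1
    exact ⟨j, hj⟩
  have hpk : CharP k p := (RingHom.charP_iff_charP i p).1 hp
  have hsub : D.FrobSet (Nat.card E) σ ⊆ {p | D.ev p.1 (p.2 • h) = 0} := by
    rintro ⟨t₀, τ⟩ hp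
    let ψ : D.B →+* k := (D.ev t₀).comp (MulSemiringAction.toRingHom D.G D.B τ)
    have hψ : ∀ b, ψ b = D.ev t₀ (τ • b) := fun b => rfl
    have hψσ : ∀ b, ψ (σ • b) = ψ b ^ (Nat.card E) := hp
    change ψ h = 0
    have h2 : ψ h ^ Q = 0 := by
      have h3 : ψ h ^ Q = ∑ s, ψ (f s) ^ Q * ψ (a s) := by
        rw [hj, map_sum, sum_pow_char_pow]
        refine Finset.sum_congr rfl fun s _ => ?_
        rw [← hj, map_mul, map_pow, mul_pow, ← pow_mul, ← pow_two, ← hQ, ← hψσ, smul_inv_smul]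
      rw [h3]
      have h4 := congrArg ψ hrel
      rw [map_sum, map_zero] at h4
      rw [← h4]
      refine Finset.sum_congr rfl fun s _ => ?_
      rw [map_mul, map_pow]
    exact pow_eq_zero_iff (by omega) |>.1 h2
  calc (D.FrobSet (Nat.card E) σ).ncard
      ≤ ({p | D.ev p.1 (p.2 • h) = 0} : Set (D.T × D.G)).ncard :=
        Set.ncard_le_ncard hsub (Set.toFinite _)
    _ = Nat.card {p : D.T × D.G // D.ev p.1 (p.2 • h) = 0} := rfl
    _ ≤ e * (l + Q * m) := D.card_zeros_le hhF hh0

end CData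

end Pool.Agent.Lib.MP_305fdd_al.LW
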