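import Pool.Agent.Lib.MP_305fdd_al.LW.Core

/-!
# MP_305fdd_al (LW): counting points on a Galois cover of the line
-/

set_option autoImplicit false

namespace Pool.Agent.Lib.MP_305fdd_al.LW

open Polynomial

theorem params (e κ Q : ℕ) (he : 0 < e) (hQ : e * ((κ + 1) * (κ + 2)) ≤ Q) :
    ∃ l m : ℕ, e * l < Q ∧ e * (Q * l + m) + 1 < e * (l + 1 - κ) * (e * (m + 1 - κ)) ∧
      e * (l + Q * m) ≤ Q ^ 2 + (2 * κ * e + 1) * Q := by
  obtain ⟨a, ha⟩ : ∃ a, a = Q / e := ⟨_, rfl⟩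
  have h1 : e * a ≤ Q := by rw [ha]; exact Nat.mul_div_le Q e
  have h2 : Q < e * (a + 1) := by
    rw [ha]
    have := Nat.lt_div_mul_add (a := Q) he
    rw [mul_add, mul_one, mul_comm]
    exact this
  have h3 : (κ + 1) * (κ + 2) ≤ a := by
    rw [ha, Nat.le_div_iff_mul_le he, mul_comm]
    exact hQ
  have ha1 : 1 ≤ a := by nlinarith
  have hκa : κ ≤ a := by nlinarith
  refine ⟨a - 1, a + 2 * κ, ?_, ?_, ?_⟩
  · have : e * (a - 1) < e * a := Nat.mul_lt_mul_of_pos_left (by omega) he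
    omega
  · obtain ⟨b, rfl⟩ : ∃ b, a = (κ + 1) * (κ + 2) + b := ⟨a - (κ + 1) * (κ + 2), by omega⟩
    have e1 : (κ + 1) * (κ + 2) + b - 1 + 1 - κ = κ * κ + 2 * κ + 2 + b := by
      have : (κ + 1) * (κ + 2) = κ * κ + 3 * κ + 2 := by ring
      omega
    have e2 : (κ + 1) * (κ + 2) + b + 2 * κ + 1 - κ = κ * κ + 4 * κ + 3 + b := by
      have : (κ + 1) * (κ + 2) = κ * κ + 3 * κ + 2 := by ring
      omega
    have e3 : (κ + 1) * (κ + 2) + b - 1 = κ * κ + 3 * κ + 1 + b := by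
      have : (κ + 1) * (κ + 2) = κ * κ + 3 * κ + 2 := by ring
      omega
    rw [e1, e2, e3]
    have h4 : Q + 1 ≤ e * ((κ + 1) * (κ + 2) + b + 1) := h2
    have h5 : Q * (κ * κ + 3 * κ + 1 + b) + (κ * κ + 3 * κ + 1 + b) ≤
        e * ((κ + 1) * (κ + 2) + b + 1) * (κ * κ + 3 * κ + 1 + b) := by
      calc Q * (κ * κ + 3 * κ + 1 + b) + (κ * κ + 3 * κ + 1 + b)
          = (Q + 1) * (κ * κ + 3 * κ + 1 + b) := by ring
        _ ≤ _ := Nat.mul_le_mul_right _ h4
    have h6 : e * (Q * (κ * κ + 3 * κ + 1 + b) + ((κ + 1) * (κ + 2) + b + 2 * κ)) + 1 ≤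
        e * (e * ((κ + 1) * (κ + 2) + b + 1) * (κ * κ + 3 * κ + 1 + b) + (2 * κ + 1)) + 1 := by
      have : Q * (κ * κ + 3 * κ + 1 + b) + ((κ + 1) * (κ + 2) + b + 2 * κ) =
        (Q * (κ * κ + 3 * κ + 1 + b) + (κ * κ + 3 * κ + 1 + b)) + (2 * κ + 1) := by ring
      rw [this]
      gcongr
    refine lt_of_le_of_lt h6 ?_
    obtain ⟨e', rfl⟩ : ∃ e', e = e' + 1 := ⟨e - 1, by omega⟩
    have key : (e' + 1) * ((κ * κ + 2 * κ + 2 + b) * (e' + 1) * (κ * κ + 4 * κ + 3 + b)) =
        (e' + 1) * ((e' + 1) * ((κ + 1) * (κ + 2) + b + 1) * (κ * κ + 3 * κ + 1 + b)) +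
        (e' + 1) * ((e' + 1) * (2 * κ + 3 + b)) := by ring
    have key2 : (e' + 1) * (κ * κ + 2 * κ + 2 + b) * ((e' + 1) * (κ * κ + 4 * κ + 3 + b)) =
        (e' + 1) * ((κ * κ + 2 * κ + 2 + b) * (e' + 1) * (κ * κ + 4 * κ + 3 + b)) := by ring
    rw [key2, key]
    have : (e' + 1) * (2 * κ + 1) + 1 < (e' + 1) * ((e' + 1) * (2 * κ + 3 + b)) := by
      calc (e' + 1) * (2 * κ + 1) + 1 < (e' + 1) * (2 * κ + 3) := by
            have : (e' + 1) * (2 * κ + 3) = (e' + 1) * (2 * κ + 1) + 2 * e' + 2 := by ring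
            omega
        _ ≤ (e' + 1) * ((e' + 1) * (2 * κ + 3 + b)) := by
            apply Nat.mul_le_mul_left
            calc 2 * κ + 3 ≤ 1 * (2 * κ + 3 + b) := by omega
              _ ≤ (e' + 1) * (2 * κ + 3 + b) := Nat.mul_le_mul_right _ (by omega)
    rw [mul_add]
    omega
  · have h4 : e * (a - 1) ≤ Q := le_trans (Nat.mul_le_mul_left e (Nat.sub_le a 1)) h1
    calc e * (a - 1 + Q * (a + 2 * κ)) = e * (a - 1) + (e * a) * Q + 2 * κ * e * Q := by ring
      _ ≤ Q + Q * Q + 2 * κ * e * Q := by gcongr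
      _ = Q ^ 2 + (2 * κ * e + 1) * Q := by ring

namespace CData

variable {E k : Type} [Field E] [Field k] {i : E →+* k} {g : E[X][X]} {e κ c : ℕ}
  (D : CData E k i g e κ c)

theorem frobSet_le [Finite E] (he : 0 < e) {Q : ℕ} (hQ : Nat.card E = Q ^ 2) (σ : D.G) :
    (D.FrobSet (Nat.card E) σ).ncard ≤
      Q ^ 2 + (2 * κ * e + 1 + e * e * ((κ + 1) * (κ + 2))) * Q := by
  classical
  by_cases hbig : e * ((κ + 1) * (κ + 2)) ≤ Q
  · obtain ⟨l, m, h1, h2, h3⟩ := params e κ Q he hbig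
    refine (D.frobSet_le_aux hQ h1 h2 σ).trans (h3.trans ?_)
    exact Nat.add_le_add_left (Nat.mul_le_mul_right _ (Nat.le_add_right _ _)) _
  · push Not at hbig
    have h1 : (D.FrobSet (Nat.card E) σ).ncard ≤ Nat.card (D.T × D.G) := by
      rw [← Set.ncard_univ (D.T × D.G)]
      exact Set.ncard_le_ncard (Set.subset_univ _) (Set.toFinite _)
    have h2 : Nat.card (D.T × D.G) ≤ Q ^ 2 * e := by
      rw [Nat.card_prod, Nat.card_eq_fintype_card (α := D.G), D.card_G, ← hQ]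
      exact Nat.mul_le_mul_right _ (Nat.card_le_card_of_injective _ Subtype.val_injective)
    refine h1.trans (h2.trans ?_)
    calc Q ^ 2 * e = e * Q * Q := by ring
      _ ≤ e * (e * ((κ + 1) * (κ + 2))) * Q := by gcongr
      _ ≤ _ := by
        have : e * (e * ((κ + 1) * (κ + 2))) = e * e * ((κ + 1) * (κ + 2)) := by ring
        rw [this, add_mul (2 * κ * e + 1)]
        omega

theorem card_T_ge [Finite E] {Q : ℕ} (hQ : Nat.card E = Q ^ 2) : Q ^ 2 ≤ Nat.card D.T + c := by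
  have h1 := Set.ncard_add_ncard_compl D.T
  have h2 : D.T.ncard = Nat.card D.T := rfl
  have h3 := D.card_T
  rw [hQ, h2] at h1
  omega

/-- lower bound for every Frobenius class -/
theorem le_frobSet [Finite E] (he : 0 < e) {Q : ℕ} (hQ : Nat.card E = Q ^ 2) (σ : D.G) :
    Q ^ 2 ≤ (D.FrobSet (Nat.card E) σ).ncard + e * c +
      e * (2 * κ * e + 1 + e * e * ((κ + 1) * (κ + 2))) * Q := by
  classical
  have hcover : (Set.univ : Set (D.T × D.G)) ⊆ ⋃ σ' ∈ (Finset.univ : Finset D.G),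
      D.FrobSet (Nat.card E) σ' := by
    rintro ⟨t₀, τ⟩ _
    obtain ⟨σ', hσ'⟩ := D.frob t₀ τ
    exact Set.mem_iUnion₂.2 ⟨σ', Finset.mem_univ _, hσ'⟩
  have h1 : Nat.card (D.T × D.G) ≤ ∑ σ' : D.G, (D.FrobSet (Nat.card E) σ').ncard := by
    rw [← Set.ncard_univ]
    refine (Set.ncard_le_ncard hcover (Set.toFinite _)).trans ?_
    exact Finset.set_ncard_biUnion_le _ _
  rw [Nat.card_prod, Nat.card_eq_fintype_card (α := D.G), D.card_G] at h1
  rw [← Finset.add_sum_erase Finset.univ _ (Finset.mem_univ σ)] at h1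
  have h2 : ∑ σ' ∈ Finset.univ.erase σ, (D.FrobSet (Nat.card E) σ').ncard ≤
      (e - 1) * (Q ^ 2 + (2 * κ * e + 1 + e * e * ((κ + 1) * (κ + 2))) * Q) := by
    refine (Finset.sum_le_card_nsmul _ _ _ fun σ' _ => D.frobSet_le he hQ σ').trans ?_
    rw [Finset.card_erase_of_mem (Finset.mem_univ σ), Finset.card_univ, D.card_G, smul_eq_mul]
  have h3 := D.card_T_ge hQ
  obtain ⟨e', rfl⟩ : ∃ e', e = e' + 1 := ⟨e - 1, by omega⟩
  simp only [Nat.add_sub_cancel] at h2
  set Z := (2 * κ * (e' + 1) + 1 + (e' + 1) * (e' + 1) * ((κ + 1) * (κ + 2))) * Q with hZ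
  have h4 : Q ^ 2 * (e' + 1) ≤ (Nat.card D.T + c) * (e' + 1) := Nat.mul_le_mul_right _ h3
  have h5 : (e' + 1) * (2 * κ * (e' + 1) + 1 + (e' + 1) * (e' + 1) * ((κ + 1) * (κ + 2))) * Q =
      e' * Z + Z := by rw [hZ]; ring
  rw [h5]
  have h6 : e' * (Q ^ 2 + Z) = e' * Q ^ 2 + e' * Z := by ring
  have h7 : Q ^ 2 * (e' + 1) = e' * Q ^ 2 + Q ^ 2 := by ring
  have h8 : (Nat.card D.T + c) * (e' + 1) = Nat.card D.T * (e' + 1) + (e' + 1) * c := by ring
  rw [h6] at h2
  rw [h7, h8] at h4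
  omega

include D in
/-- the number of points of the curve -/
theorem card_points [Finite E] (he : 0 < e) {Q : ℕ} (hQ : Nat.card E = Q ^ 2) :
    Nat.card E ≤ Nat.card {p : E × E // (g.map (evalRingHom p.1)).eval p.2 = 0} +
      (e * c + e * (2 * κ * e + 1 + e * e * ((κ + 1) * (κ + 2)))) * Q := by
  classical
  let H : Subgroup D.G := MulAction.stabilizer D.G D.Y
  let Z := {p : E × E // (g.map (evalRingHom p.1)).eval p.2 = 0}
  -- the points defined by Frobenius elements in the stabilizer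
  have hpt : ∀ (t₀ : D.T) (τ : D.G) (σ : D.G), σ ∈ H → (t₀, τ) ∈ D.FrobSet (Nat.card E) σ →
      ∃ y : E, i y = D.ev t₀ (τ • D.Y) ∧ (g.map (evalRingHom (t₀ : E))).eval y = 0 := by
    intro t₀ τ σ hσ hfr
    have h1 := hfr D.Y
    rw [MulAction.mem_stabilizer_iff.1 hσ] at h1
    have h2 : ∃ y : E, i y = D.ev t₀ (τ • D.Y) := by
      have := Fintype.ofFinite E
      have h3 : ∏ a : E, (X - C a) = (X ^ Nat.card E - X : E[X]) := by
        rw [Nat.card_eq_fintype_card]
        have hmon : (X ^ Fintype.card E - X : E[X]).Monic :=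
          monic_X_pow_sub (by
            rw [degree_X]
            exact_mod_cast Fintype.one_lt_card)
        have hroots := FiniteField.roots_X_pow_card_sub_X E
        have hdeg := FiniteField.X_pow_card_sub_X_natDegree_eq E (Fintype.one_lt_card (α := E))
        have h5 := prod_multiset_X_sub_C_of_monic_of_roots_card_eq hmon (by
          rw [hroots, hdeg]
          rfl)
        rw [hroots] at h5
        exact h5
      have h4 := congrArg (fun p : E[X] => p.eval₂ i (D.ev t₀ (τ • D.Y))) h3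
      simp only [eval₂_sub, eval₂_pow, eval₂_X] at h4
      rw [Polynomial.eval₂_finsetProd, ← h1, sub_self, Finset.prod_eq_zero_iff] at h4
      obtain ⟨a, _, ha⟩ := h4
      rw [eval₂_sub, eval₂_X, eval₂_C, sub_eq_zero] at ha
      exact ⟨a, ha.symm⟩
    obtain ⟨y, hy⟩ := h2
    refine ⟨y, hy, ?_⟩
    apply i.injective
    rw [map_zero]
    let ψ : D.B →+* k := (D.ev t₀).comp (MulSemiringAction.toRingHom D.G D.B τ)
    have hψ : ψ.comp (aeval D.t : E[X] →ₐ[E] D.B).toRingHom = i.comp (evalRingHom (t₀ : E)) := by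
      apply Polynomial.ringHom_ext
      · intro a
        simp only [RingHom.comp_apply, AlgHom.toRingHom_eq_coe, RingHom.coe_coe, aeval_C,
          coe_evalRingHom, eval_C, ψ, MulSemiringAction.toRingHom_apply, D.smul_const, ev_apply,
          D.ι_const, PowerSeries.constantCoeff_C]
      · simp only [RingHom.comp_apply, AlgHom.toRingHom_eq_coe, RingHom.coe_coe, aeval_X,
          coe_evalRingHom, eval_X, ψ, MulSemiringAction.toRingHom_apply, D.smul_t, ev_apply,
          D.ι_t, map_add, PowerSeries.constantCoeff_C, PowerSeries.constantCoeff_X, add_zero]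
    have h5 := congrArg ψ D.Y_root
    rw [map_zero, ← Polynomial.eval₂_hom, ← Polynomial.eval_map, Polynomial.map_map, hψ] at h5
    rw [← Polynomial.eval₂_hom, ← Polynomial.eval_map, Polynomial.map_map, hy]
    exact h5
  -- the injection
  have hinj : (∑ σ : H, (D.FrobSet (Nat.card E) (σ : D.G)).ncard) ≤ Nat.card Z * Nat.card H := by
    let S := Σ σ : H, D.FrobSet (Nat.card E) (σ : D.G)
    have hy : ∀ s : S, ∃ y : E, i y = D.ev s.2.1.1 (s.2.1.2 • D.Y) ∧
        (g.map (evalRingHom (s.2.1.1 : E))).eval y = 0 := fun s =>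
      hpt s.2.1.1 s.2.1.2 s.1 s.1.2 s.2.2
    choose y hy hroot using hy
    let zf : S → Z := fun s => ⟨((s.2.1.1 : E), y s), hroot s⟩
    let ρ : Z → D.G := fun z => if h : ∃ s : S, zf s = z then (h.choose).2.1.2 else 1
    have hρ : ∀ s : S, ρ (zf s) • D.Y = s.2.1.2 • D.Y := by
      intro s
      have hex : ∃ s' : S, zf s' = zf s := ⟨s, rfl⟩
      have h1 : ρ (zf s) = (hex.choose).2.1.2 := dif_pos hex
      have h2 : zf hex.choose = zf s := hex.choose_spec
      have h3 : (hex.choose).2.1.1 = s.2.1.1 := by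
        have := congrArg (fun z : Z => z.1.1) h2
        exact Subtype.ext this
      have h4 : y hex.choose = y s := congrArg (fun z : Z => z.1.2) h2
      rw [h1]
      apply D.stab s.2.1.1
      rw [← ev_apply, ← ev_apply, ← hy s, ← h4, hy, h3]
    let f : S → Z × H := fun s => (zf s, ⟨(ρ (zf s))⁻¹ * s.2.1.2, by
      rw [MulAction.mem_stabilizer_iff, mul_smul, ← hρ s, inv_smul_smul]⟩)
    have hf : Function.Injective f := by
      rintro ⟨σ, ⟨⟨t₀, τ⟩, h1⟩⟩ ⟨σ', ⟨⟨t₀', τ'⟩, h1'⟩⟩ hff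
      have h2 : zf ⟨σ, ⟨⟨t₀, τ⟩, h1⟩⟩ = zf ⟨σ', ⟨⟨t₀', τ'⟩, h1'⟩⟩ := congrArg Prod.fst hff
      have h3 : t₀ = t₀' := by
        have := congrArg (fun z : Z => z.1.1) h2
        exact Subtype.ext this
      have h4 := congrArg (fun q : Z × H => (q.2 : D.G)) hff
      simp only [f] at h4
      rw [h2] at h4
      have h5 : τ = τ' := mul_left_cancel h4
      subst h3
      subst h5
      have h6 : σ = σ' := by
        apply Subtype.ext
        apply D.uniq t₀ τ
        intro b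
        have e1 := h1 b
        have e2 := h1' b
        simp only [ev_apply] at e1 e2
        rw [e1, e2]
      subst h6
      rfl
    have h7 := Nat.card_le_card_of_injective f hf
    rw [Nat.card_prod, Nat.card_sigma] at h7
    exact h7
  have hlow : Nat.card H * Q ^ 2 ≤ (∑ σ : H, (D.FrobSet (Nat.card E) (σ : D.G)).ncard) +
      Nat.card H * (e * c + e * (2 * κ * e + 1 + e * e * ((κ + 1) * (κ + 2))) * Q) := by
    rw [Nat.card_eq_fintype_card, ← Finset.card_univ, ← smul_eq_mul, ← smul_eq_mul,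
      ← Finset.sum_const, ← Finset.sum_const, ← Finset.sum_add_distrib]
    refine Finset.sum_le_sum fun σ _ => ?_
    have := D.le_frobSet he hQ (σ : D.G)
    omega
  have hH : 0 < Nat.card H := Nat.card_pos
  have hfin : Nat.card H * Q ^ 2 ≤ Nat.card H * (Nat.card Z + (e * c +
      e * (2 * κ * e + 1 + e * e * ((κ + 1) * (κ + 2))) * Q)) := by
    rw [mul_add, mul_comm (Nat.card H) (Nat.card Z)]
    omega
  have := Nat.le_of_mul_le_mul_left hfin hH
  rw [hQ]
  refine this.trans ?_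
  have hQ0 : 1 ≤ Q := by
    rcases Nat.eq_zero_or_pos Q with h | h
    · rw [h] at hQ
      have := Nat.card_pos (α := E)
      omega
    · exact h
  have : e * c ≤ e * c * Q := Nat.le_mul_of_pos_right _ hQ0
  rw [add_mul (e * c)]
  exact Nat.add_le_add_left (Nat.add_le_add_right this _) _

end CData

end Pool.Agent.Lib.MP_305fdd_al.LW
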