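import Mathlib

/-!
# MP_305fdd_al (LW), piece D: points of a domain of finite type over a finite field

Separable Noether normalisation reduces the lower bound for the number of points of a domain to the
case of hypersurfaces, which is taken as a hypothesis `HB`.
-/

set_option autoImplicit false

namespace Pool.Agent.Lib.MP_305fdd_al.LW

open Polynomial

/-! ## Partially defined places -/

section Place

variable {A K E : Type} [CommRing A] [Field K] [Algebra A K] [Field E] (φ : A →+* E) (y : K)
  (c : E) (H : A)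

/-- the element `w` of `A[y][1/H]` goes to `e` under the place `(φ, y ↦ c)` -/
def Rel (w : K) (e : E) : Prop :=
  ∃ (n : ℕ) (p : A[X]), aeval y p = H ^ n • w ∧ e * φ H ^ n = p.eval₂ φ c

variable {φ y c H}

theorem Rel.unique [IsDomain A] [IsIntegrallyClosed A] [FaithfulSMul A K]
    (hy : IsIntegral A y) (hc : (minpoly A y).eval₂ φ c = 0) (hH : φ H ≠ 0) {w : K} {e e' : E}
    (h : Rel φ y c H w e) (h' : Rel φ y c H w e') : e = e' := by
  obtain ⟨n, p, h1, h2⟩ := h
  obtain ⟨n', p', h1', h2'⟩ := h'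
  have h3 : aeval y (C (H ^ n') * p - C (H ^ n) * p') = 0 := by
    rw [map_sub, map_mul, map_mul, aeval_C, aeval_C, h1, h1', Algebra.smul_def, Algebra.smul_def]
    ring
  obtain ⟨r, hr⟩ := minpoly.isIntegrallyClosed_dvd hy h3
  have h4 : (C (H ^ n') * p - C (H ^ n) * p').eval₂ φ c = 0 := by
    rw [hr, eval₂_mul, hc, zero_mul]
  rw [eval₂_sub, eval₂_mul, eval₂_mul, eval₂_C, eval₂_C, ← h2, ← h2', map_pow, map_pow] at h4
  have h5 : (e - e') * (φ H ^ n * φ H ^ n') = 0 := by linear_combination h4
  rcases mul_eq_zero.1 h5 with h | h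
  · exact sub_eq_zero.1 h
  · exact absurd h (mul_ne_zero (pow_ne_zero _ hH) (pow_ne_zero _ hH))

theorem Rel.add {w w' : K} {e e' : E} (h : Rel φ y c H w e) (h' : Rel φ y c H w' e') :
    Rel φ y c H (w + w') (e + e') := by
  obtain ⟨n, p, h1, h2⟩ := h
  obtain ⟨n', p', h1', h2'⟩ := h'
  refine ⟨n + n', C (H ^ n') * p + C (H ^ n) * p', ?_, ?_⟩
  · rw [map_add, map_mul, map_mul, aeval_C, aeval_C, h1, h1']
    simp only [Algebra.smul_def, pow_add, map_mul, map_pow]
    ring
  · rw [eval₂_add, eval₂_mul, eval₂_mul, eval₂_C, eval₂_C, ← h2, ← h2', map_pow, map_pow, pow_add]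
    ring

theorem Rel.mul {w w' : K} {e e' : E} (h : Rel φ y c H w e) (h' : Rel φ y c H w' e') :
    Rel φ y c H (w * w') (e * e') := by
  obtain ⟨n, p, h1, h2⟩ := h
  obtain ⟨n', p', h1', h2'⟩ := h'
  refine ⟨n + n', p * p', ?_, ?_⟩
  · rw [map_mul, h1, h1']
    simp only [Algebra.smul_def, pow_add, map_mul, map_pow]
    ring
  · rw [eval₂_mul, ← h2, ← h2', pow_add]
    ring

theorem Rel.const (a : A) : Rel φ y c H (algebraMap A K a) (φ a) :=
  ⟨0, C a, by simp, by simp⟩

theorem Rel.gen : Rel φ y c H y c :=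
  ⟨0, X, by simp, by simp⟩

theorem Rel.one : Rel φ y c H 1 1 := by
  have := Rel.const (K := K) (φ := φ) (y := y) (c := c) (H := H) 1
  simpa using this

theorem Rel.zero : Rel φ y c H 0 0 := by
  have := Rel.const (K := K) (φ := φ) (y := y) (c := c) (H := H) 0
  simpa using this

theorem Rel.exists (hH : φ H ≠ 0) {w : K} {p : A[X]} (h : aeval y p = H • w) :
    ∃ e : E, Rel φ y c H w e :=
  ⟨p.eval₂ φ c / φ H, 1, p, by rw [pow_one, h], by rw [pow_one, div_mul_cancel₀ _ hH]⟩

end Place

/-- A point of the hypersurface with `H ≠ 0` gives a point of `B`. -/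
theorem exists_point {F A K B E : Type} [Field F] [CommRing A] [IsDomain A] [IsIntegrallyClosed A]
    [Field K] [Algebra A K] [FaithfulSMul A K] [CommRing B] [Algebra B K] [Algebra F A]
    [Algebra F B] [Algebra F K] [IsScalarTower F A K] [IsScalarTower F B K] [Field E] [Algebra F E]
    {y : K} (hy : IsIntegral A y) (H : A) (G : Set B) (hG : Algebra.adjoin F G = ⊤)
    (hB : ∀ g ∈ G, ∃ p : A[X], aeval y p = H • algebraMap B K g)
    (φ : A →ₐ[F] E) (c : E) (hc : (minpoly A y).eval₂ (φ : A →+* E) c = 0) (hH : φ H ≠ 0) :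
    ∃ ψ : B →ₐ[F] E, ∀ z : B, Rel (φ : A →+* E) y c H (algebraMap B K z) (ψ z) := by
  have hH' : (φ : A →+* E) H ≠ 0 := hH
  have hconst : ∀ r : F, Rel (φ : A →+* E) y c H (algebraMap B K (algebraMap F B r))
      (algebraMap F E r) := by
    intro r
    have := Rel.const (K := K) (φ := (φ : A →+* E)) (y := y) (c := c) (H := H) (algebraMap F A r)
    rw [← IsScalarTower.algebraMap_apply] at this ⊢
    simpa using this
  have hex : ∀ z : B, ∃ e : E, Rel (φ : A →+* E) y c H (algebraMap B K z) e := by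
    intro z
    have hz : z ∈ Algebra.adjoin F G := by rw [hG]; exact Algebra.mem_top
    induction hz using Algebra.adjoin_induction with
    | mem g hg =>
      obtain ⟨p, h⟩ := hB g hg
      exact Rel.exists hH' h
    | algebraMap r => exact ⟨_, hconst r⟩
    | add z z' _ _ h h' =>
      obtain ⟨e, h⟩ := h
      obtain ⟨e', h'⟩ := h'
      exact ⟨e + e', by rw [map_add]; exact h.add h'⟩
    | mul z z' _ _ h h' =>
      obtain ⟨e, h⟩ := h
      obtain ⟨e', h'⟩ := h'
      exact ⟨e * e', by rw [map_mul]; exact h.mul h'⟩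
  choose ψ hψ using hex
  have hu := fun {w : K} {e e' : E} (h : Rel (φ : A →+* E) y c H w e)
    (h' : Rel (φ : A →+* E) y c H w e') => Rel.unique hy hc hH' h h'
  refine ⟨{ toFun := ψ, map_one' := ?_, map_mul' := ?_, map_zero' := ?_, map_add' := ?_,
            commutes' := ?_ }, hψ⟩
  · exact hu (hψ 1) (by rw [map_one]; exact Rel.one)
  · intro z z'
    exact hu (hψ _) (by rw [map_mul]; exact (hψ z).mul (hψ z'))
  · exact hu (hψ 0) (by rw [map_zero]; exact Rel.zero)
  · intro z z'
    exact hu (hψ _) (by rw [map_add]; exact (hψ z).add (hψ z'))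
  · intro r
    exact hu (hψ _) (hconst r)

/-! ## A scaled primitive element -/

theorem exists_prim (A K₀ K : Type) [CommRing A] [IsDomain A] [Field K₀] [Field K] [Algebra A K₀]
    [IsFractionRing A K₀] [Algebra K₀ K] [Algebra A K] [IsScalarTower A K₀ K]
    [FiniteDimensional K₀ K] [Algebra.IsSeparable K₀ K] :
    ∃ y : K, IsIntegral A y ∧ Algebra.adjoin K₀ {y} = ⊤ := by
  obtain ⟨α, hα⟩ := Field.exists_primitive_element K₀ K
  have h1 : IsAlgebraic K₀ α := Algebra.IsAlgebraic.isAlgebraic α
  have h2 : IsAlgebraic A α := (IsFractionRing.isAlgebraic_iff A K₀ K).2 h1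
  obtain ⟨a, ha, hi⟩ := h2.exists_integral_multiple
  refine ⟨a • α, hi, ?_⟩
  rw [IntermediateField.adjoin_simple_eq_top_iff_of_isAlgebraic h1] at hα
  rw [← top_le_iff, ← hα]
  refine Algebra.adjoin_le ?_
  rw [Set.singleton_subset_iff]
  have h3 : algebraMap A K₀ a ≠ 0 := by
    rw [Ne, FaithfulSMul.algebraMap_eq_zero_iff]
    exact ha
  have h4 : α = (algebraMap A K₀ a)⁻¹ • (a • α) := by
    rw [← algebraMap_smul K₀ a α, smul_smul, inv_mul_cancel₀ h3, one_smul]
  have h5 := Subalgebra.smul_mem (Algebra.adjoin K₀ {a • α}) (Algebra.subset_adjoin rfl)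
    (algebraMap A K₀ a)⁻¹
  rwa [← h4] at h5

theorem exists_mult (A K₀ K : Type) [CommRing A] [IsDomain A] [Field K₀] [Field K] [Algebra A K₀]
    [IsFractionRing A K₀] [Algebra K₀ K] [Algebra A K] [IsScalarTower A K₀ K] {y : K}
    (hy : Algebra.adjoin K₀ {y} = ⊤) (z : K) :
    ∃ H : A, H ≠ 0 ∧ ∃ p : A[X], aeval y p = H • z := by
  have h1 : z ∈ Algebra.adjoin K₀ {y} := by rw [hy]; exact Algebra.mem_top
  rw [Algebra.adjoin_singleton_eq_range_aeval] at h1
  obtain ⟨q, hq⟩ := h1
  obtain ⟨b, hbm, hb⟩ := IsLocalization.integerNormalization_spec (nonZeroDivisors A) q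
  refine ⟨b, nonZeroDivisors.ne_zero hbm, IsLocalization.integerNormalization (nonZeroDivisors A) q,
    ?_⟩
  have h2 : aeval y ((IsLocalization.integerNormalization (nonZeroDivisors A) q).map
      (algebraMap A K₀)) = b • z := by
    rw [hb]
    have : (b • q : K₀[X]) = C (algebraMap A K₀ b) * q := by
      rw [← Polynomial.smul_eq_C_mul, algebraMap_smul]
    rw [this, map_mul, aeval_C, Algebra.smul_def, ← IsScalarTower.algebraMap_apply]
    congr 1
  rwa [aeval_map_algebraMap] at h2

theorem exists_mult_finite (A K₀ K : Type) [CommRing A] [IsDomain A] [Field K₀] [Field K]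
    [Algebra A K₀] [IsFractionRing A K₀] [Algebra K₀ K] [Algebra A K] [IsScalarTower A K₀ K] {y : K}
    (hy : Algebra.adjoin K₀ {y} = ⊤) {J : Type} [Finite J] (z : J → K) :
    ∃ H : A, H ≠ 0 ∧ ∀ j, ∃ p : A[X], aeval y p = H • z j := by
  classical
  have := Fintype.ofFinite J
  choose h h0 p hp using fun j => exists_mult A K₀ K hy (z j)
  refine ⟨∏ j, h j, Finset.prod_ne_zero_iff.2 fun j _ => h0 j, fun j =>
    ⟨C (∏ i ∈ Finset.univ.erase j, h i) * p j, ?_⟩⟩
  rw [map_mul, aeval_C, hp, ← Finset.prod_erase_mul _ _ (Finset.mem_univ j), mul_smul,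
    ← Algebra.smul_def]

theorem exists_bezout (A K₀ : Type) [CommRing A] [IsDomain A] [Field K₀] [Algebra A K₀]
    [IsFractionRing A K₀] (f g : A[X])
    (h : IsCoprime (f.map (algebraMap A K₀)) (g.map (algebraMap A K₀))) :
    ∃ (u v : A[X]) (δ : A), δ ≠ 0 ∧ u * f + v * g = C δ := by
  obtain ⟨U, V, hUV⟩ := h
  obtain ⟨b, hbm, hb⟩ := IsLocalization.integerNormalization_spec (nonZeroDivisors A) U
  obtain ⟨b', hbm', hb'⟩ := IsLocalization.integerNormalization_spec (nonZeroDivisors A) V
  refine ⟨C b' * IsLocalization.integerNormalization (nonZeroDivisors A) U,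
    C b * IsLocalization.integerNormalization (nonZeroDivisors A) V, b * b',
    mul_ne_zero (nonZeroDivisors.ne_zero hbm) (nonZeroDivisors.ne_zero hbm'), ?_⟩
  apply Polynomial.map_injective (algebraMap A K₀) (IsFractionRing.injective A K₀)
  have hs : ∀ (b : A) (q : K₀[X]), (b • q : K₀[X]) = C (algebraMap A K₀ b) * q := by
    intro b q
    rw [← Polynomial.smul_eq_C_mul, algebraMap_smul]
  rw [hs] at hb hb'
  simp only [Polynomial.map_add, Polynomial.map_mul, map_C, hb, hb', map_mul]
  linear_combination (C (algebraMap A K₀ b) * C (algebraMap A K₀ b')) * hUV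

/-! ## The hypersurface model -/

open scoped IntermediateField.algebraAdjoinAdjoin in
theorem alg_model_aux (F : Type) [Field F] (B : Type) [CommRing B] [IsDomain B]
    [Algebra F B] [Algebra.FiniteType F B] (b : B) (hb : b ≠ 0) (K : Type) [Field K] [Algebra B K]
    [IsFractionRing B K] [Algebra F K] [IsScalarTower F B K] [Algebra.EssFiniteType F K]
    (m : ℕ) (x : Fin m → K) (hx : IsTranscendenceBasis F x)
    (hsep : Algebra.IsSeparable (IntermediateField.adjoin F (Set.range x)) K) :
    ∃ (f : (MvPolynomial (Fin m) F)[X]) (H δ : MvPolynomial (Fin m) F)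
      (u v : (MvPolynomial (Fin m) F)[X]), f.Monic ∧ 0 < f.natDegree ∧
      H ≠ 0 ∧ δ ≠ 0 ∧ u * f + v * f.derivative = C δ ∧
      ∀ (E : Type) [Field E] [Algebra F E],
        ∃ Ψ : {p : (Fin m → E) × E //
            f.eval₂ (MvPolynomial.aeval p.1 : MvPolynomial (Fin m) F →ₐ[F] E).toRingHom p.2 = 0 ∧
            MvPolynomial.aeval p.1 H ≠ 0} → {ψ : B →ₐ[F] E // ψ b ≠ 0},
          Function.Injective Ψ := by
  classical
  let e : MvPolynomial (Fin m) F ≃ₐ[F] Algebra.adjoin F (Set.range x) := hx.1.aevalEquiv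
  have hUFD : UniqueFactorizationMonoid (Algebra.adjoin F (Set.range x)) :=
    e.toMulEquiv.uniqueFactorizationMonoid inferInstance
  have hIC : IsIntegrallyClosed (Algebra.adjoin F (Set.range x)) := inferInstance
  have hess : Algebra.EssFiniteType (IntermediateField.adjoin F (Set.range x)) K :=
    Algebra.EssFiniteType.of_comp F _ K
  have hfin : FiniteDimensional (IntermediateField.adjoin F (Set.range x)) K :=
    Algebra.finite_of_essFiniteType_of_isAlgebraic
  obtain ⟨y, hy, hytop⟩ := exists_prim (Algebra.adjoin F (Set.range x))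
    (IntermediateField.adjoin F (Set.range x)) K
  have hmon : (minpoly (Algebra.adjoin F (Set.range x)) y).Monic := minpoly.monic hy
  have hK : minpoly (IntermediateField.adjoin F (Set.range x)) y =
      (minpoly (Algebra.adjoin F (Set.range x)) y).map (algebraMap _ _) :=
    minpoly.isIntegrallyClosed_eq_field_fractions _ K hy
  have hsepy : IsSeparable (IntermediateField.adjoin F (Set.range x)) y :=
    Algebra.IsSeparable.isSeparable _ y
  rw [IsSeparable, hK, Polynomial.Separable, Polynomial.derivative_map] at hsepy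
  obtain ⟨u, v, δ, hδ, huv⟩ := exists_bezout (Algebra.adjoin F (Set.range x))
    (IntermediateField.adjoin F (Set.range x)) _ _ hsepy
  obtain ⟨v₀, hv₀⟩ := IsLocalization.exist_integer_multiples_of_finite (nonZeroDivisors B)
    (fun o : Option (Fin m) => o.elim y x)
  obtain ⟨G, hG⟩ := (Algebra.FiniteType.out : (⊤ : Subalgebra F B).FG)
  obtain ⟨H, hH, hHz⟩ := exists_mult_finite (Algebra.adjoin F (Set.range x))
    (IntermediateField.adjoin F (Set.range x)) K hytop
    (fun o : Option (Option G) => o.elim ((algebraMap B K b)⁻¹)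
      fun o => o.elim ((algebraMap B K (v₀ : B))⁻¹) fun g => algebraMap B K (g : B))
  have hbK : algebraMap B K b ≠ 0 := by
    rw [Ne, FaithfulSMul.algebraMap_eq_zero_iff]
    exact hb
  have hvK : algebraMap B K (v₀ : B) ≠ 0 := by
    rw [Ne, FaithfulSMul.algebraMap_eq_zero_iff]
    exact nonZeroDivisors.ne_zero v₀.2
  let es : Algebra.adjoin F (Set.range x) →+* MvPolynomial (Fin m) F := (e.symm : _ →+* _)
  have hes : Function.Injective es := e.symm.injective
  refine ⟨(minpoly (Algebra.adjoin F (Set.range x)) y).map es, es H, es δ, u.map es, v.map es,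
    hmon.map _, ?_, ?_, ?_, ?_, ?_⟩
  · rw [Polynomial.natDegree_map_eq_of_injective hes]
    exact minpoly.natDegree_pos hy
  · exact (map_ne_zero_iff es hes).2 hH
  · exact (map_ne_zero_iff es hes).2 hδ
  · rw [Polynomial.derivative_map, ← Polynomial.map_mul, ← Polynomial.map_mul,
      ← Polynomial.map_add, huv, map_C]
  intro E _ _
  -- the place attached to a point
  have key : ∀ p : {p : (Fin m → E) × E //
      ((minpoly (Algebra.adjoin F (Set.range x)) y).map es).eval₂
        (MvPolynomial.aeval p.1 : MvPolynomial (Fin m) F →ₐ[F] E).toRingHom p.2 = 0 ∧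
      MvPolynomial.aeval p.1 (es H) ≠ 0}, ∃ ψ : B →ₐ[F] E, ψ b ≠ 0 ∧ ψ v₀ ≠ 0 ∧
      (∀ i (z : B), algebraMap B K z = algebraMap B K (v₀ : B) * x i →
        ψ z = ψ v₀ * p.1.1 i) ∧
      (∀ (z : B), algebraMap B K z = algebraMap B K (v₀ : B) * y → ψ z = ψ v₀ * p.1.2) := by
    rintro ⟨⟨a, c⟩, h1, h2⟩
    dsimp only at h1 h2
    rw [eval₂_map] at h1
    let φ : Algebra.adjoin F (Set.range x) →ₐ[F] E :=
      (MvPolynomial.aeval a).comp (e.symm : _ →ₐ[F] MvPolynomial (Fin m) F)
    have hφc : (minpoly (Algebra.adjoin F (Set.range x)) y).eval₂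
        (φ : Algebra.adjoin F (Set.range x) →+* E) c = 0 := h1
    have hφH : φ H ≠ 0 := h2
    have hφH' : (φ : Algebra.adjoin F (Set.range x) →+* E) H ≠ 0 := h2
    obtain ⟨ψ, hψ⟩ := exists_point (B := B) hy H (G : Set B) hG
      (fun g hg => hHz (some (some ⟨g, hg⟩))) φ c hφc hφH
    have hu := fun {w : K} {e e' : E}
      (h : Rel (φ : Algebra.adjoin F (Set.range x) →+* E) y c H w e)
      (h' : Rel (φ : Algebra.adjoin F (Set.range x) →+* E) y c H w e') =>
      Rel.unique hy hφc hφH' h h'
    have hinv : ∀ z : B, algebraMap B K z ≠ 0 → (∃ p : (Algebra.adjoin F (Set.range x))[X],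
        aeval y p = H • (algebraMap B K z)⁻¹) → ψ z ≠ 0 := by
      intro z hz hp h0
      obtain ⟨p, hp⟩ := hp
      obtain ⟨e', he'⟩ := Rel.exists (c := c) hφH' hp
      have h3 := (hψ z).mul he'
      rw [mul_inv_cancel₀ hz, h0, zero_mul] at h3
      exact zero_ne_one (hu h3 Rel.one)
    refine ⟨ψ, hinv b hbK (hHz none), hinv v₀ hvK (hHz (some none)), ?_, ?_⟩
    · intro i z hz
      have h3 := hψ z
      rw [hz] at h3
      have hmem : x i ∈ Algebra.adjoin F (Set.range x) := Algebra.subset_adjoin ⟨i, rfl⟩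
      have h4 := Rel.const (K := K) (φ := (φ : Algebra.adjoin F (Set.range x) →+* E)) (y := y)
        (c := c) (H := H) ⟨x i, hmem⟩
      have h5 : (φ : Algebra.adjoin F (Set.range x) →+* E) ⟨x i, hmem⟩ = a i := by
        have h6 : e (MvPolynomial.X i) = ⟨x i, hmem⟩ := by
          apply Subtype.ext
          simp [e]
        have h7 : e.symm ⟨x i, hmem⟩ = MvPolynomial.X i := by rw [← h6, e.symm_apply_apply]
        show MvPolynomial.aeval a (e.symm ⟨x i, hmem⟩) = a i
        rw [h7, MvPolynomial.aeval_X]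
      rw [h5] at h4
      exact hu h3 ((hψ v₀).mul h4)
    · intro z hz
      have h3 := hψ z
      rw [hz] at h3
      exact hu h3 ((hψ v₀).mul Rel.gen)
  choose Ψ hΨb hΨv hΨx hΨy using key
  refine ⟨fun p => ⟨Ψ p, hΨb p⟩, ?_⟩
  intro p p' hpp
  have hpp' : Ψ p = Ψ p' := congrArg Subtype.val hpp
  apply Subtype.ext
  apply Prod.ext
  · funext i
    obtain ⟨z, hz⟩ := hv₀ (some i)
    have hz' : algebraMap B K z = algebraMap B K (v₀ : B) * x i := by
      rw [hz, Algebra.smul_def]
      rfl
    have h1 := hΨx p i z hz'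
    have h2 := hΨx p' i z hz'
    rw [hpp', h2] at h1
    exact (mul_left_cancel₀ (hΨv p') h1).symm
  · obtain ⟨z, hz⟩ := hv₀ none
    have hz' : algebraMap B K z = algebraMap B K (v₀ : B) * y := by
      rw [hz, Algebra.smul_def]
      rfl
    have h1 := hΨy p z hz'
    have h2 := hΨy p' z hz'
    rw [hpp', h2] at h1
    exact (mul_left_cancel₀ (hΨv p') h1).symm

theorem alg_model (F : Type) [Field F] [PerfectField F] (B : Type) [CommRing B] [IsDomain B]
    [Algebra F B] [Algebra.FiniteType F B] (b : B) (hb : b ≠ 0) {ι : Type} [Fintype ι] (s : ι → B)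
    (hs : AlgebraicIndependent F s) :
    ∃ (m : ℕ) (f : (MvPolynomial (Fin m) F)[X]) (H δ : MvPolynomial (Fin m) F)
      (u v : (MvPolynomial (Fin m) F)[X]), Fintype.card ι ≤ m ∧ f.Monic ∧ 0 < f.natDegree ∧
      H ≠ 0 ∧ δ ≠ 0 ∧ u * f + v * f.derivative = C δ ∧
      ∀ (E : Type) [Field E] [Algebra F E],
        ∃ Ψ : {p : (Fin m → E) × E //
            f.eval₂ (MvPolynomial.aeval p.1 : MvPolynomial (Fin m) F →ₐ[F] E).toRingHom p.2 = 0 ∧
            MvPolynomial.aeval p.1 H ≠ 0} → {ψ : B →ₐ[F] E // ψ b ≠ 0},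
          Function.Injective Ψ := by
  classical
  let K := FractionRing B
  have : Algebra.EssFiniteType B K := Algebra.EssFiniteType.of_isLocalization K (nonZeroDivisors B)
  have : Algebra.EssFiniteType F K := Algebra.EssFiniteType.comp F B K
  obtain ⟨S, hS, hsep⟩ := exists_isTranscendenceBasis_and_isSeparable_of_perfectField F K
  have hx : IsTranscendenceBasis F (fun i : Fin S.card => ((S.equivFin.symm i : S) : K)) :=
    hS.comp_equiv S.equivFin.symm
  have hr : Set.range (fun i : Fin S.card => ((S.equivFin.symm i : S) : K)) = (S : Set K) := by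
    ext z
    constructor
    · rintro ⟨i, rfl⟩
      exact (S.equivFin.symm i).2
    · intro hz
      exact ⟨S.equivFin ⟨z, hz⟩, by simp⟩
  rw [← hr] at hsep
  obtain ⟨f, H, δ, u, v, h1, h2, h3, h4, h5, h6⟩ := alg_model_aux F B b hb K S.card _ hx hsep
  refine ⟨S.card, f, H, δ, u, v, ?_, h1, h2, h3, h4, h5, h6⟩
  have hs' : AlgebraicIndependent F (fun i => algebraMap B K (s i)) :=
    hs.map' (f := IsScalarTower.toAlgHom F B K) (IsFractionRing.injective B K)
  have h7 := hs'.cardinalMk_le_trdeg
  rw [← hS.cardinalMk_eq_trdeg] at h7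
  simpa using h7

/-- Over a finite extension `F₁` of `F` there is a point where `f` is split and separable. -/
theorem exists_split_point (F : Type) [Field F] [Finite F] (m : ℕ)
    (f : (MvPolynomial (Fin m) F)[X]) (u v : (MvPolynomial (Fin m) F)[X])
    (δ : MvPolynomial (Fin m) F) (hδ : δ ≠ 0) (huv : u * f + v * f.derivative = C δ) :
    ∃ (F₁ : Type) (_ : Field F₁) (_ : Finite F₁) (_ : Algebra F F₁) (a : Fin m → F₁),
      (f.map (MvPolynomial.aeval a : MvPolynomial (Fin m) F →ₐ[F] F₁).toRingHom).Splits ∧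
      (f.map (MvPolynomial.aeval a : MvPolynomial (Fin m) F →ₐ[F] F₁).toRingHom).Separable := by
  classical
  let L := AlgebraicClosure F
  have hδ' : MvPolynomial.map (algebraMap F L) δ ≠ 0 :=
    (map_ne_zero_iff _ (MvPolynomial.map_injective _ (algebraMap F L).injective)).2 hδ
  obtain ⟨a, ha⟩ : ∃ a : Fin m → L, MvPolynomial.aeval a δ ≠ 0 := by
    by_contra hcon
    push Not at hcon
    apply hδ'
    apply MvPolynomial.funext
    intro a
    rw [map_zero, MvPolynomial.eval_map]
    exact hcon a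
  let fa : L[X] := f.map (MvPolynomial.aeval a : MvPolynomial (Fin m) F →ₐ[F] L).toRingHom
  let T : Finset L := Finset.univ.image a ∪ fa.roots.toFinset
  let F₁ : IntermediateField F L := IntermediateField.adjoin F (T : Set L)
  have hT : (T : Set L) ⊆ F₁ := IntermediateField.subset_adjoin _ _
  have haF : ∀ i, a i ∈ F₁ := fun i => hT (by simp [T])
  have hrF : ∀ r ∈ fa.roots, r ∈ F₁ := fun r hr => hT (by simp [T, hr])
  have hfd : FiniteDimensional F F₁ :=
    IntermediateField.finiteDimensional_adjoin fun x _ => Algebra.IsIntegral.isIntegral x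
  have hfin : Finite F₁ := Module.finite_of_finite F
  let a' : Fin m → F₁ := fun i => ⟨a i, haF i⟩
  have hcomp : (algebraMap F₁ L).comp
      (MvPolynomial.aeval a' : MvPolynomial (Fin m) F →ₐ[F] F₁).toRingHom =
      (MvPolynomial.aeval a : MvPolynomial (Fin m) F →ₐ[F] L).toRingHom := by
    have : ((IsScalarTower.toAlgHom F F₁ L).comp (MvPolynomial.aeval a')) =
        (MvPolynomial.aeval a : MvPolynomial (Fin m) F →ₐ[F] L) := by
      ext i
      simp [a']
    exact congrArg AlgHom.toRingHom this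
  have hmap : (f.map (MvPolynomial.aeval a' : MvPolynomial (Fin m) F →ₐ[F] F₁).toRingHom).map
      (algebraMap F₁ L) = fa := by
    rw [Polynomial.map_map, hcomp]
  refine ⟨F₁, inferInstance, hfin, inferInstance, a', ?_, ?_⟩
  · refine Splits.of_splits_map (algebraMap F₁ L) ?_ ?_
    · rw [hmap]
      exact IsAlgClosed.splits _
    · rw [hmap]
      intro r hr
      exact ⟨⟨r, hrF r hr⟩, rfl⟩
  · rw [← Polynomial.separable_map (algebraMap F₁ L), hmap]
    have h1 := congrArg (Polynomial.map
      (MvPolynomial.aeval a : MvPolynomial (Fin m) F →ₐ[F] L).toRingHom) huv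
    rw [Polynomial.map_add, Polynomial.map_mul, Polynomial.map_mul, ← Polynomial.derivative_map,
      map_C] at h1
    have h2 : (MvPolynomial.aeval a : MvPolynomial (Fin m) F →ₐ[F] L).toRingHom δ ≠ 0 := ha
    refine ⟨C ((MvPolynomial.aeval a : MvPolynomial (Fin m) F →ₐ[F] L).toRingHom δ)⁻¹ *
      u.map (MvPolynomial.aeval a : MvPolynomial (Fin m) F →ₐ[F] L).toRingHom,
      C ((MvPolynomial.aeval a : MvPolynomial (Fin m) F →ₐ[F] L).toRingHom δ)⁻¹ *
      v.map (MvPolynomial.aeval a : MvPolynomial (Fin m) F →ₐ[F] L).toRingHom, ?_⟩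
    rw [mul_assoc, mul_assoc, ← mul_add, h1, ← C_mul, inv_mul_cancel₀ h2, C_1]

theorem card_zero_le (E : Type) [Field E] [Finite E] (m : ℕ) (H : MvPolynomial (Fin m) E)
    (hH : H ≠ 0) : Nat.card E * Nat.card {a : Fin m → E // MvPolynomial.eval a H = 0} ≤
      H.totalDegree * Nat.card E ^ m := by
  classical
  have := Fintype.ofFinite E
  have h := MvPolynomial.schwartz_zippel_totalDegree hH (Finset.univ : Finset E)
  have hq : (0 : ℚ≥0) < (Finset.univ : Finset E).card := by
    rw [Finset.card_univ]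
    exact_mod_cast Fintype.card_pos
  rw [div_le_div_iff₀ (by positivity) hq] at h
  rw [Nat.card_eq_fintype_card, Nat.card_eq_fintype_card, Fintype.card_subtype]
  rw [Fintype.piFinset_univ, Finset.card_univ] at h
  rw [mul_comm]
  exact_mod_cast h

theorem finite_algHom (F B E : Type) [Field F] [CommRing B] [Algebra F B] [Algebra.FiniteType F B]
    [Field E] [Finite E] [Algebra F E] : Finite (B →ₐ[F] E) := by
  obtain ⟨G, hG⟩ := (Algebra.FiniteType.out : (⊤ : Subalgebra F B).FG)
  refine Finite.of_injective (fun (ψ : B →ₐ[F] E) (g : G) => ψ g) ?_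
  intro ψ ψ' h
  refine AlgHom.ext_of_adjoin_eq_top hG ?_
  intro g hg
  exact congrFun h ⟨g, hg⟩

/-- few points of the hypersurface lie over the zeros of `H` -/
theorem card_split (E : Type) [Field E] [Finite E] (m : ℕ) (f : (MvPolynomial (Fin m) E)[X])
    (hf : f.Monic) (H : MvPolynomial (Fin m) E) :
    Nat.card {p : (Fin m → E) × E // (f.map (MvPolynomial.eval p.1)).eval p.2 = 0} ≤
      Nat.card {p : (Fin m → E) × E // (f.map (MvPolynomial.eval p.1)).eval p.2 = 0 ∧
        MvPolynomial.eval p.1 H ≠ 0} +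
      f.natDegree * Nat.card {a : Fin m → E // MvPolynomial.eval a H = 0} := by
  classical
  have := Fintype.ofFinite E
  rw [Nat.card_eq_fintype_card, Nat.card_eq_fintype_card, Nat.card_eq_fintype_card,
    Fintype.card_subtype, Fintype.card_subtype, Fintype.card_subtype]
  have h1 : (Finset.univ.filter fun p : (Fin m → E) × E =>
      (f.map (MvPolynomial.eval p.1)).eval p.2 = 0) ⊆
      (Finset.univ.filter fun p : (Fin m → E) × E =>
        (f.map (MvPolynomial.eval p.1)).eval p.2 = 0 ∧ MvPolynomial.eval p.1 H ≠ 0) ∪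
      (Finset.univ.filter fun p : (Fin m → E) × E =>
        (f.map (MvPolynomial.eval p.1)).eval p.2 = 0 ∧ MvPolynomial.eval p.1 H = 0) := by
    intro p hp
    simp only [Finset.mem_union, Finset.mem_filter, Finset.mem_univ, true_and] at hp ⊢
    tauto
  refine (Finset.card_le_card h1).trans ((Finset.card_union_le _ _).trans ?_)
  refine Nat.add_le_add_left ?_ _
  refine Finset.card_le_mul_card_image_of_maps_to (f := Prod.fst) ?_ _ ?_
  · intro p hp
    simp only [Finset.mem_filter, Finset.mem_univ, true_and] at hp ⊢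
    exact hp.2
  · intro a _
    have h2 : (f.map (MvPolynomial.eval a)).natDegree = f.natDegree := hf.natDegree_map _
    have h3 : f.map (MvPolynomial.eval a) ≠ 0 := (hf.map _).ne_zero
    calc _ ≤ ((f.map (MvPolynomial.eval a)).roots.toFinset).card := by
          refine Finset.card_le_card_of_injOn Prod.snd ?_ ?_
          · rintro ⟨a', c⟩ hp
            simp only [Finset.coe_filter, Finset.mem_filter, Finset.mem_univ, true_and,
              Set.mem_ofPred_eq] at hp
            obtain ⟨⟨h4, -⟩, rfl⟩ := hp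
            rw [Finset.mem_coe, Multiset.mem_toFinset, mem_roots h3]
            exact h4
          · rintro ⟨a', c⟩ hp ⟨a'', c'⟩ hp' hcc
            simp only [Finset.coe_filter, Finset.mem_filter, Finset.mem_univ, true_and,
              Set.mem_ofPred_eq] at hp hp' hcc
            rw [Prod.mk.injEq]
            exact ⟨hp.2.trans hp'.2.symm, hcc⟩
      _ ≤ Multiset.card (f.map (MvPolynomial.eval a)).roots := Multiset.toFinset_card_le _
      _ ≤ f.natDegree := by
          rw [← h2]
          exact card_roots' _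

theorem final_arith {q Q C n m P : ℕ} (hnm : n ≤ m) (hq : 0 < q)
    (h : q ^ (m + 1) ≤ q * P + C * Q * q ^ m) : q ^ (n + 1) ≤ q * P + C * Q * q ^ n := by
  by_cases hC : q ≤ C * Q
  · calc q ^ (n + 1) = q * q ^ n := by ring
      _ ≤ C * Q * q ^ n := Nat.mul_le_mul_right _ hC
      _ ≤ _ := Nat.le_add_left _ _
  · push Not at hC
    obtain ⟨r, hr⟩ := Nat.exists_eq_add_of_le hC.le
    have h1 : q ^ m * r ≤ q * P := by
      have h2 : q ^ (m + 1) = q ^ m * r + C * Q * q ^ m := by
        rw [pow_succ]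
        nth_rewrite 2 [hr]
        ring
      omega
    have h3 : q ^ n * r ≤ q ^ m * r := Nat.mul_le_mul_right _ (Nat.pow_le_pow_right hq hnm)
    have h2 : q ^ (n + 1) = q ^ n * r + C * Q * q ^ n := by
      rw [pow_succ]
      nth_rewrite 2 [hr]
      ring
    omega

/-- Points of a domain of finite type over a finite field, from the bound `HB` for
hypersurfaces. -/
theorem domain_bound' (HB : ∀ d w : ℕ, 0 < d → ∃ C : ℕ, ∀ (E : Type) [Field E] [Finite E] (Q : ℕ),
      Nat.card E = Q ^ 2 → ∀ (m : ℕ) (f : (MvPolynomial (Fin m) E)[X]), f.Monic →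
      f.natDegree = d → (∀ j, (f.coeff j).totalDegree ≤ w) →
      (∃ a : Fin m → E, (f.map (MvPolynomial.eval a)).Splits ∧
        (f.map (MvPolynomial.eval a)).Separable) →
      Nat.card E ^ (m + 1) ≤
        Nat.card E * Nat.card {p : (Fin m → E) × E //
          (f.map (MvPolynomial.eval p.1)).eval p.2 = 0} + C * Q * Nat.card E ^ m)
    (F : Type) [Field F] [Finite F] (B : Type) [CommRing B] [IsDomain B]
    [Algebra F B] [Algebra.FiniteType F B] (b : B) (hb : b ≠ 0) {ι : Type} [Fintype ι] (s : ι → B)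
    (hs : AlgebraicIndependent F s) :
    ∃ (F₁ : Type) (_ : Field F₁) (_ : Finite F₁) (_ : Algebra F F₁) (C : ℕ),
      ∀ (E : Type) [Field E] [Finite E] [Algebra F E], Nonempty (F₁ →ₐ[F] E) →
      ∀ Q : ℕ, Nat.card E = Q ^ 2 →
        Nat.card E ^ (Fintype.card ι + 1) ≤
          Nat.card E * Nat.card {ψ : B →ₐ[F] E // ψ b ≠ 0} +
            C * Q * Nat.card E ^ (Fintype.card ι) := by
  classical
  obtain ⟨m, f, H, δ, u, v, hm, hf, hf0, hH, hδ, huv, hΨ⟩ := alg_model F B b hb s hs
  obtain ⟨F₁, i1, i2, i3, a, ha1, ha2⟩ := exists_split_point F m f u v δ hδ huv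
  obtain ⟨C, hC⟩ := HB f.natDegree (f.support.sup fun j => (f.coeff j).totalDegree) hf0
  refine ⟨F₁, i1, i2, i3, C + f.natDegree * H.totalDegree, ?_⟩
  intro E _ _ _ hne Q hQ
  obtain ⟨j⟩ := hne
  have := Fintype.ofFinite E
  obtain ⟨Ψ, hΨi⟩ := hΨ E
  -- the polynomial over `E`
  let fE : (MvPolynomial (Fin m) E)[X] := f.map (MvPolynomial.map (algebraMap F E))
  have hinj : Function.Injective (MvPolynomial.map (σ := Fin m) (algebraMap F E)) :=
    MvPolynomial.map_injective _ (algebraMap F E).injective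
  have hev : ∀ a : Fin m → E, (MvPolynomial.eval a).comp (MvPolynomial.map (algebraMap F E)) =
      (MvPolynomial.aeval a : MvPolynomial (Fin m) F →ₐ[F] E).toRingHom := by
    intro a
    apply MvPolynomial.ringHom_ext
    · intro r
      simp
    · intro i
      simp
  have hfE : ∀ a : Fin m → E, fE.map (MvPolynomial.eval a) =
      f.map (MvPolynomial.aeval a : MvPolynomial (Fin m) F →ₐ[F] E).toRingHom := by
    intro a
    rw [Polynomial.map_map, hev]
  have haE : (MvPolynomial.aeval (fun i => j (a i)) : MvPolynomial (Fin m) F →ₐ[F] E).toRingHom =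
      (j : F₁ →+* E).comp (MvPolynomial.aeval a : MvPolynomial (Fin m) F →ₐ[F] F₁).toRingHom := by
    have : (MvPolynomial.aeval (fun i => j (a i)) : MvPolynomial (Fin m) F →ₐ[F] E) =
        j.comp (MvPolynomial.aeval a) := by
      ext i
      simp
    rw [this]
    rfl
  have hbound := hC E Q hQ m fE (hf.map _) (Polynomial.natDegree_map_eq_of_injective hinj _) (by
    intro k
    rw [Polynomial.coeff_map]
    refine (Finset.sup_mono (MvPolynomial.support_map_subset _ _)).trans ?_
    by_cases hk : k ∈ f.support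
    · exact Finset.le_sup (f := fun j => (f.coeff j).totalDegree) hk
    · rw [notMem_support_iff.1 hk]
      simp) ⟨fun i => j (a i), by
      rw [hfE, haE, ← Polynomial.map_map]
      exact ha1.map _, by
      rw [hfE, haE, ← Polynomial.map_map]
      exact ha2.map⟩
  have hsplit := card_split E m fE (hf.map _) (MvPolynomial.map (algebraMap F E) H)
  have hdeg : fE.natDegree = f.natDegree := Polynomial.natDegree_map_eq_of_injective hinj _
  rw [hdeg] at hsplit
  have hZ := card_zero_le E m (MvPolynomial.map (algebraMap F E) H)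
    ((map_ne_zero_iff _ hinj).2 hH)
  have hHdeg : (MvPolynomial.map (algebraMap F E) H).totalDegree ≤ H.totalDegree :=
    Finset.sup_mono (MvPolynomial.support_map_subset _ _)
  -- the points of the hypersurface with `H ≠ 0` give points of `B`
  have hN : Nat.card {p : (Fin m → E) × E // (fE.map (MvPolynomial.eval p.1)).eval p.2 = 0 ∧
      MvPolynomial.eval p.1 (MvPolynomial.map (algebraMap F E) H) ≠ 0} ≤
      Nat.card {ψ : B →ₐ[F] E // ψ b ≠ 0} := by
    have := finite_algHom F B E
    refine Nat.card_le_card_of_injective (fun p => Ψ ⟨p.1, ?_, ?_⟩) ?_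
    · have h1 := p.2.1
      rw [hfE, eval_map] at h1
      exact h1
    · have h1 := p.2.2
      intro h2
      apply h1
      rw [← RingHom.comp_apply, hev]
      exact h2
    · intro p p' h
      have := hΨi h
      simp only [Subtype.mk.injEq] at this
      exact Subtype.ext this
  have hq : 0 < Nat.card E := Nat.card_pos
  have hQ1 : 1 ≤ Q := by
    rcases Nat.eq_zero_or_pos Q with h | h
    · rw [h] at hQ
      simp only [ne_eq, OfNat.ofNat_ne_zero, not_false_eq_true, zero_pow] at hQ
      omega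
    · exact h
  refine final_arith hm hq ?_
  calc Nat.card E ^ (m + 1) ≤ _ := hbound
    _ ≤ Nat.card E * (Nat.card {ψ : B →ₐ[F] E // ψ b ≠ 0} + f.natDegree *
          Nat.card {a : Fin m → E //
            MvPolynomial.eval a (MvPolynomial.map (algebraMap F E) H) = 0}) +
        C * Q * Nat.card E ^ m := by
        refine Nat.add_le_add_right (Nat.mul_le_mul_left _ ?_) _
        exact hsplit.trans (Nat.add_le_add_right hN _)
    _ = Nat.card E * Nat.card {ψ : B →ₐ[F] E // ψ b ≠ 0} + f.natDegree *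
          (Nat.card E * Nat.card {a : Fin m → E //
            MvPolynomial.eval a (MvPolynomial.map (algebraMap F E) H) = 0}) +
        C * Q * Nat.card E ^ m := by ring
    _ ≤ Nat.card E * Nat.card {ψ : B →ₐ[F] E // ψ b ≠ 0} + f.natDegree *
          (H.totalDegree * Nat.card E ^ m) * Q + C * Q * Nat.card E ^ m := by
        refine Nat.add_le_add_right (Nat.add_le_add_left ?_ _) _
        calc _ ≤ f.natDegree * (H.totalDegree * Nat.card E ^ m) :=
              Nat.mul_le_mul_left _ (hZ.trans (Nat.mul_le_mul_right _ hHdeg))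
          _ ≤ _ := Nat.le_mul_of_pos_right _ hQ1
    _ = _ := by ring

end Pool.Agent.Lib.MP_305fdd_al.LW
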