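import Pool.Agent.Lib.MP_305fdd_al.LW.Main
import Pool.Agent.Lib.MP_305fdd_al.Rep.Krull

/-!
# MP_305fdd_al (LW): linear representations of groups in the genus of a free group factor through the
maximal residually-`p` quotient
-/

set_option autoImplicit false

namespace Pool.Agent.Lib.MP_305fdd_al.LW

open Pool.Agent.MP_305fdd_al Matrix

universe u

/-- `λ` is killed by all homomorphisms to finite `p`-groups -/
def PKilled (p : ℕ) {Λ : Type} [Group Λ] (x : Λ) : Prop :=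
  ∀ (P : Type) [Group P] [Finite P], IsPGroup p P → ∀ f : Λ →* P, f x = 1

section pgroup

variable {R : Type*} [CommRing R] {N : ℕ} {p : ℕ}

theorem pow_p_step (hp : p.Prime) {𝔫 : Ideal R} (hpn : (p : R) ∈ 𝔫) {i : ℕ} (hi : 1 ≤ i)
    {X : Matrix (Fin N) (Fin N) R} (hX : ∀ a b, (X - 1) a b ∈ 𝔫 ^ i) :
    ∀ a b, (X ^ p - 1) a b ∈ 𝔫 ^ (i + 1) := by
  intro a b
  have h1 : X = 1 + (X - 1) := by abel
  obtain ⟨r, hr⟩ := (Commute.one_left (X - 1)).exists_add_pow_prime_eq hp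
  rw [← h1] at hr
  rw [hr, one_pow]
  have h2 : (1 + (X - 1) ^ p + (p : Matrix (Fin N) (Fin N) R) * 1 * (X - 1) * r - 1 :
      Matrix (Fin N) (Fin N) R) a b = ((X - 1) ^ p) a b + (p : R) * ((X - 1) * r) a b := by
    have h3 : (p : Matrix (Fin N) (Fin N) R) * 1 * (X - 1) * r = (p : R) • ((X - 1) * r) := by
      rw [mul_one, mul_assoc]
      rw [← nsmul_eq_mul, ← Nat.cast_smul_eq_nsmul R]
    rw [h3]
    simp only [Matrix.sub_apply, Matrix.add_apply, Matrix.smul_apply, smul_eq_mul]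
    ring
  rw [h2]
  have hmul : ∀ {Y Z : Matrix (Fin N) (Fin N) R} {J : Ideal R}, (∀ a b, Y a b ∈ J) →
      ∀ a b, (Y * Z) a b ∈ J := by
    intro Y Z J hY a b
    rw [Matrix.mul_apply]
    exact Ideal.sum_mem _ fun c _ => Ideal.mul_mem_right _ _ (hY a c)
  apply Ideal.add_mem
  · -- `(X - 1) ^ p` has entries in `𝔫 ^ (2 i)`
    obtain ⟨q, rfl⟩ : ∃ q, p = 2 + q := ⟨p - 2, by have := hp.two_le; omega⟩
    rw [pow_add (X - 1)]
    apply hmul
    intro a b
    rw [pow_two, Matrix.mul_apply]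
    refine Ideal.sum_mem _ fun c _ => ?_
    have h4 : (X - 1) a c * (X - 1) c b ∈ 𝔫 ^ i * 𝔫 ^ i := Ideal.mul_mem_mul (hX a c) (hX c b)
    rw [← pow_add] at h4
    exact Ideal.pow_le_pow_right (by omega) h4
  · have h4 : (p : R) * ((X - 1) * r) a b ∈ 𝔫 * 𝔫 ^ i := Ideal.mul_mem_mul hpn (hmul hX a b)
    rwa [← pow_succ'] at h4

theorem pow_p_pow (hp : p.Prime) {𝔫 : Ideal R} (hpn : (p : R) ∈ 𝔫)
    {X : Matrix (Fin N) (Fin N) R} (hX : ∀ a b, (X - 1) a b ∈ 𝔫) (j : ℕ) :
    ∀ a b, (X ^ p ^ j - 1) a b ∈ 𝔫 ^ (j + 1) := by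
  induction j with
  | zero => simpa using hX
  | succ j ih =>
    rw [pow_succ p, pow_mul]
    exact pow_p_step hp hpn (by omega) ih

theorem entries_mem_pow {Λ : Type} [Group Λ] (hp : p.Prime) {O : Type} [CommRing O]
    [Algebra.FiniteType ℤ O] {𝔫 : Ideal O} (hm : 𝔫.IsMaximal) (hpn : (p : O) ∈ 𝔫)
    (ρ : Λ →* Matrix (Fin N) (Fin N) O) (hρ : ∀ x a b, (ρ x - 1) a b ∈ 𝔫) {x : Λ}
    (hx : PKilled p x) (j : ℕ) : ∀ a b, (ρ x - 1) a b ∈ 𝔫 ^ j := by
  have hfin : Finite (O ⧸ 𝔫 ^ j) := Rep.finite_quotient_pow O 𝔫 hm j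
  let ρj : Λ →* GL (Fin N) (O ⧸ 𝔫 ^ j) :=
    ((RingHom.mapMatrix (Ideal.Quotient.mk (𝔫 ^ j))).toMonoidHom.comp ρ).toHomUnits
  have hval : ∀ y, ((ρj y : GL (Fin N) (O ⧸ 𝔫 ^ j)) : Matrix (Fin N) (Fin N) (O ⧸ 𝔫 ^ j)) =
      (ρ y).map (Ideal.Quotient.mk (𝔫 ^ j)) := fun y => rfl
  have hP : IsPGroup p ρj.range := by
    rintro ⟨_, y, rfl⟩
    refine ⟨j, ?_⟩
    apply Subtype.ext
    apply Units.ext
    change ((ρj y : GL (Fin N) (O ⧸ 𝔫 ^ j)) : Matrix (Fin N) (Fin N) (O ⧸ 𝔫 ^ j)) ^ p ^ j = 1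
    rw [hval]
    have h1 : ((ρ y).map (Ideal.Quotient.mk (𝔫 ^ j))) ^ p ^ j =
        ((ρ y) ^ p ^ j).map (Ideal.Quotient.mk (𝔫 ^ j)) :=
      (map_pow (RingHom.mapMatrix (m := Fin N) (Ideal.Quotient.mk (𝔫 ^ j))) (ρ y) (p ^ j)).symm
    rw [h1]
    ext a b
    have h2 := Ideal.pow_le_pow_right (Nat.le_succ j) (pow_p_pow hp hpn (hρ y) j a b)
    rw [Matrix.sub_apply, ← Ideal.Quotient.eq] at h2
    rw [Matrix.map_apply, h2, Matrix.one_apply, Matrix.one_apply]
    split_ifs <;> simp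
  have h3 := hx ρj.range hP ρj.rangeRestrict
  have h4 : ρj x = 1 := congrArg Subtype.val h3
  intro a b
  have h5 := congrArg (fun g : GL (Fin N) (O ⧸ 𝔫 ^ j) =>
    (g : Matrix (Fin N) (Fin N) (O ⧸ 𝔫 ^ j)) a b) h4
  simp only [hval, Matrix.map_apply, Units.val_one] at h5
  rw [Matrix.sub_apply, ← Ideal.Quotient.eq, h5, Matrix.one_apply, Matrix.one_apply]
  split_ifs <;> simp

end pgroup

/-- the augmentation of the universal representation ring: the trivial representation -/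
noncomputable def aug (k Λ : Type) [CommRing k] [Group Λ] (N : ℕ) : RepRing k Λ N →+* k :=
  RepRing.lift (RingHom.id k) 1

theorem aug_univ {k Λ : Type} [CommRing k] [Group Λ] {N : ℕ} (x : Λ) (a b : Fin N) :
    aug k Λ N ((RepRing.univ k Λ N x - 1) a b) = 0 := by
  rw [Matrix.sub_apply, map_sub, aug, RepRing.lift_univ, MonoidHom.one_apply, Matrix.one_apply,
    Matrix.one_apply]
  split_ifs <;> simp

theorem aug_surjective (k Λ : Type) [CommRing k] [Group Λ] (N : ℕ) :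
    Function.Surjective (aug k Λ N) := fun c =>
  ⟨algebraMap k _ c, RepRing.lift_algebraMap _ _ _⟩

/-- a non-zero element of a finitely generated domain of characteristic zero is not divisible by
infinitely many primes -/
theorem exists_prime_not_dvd {A : Type*} [CommRing A] [IsDomain A] [Algebra.FiniteType ℤ A]
    [CharZero A] {a : A} (ha : a ≠ 0) (B : ℕ) :
    ∃ ℓ : ℕ, ℓ.Prime ∧ B < ℓ ∧ ¬ (ℓ : A) ∣ a := by
  have hjac : IsJacobsonRing A := isJacobsonRing_of_finiteType (A := ℤ)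
  have h0 : ((B.factorial : ℕ) : A) * a ≠ 0 :=
    mul_ne_zero (Nat.cast_ne_zero.2 (Nat.factorial_ne_zero B)) ha
  have h1 : ((B.factorial : ℕ) : A) * a ∉ (⊥ : Ideal A).jacobson := by
    rw [(isJacobsonRing_iff_prime_eq.1 hjac) ⊥ Ideal.isPrime_bot]
    simpa using h0
  rw [Ideal.jacobson, Submodule.mem_sInf] at h1
  push Not at h1
  obtain ⟨𝔪, ⟨_, hm⟩, hmem⟩ := h1
  have hfin := Rep.finite_quotient_pow A 𝔪 hm 1
  rw [pow_one] at hfin
  let F : Field (A ⧸ 𝔪) := Ideal.Quotient.field 𝔪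
  obtain ⟨ℓ, hℓ⟩ := CharP.exists (A ⧸ 𝔪)
  have hpr : ℓ.Prime := by
    rcases CharP.char_is_prime_or_zero (A ⧸ 𝔪) ℓ with h | h
    · exact h
    · subst h
      have := CharP.charP_to_charZero (A ⧸ 𝔪)
      exact absurd (inferInstance : Infinite (A ⧸ 𝔪)) (not_infinite_iff_finite.2 hfin)
  have hℓm : (ℓ : A) ∈ 𝔪 := by
    rw [← Ideal.Quotient.eq_zero_iff_mem, map_natCast]
    exact CharP.cast_eq_zero _ _
  refine ⟨ℓ, hpr, ?_, ?_⟩
  · by_contra hle
    push Not at hle
    apply hmem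
    obtain ⟨c, hc⟩ := (hpr.dvd_factorial).2 hle
    rw [hc, Nat.cast_mul, mul_assoc]
    exact Ideal.mul_mem_right _ _ hℓm
  · intro hdvd
    apply hmem
    exact Ideal.mul_mem_left _ _ (Ideal.mem_of_dvd 𝔪 hdvd hℓm)

theorem finiteType_int (Λ : Type) [Group Λ] [Group.FG Λ] (N : ℕ) :
    @Algebra.FiniteType ℤ (RepRing ℤ Λ N) _ _ (Ring.toIntAlgebra _) := by
  have h2 : @Algebra.FiniteType ℤ (RepRing ℤ Λ N) _ _ (instAlgebraRepRing ℤ Λ N) := inferInstance
  have e : instAlgebraRepRing ℤ Λ N = Ring.toIntAlgebra (RepRing ℤ Λ N) := Subsingleton.elim _ _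
  rw [← e]
  exact h2

theorem finiteType_int_zmod (p : ℕ) [Fact p.Prime] (Λ : Type) [Group Λ] [Group.FG Λ] (N : ℕ) :
    Algebra.FiniteType ℤ (RepRing (ZMod p) Λ N) := by
  have h1 : Algebra.FiniteType ℤ (ZMod p) :=
    Algebra.FiniteType.of_surjective (Algebra.ofId ℤ (ZMod p)) (ZMod.intCast_surjective)
  exact Algebra.FiniteType.trans h1 inferInstance

/-- the characteristic `p` case -/
theorem killed_charP (HD : DomainStatement) (HR : SeriesStatement) {n N : ℕ} {Λ : Type} [Group Λ]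
    [Group.FG Λ] (h : SameFiniteQuotients Λ (FreeGroup (Fin n))) (p : ℕ) [Fact p.Prime]
    {x : Λ} (hx : PKilled p x) (a b : Fin N) :
    (RepRing.univ (ZMod p) Λ N x - 1) a b = 0 := by
  have hft := finiteType_int_zmod p Λ N
  have hN : IsNoetherianRing (RepRing (ZMod p) Λ N) := Algebra.FiniteType.isNoetherianRing ℤ _
  have hnt : Nontrivial (RepRing (ZMod p) Λ N) := (aug (ZMod p) Λ N).domain_nontrivial
  have hnz : NoZeroDivisors (RepRing (ZMod p) Λ N) :=
    ⟨fun {x y} hxy => noZeroDivisors HD HR h p x y hxy⟩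
  have hdom : IsDomain (RepRing (ZMod p) Λ N) := NoZeroDivisors.to_isDomain _
  let 𝔫 : Ideal (RepRing (ZMod p) Λ N) := RingHom.ker (aug (ZMod p) Λ N)
  have hm : 𝔫.IsMaximal := RingHom.ker_isMaximal_of_surjective _ (aug_surjective _ _ _)
  have hpn : (p : RepRing (ZMod p) Λ N) ∈ 𝔫 := by
    rw [RingHom.mem_ker, map_natCast]
    exact ZMod.natCast_self p
  have hmem := entries_mem_pow (Fact.out : p.Prime) hm hpn (RepRing.univ (ZMod p) Λ N)
    (fun y a b => RingHom.mem_ker.2 (aug_univ y a b)) hx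
  have hinf := Ideal.iInf_pow_eq_bot_of_isDomain 𝔫 hm.ne_top
  have : (RepRing.univ (ZMod p) Λ N x - 1) a b ∈ (⨅ j : ℕ, 𝔫 ^ j) :=
    (Submodule.mem_iInf _).2 fun j => hmem j a b
  rw [hinf] at this
  simpa using this

/-- **Main theorem.** -/
theorem killed (HD : DomainStatement) (HR : SeriesStatement) {n N : ℕ} {Λ : Type} [Group Λ]
    [Group.FG Λ] (h : SameFiniteQuotients Λ (FreeGroup (Fin n))) (p : ℕ) [Fact p.Prime]
    {K : Type u} [Field K] (hK : CharZero K ∨ CharP K p) (ρ : Λ →* GL (Fin N) K) {x : Λ}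
    (hx : PKilled p x) : ρ x = 1 := by
  let ρ' : Λ →* Matrix (Fin N) (Fin N) K := (Units.coeHom _).comp ρ
  have hρ' : ∀ y a b, ρ' y a b = (ρ y : Matrix (Fin N) (Fin N) K) a b := fun _ _ _ => rfl
  rcases hK with hK | hK
  · -- characteristic zero
    apply Units.ext
    rw [Units.val_one]
    ext a b
    by_contra hne
    let φ : RepRing ℤ Λ N →+* K := RepRing.lift (Int.castRingHom K) ρ'
    have hft : @Algebra.FiniteType ℤ (RepRing ℤ Λ N) _ _ (Ring.toIntAlgebra _) :=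
      finiteType_int Λ N
    have hN : IsNoetherianRing (RepRing ℤ Λ N) :=
      @Algebra.FiniteType.isNoetherianRing ℤ (RepRing ℤ Λ N) _ _ (Ring.toIntAlgebra _) hft _
    set z : RepRing ℤ Λ N := (RepRing.univ ℤ Λ N x - 1) a b with hz
    have hφz : φ z ≠ 0 := by
      intro h0
      apply hne
      rw [hz, Matrix.sub_apply, map_sub, RepRing.lift_univ, sub_eq_zero] at h0
      rw [← hρ', h0, Matrix.one_apply, Matrix.one_apply]
      split_ifs <;> simp
    -- Krull at the trivial representation modulo `p`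
    let τ : RepRing ℤ Λ N →+* ZMod p := (Int.castRingHom (ZMod p)).comp (aug ℤ Λ N)
    let 𝔫 : Ideal (RepRing ℤ Λ N) := RingHom.ker τ
    have hτ : Function.Surjective τ := (ZMod.intCast_surjective).comp (aug_surjective _ _ _)
    have hm : 𝔫.IsMaximal := RingHom.ker_isMaximal_of_surjective _ hτ
    have hpn : (p : RepRing ℤ Λ N) ∈ 𝔫 := by
      rw [RingHom.mem_ker, map_natCast]
      exact ZMod.natCast_self p
    have hmem := entries_mem_pow (Fact.out : p.Prime) hm hpn (RepRing.univ ℤ Λ N)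
      (fun y a b => by
        rw [RingHom.mem_ker]
        change Int.castRingHom (ZMod p) (aug ℤ Λ N _) = 0
        rw [aug_univ, map_zero]) hx
    have hinf : z ∈ (⨅ j : ℕ, 𝔫 ^ j • (⊤ : Submodule (RepRing ℤ Λ N) (RepRing ℤ Λ N))) := by
      rw [Submodule.mem_iInf]
      intro j
      have h1 : z • (1 : RepRing ℤ Λ N) ∈ 𝔫 ^ j • (⊤ : Submodule (RepRing ℤ Λ N) (RepRing ℤ Λ N)) :=
        Submodule.smul_mem_smul (hmem j a b) Submodule.mem_top
      have h2 : z • (1 : RepRing ℤ Λ N) = z := by rw [smul_eq_mul, mul_one]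
      rwa [h2] at h1
    obtain ⟨⟨y, hy⟩, hyz⟩ := (Ideal.mem_iInf_smul_pow_eq_bot_iff 𝔫 z).1 hinf
    have hyz' : (1 - y) * z = 0 := by
      have : y * z = z := hyz
      rw [sub_mul, one_mul, this, sub_self]
    -- the augmentation of `1 - y` is a non-zero integer
    have haug : aug ℤ Λ N (1 - y) ≠ 0 := by
      intro h0
      rw [map_sub, map_one, sub_eq_zero] at h0
      have h1 : Int.castRingHom (ZMod p) (aug ℤ Λ N y) = 0 := hy
      rw [← h0, map_one] at h1
      exact one_ne_zero h1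
    -- choose a large prime not dividing the image of `z`
    let A : Subring K := φ.range
    have hAft : Algebra.FiniteType ℤ A := by
      have hsurj : Function.Surjective φ.rangeRestrict := φ.rangeRestrict_surjective
      exact @Algebra.FiniteType.of_surjective ℤ (RepRing ℤ Λ N) A _ _ _ (Ring.toIntAlgebra _) _ hft
        (@RingHom.toIntAlgHom (RepRing ℤ Λ N) A _ _ φ.rangeRestrict) hsurj
    have hA0 : CharZero A := inferInstance
    have hzA : φ.rangeRestrict z ≠ 0 := fun h0 => hφz (congrArg Subtype.val h0)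
    obtain ⟨ℓ, hℓ, hbig, hndvd⟩ := exists_prime_not_dvd hzA (aug ℤ Λ N (1 - y)).natAbs
    have : Fact ℓ.Prime := ⟨hℓ⟩
    -- reduction modulo `ℓ`
    let red : RepRing ℤ Λ N →+* RepRing (ZMod ℓ) Λ N :=
      RepRing.lift (algebraMap ℤ _) (RepRing.univ (ZMod ℓ) Λ N)
    have hred : ∀ w : RepRing ℤ Λ N, red w = 0 → (ℓ : RepRing ℤ Λ N) ∣ w := by
      intro w hw
      let I : Ideal (RepRing ℤ Λ N) := Ideal.span {(ℓ : RepRing ℤ Λ N)}
      have hchar : (ℓ : RepRing ℤ Λ N ⧸ I) = 0 := by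
        have : Ideal.Quotient.mk I (ℓ : RepRing ℤ Λ N) = 0 :=
          Ideal.Quotient.eq_zero_iff_mem.2 (Ideal.mem_span_singleton_self _)
        rwa [map_natCast] at this
      let c : ZMod ℓ →+* (RepRing ℤ Λ N ⧸ I) :=
        (Ideal.Quotient.lift (Ideal.span {(ℓ : ℤ)}) (Int.castRingHom _) (by
          intro t ht
          obtain ⟨s, rfl⟩ := Ideal.mem_span_singleton'.1 ht
          rw [map_mul, map_natCast, hchar, mul_zero])).comp
          (Int.quotientSpanNatEquivZMod ℓ).symm.toRingHom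
      let back : RepRing (ZMod ℓ) Λ N →+* (RepRing ℤ Λ N ⧸ I) :=
        RepRing.lift c ((RingHom.mapMatrix (Ideal.Quotient.mk I)).toMonoidHom.comp
          (RepRing.univ ℤ Λ N))
      have hcomp : back.comp red = Ideal.Quotient.mk I := by
        apply RepRing.hom_ext
        · intro c
          simp
        · intro y a b
          rw [RingHom.comp_apply, RepRing.lift_univ, RepRing.lift_univ]
          rfl
      have h1 : Ideal.Quotient.mk I w = 0 := by
        rw [← hcomp, RingHom.comp_apply, hw, map_zero]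
      exact Ideal.mem_span_singleton.1 (Ideal.Quotient.eq_zero_iff_mem.1 h1)
    have hprod : red (1 - y) * red z = 0 := by rw [← map_mul, hyz', map_zero]
    rcases noZeroDivisors HD HR h ℓ _ _ hprod with h0 | h0
    · -- `ℓ` divides the augmentation
      obtain ⟨w, hw⟩ := hred _ h0
      have h1 := congrArg (aug ℤ Λ N) hw
      rw [map_mul, map_natCast] at h1
      have h2 : (ℓ : ℤ) ∣ aug ℤ Λ N (1 - y) := ⟨_, h1⟩
      have h3 := Int.natAbs_dvd_natAbs.2 h2
      have h4 := Nat.le_of_dvd (Int.natAbs_pos.2 haug) h3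
      simp only [Int.natAbs_natCast] at h4
      omega
    · obtain ⟨w, hw⟩ := hred _ h0
      apply hndvd
      refine ⟨φ.rangeRestrict w, ?_⟩
      rw [hw, map_mul, map_natCast]
  · -- characteristic `p`
    have key := fun a b => killed_charP (N := N) HD HR h p hx a b
    let f : ZMod p →+* K := ZMod.castHom (dvd_refl p) K
    apply Units.ext
    rw [Units.val_one]
    ext a b
    have h1 := congrArg (RepRing.lift f ρ') (key a b)
    rw [Matrix.sub_apply, map_sub, map_zero, RepRing.lift_univ, sub_eq_zero] at h1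
    rw [← hρ', h1, Matrix.one_apply, Matrix.one_apply]
    split_ifs <;> simp

end Pool.Agent.Lib.MP_305fdd_al.LW
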