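import Pool.Agent.Lib.MP_305fdd_al.Free
import Pool.Agent.Lib.MP_305fdd_al.Rep.Transfer
import Pool.Agent.Lib.MP_f3dc04_al.FreeRes

/-!
# MP_305fdd_al (LW): the nilpotent quotients of a group in the genus of a free group
-/

set_option autoImplicit false

namespace Pool.Agent.Lib.MP_305fdd_al.LW

open Pool.Agent.MP_305fdd_al Pool.Agent.Lib.MP_305fdd_al

open scoped commutatorElement

/-- in a nilpotent group, a subgroup which is everything modulo the commutators is everything -/
theorem eq_top_of_sup_commutator (G : Type) [Group G] [Group.IsNilpotent G] :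
    ∀ H : Subgroup G, H ⊔ commutator G = ⊤ → H = ⊤ := by
  apply @Group.nilpotent_center_quotient_ind
    (fun G _ _ => ∀ H : Subgroup G, H ⊔ commutator G = ⊤ → H = ⊤) G _ _
  · intro G _ _ H _
    exact Subsingleton.elim _ _
  · intro G _ _ ih H hH
    -- the image in the quotient by the centre
    have h1 : H.map (QuotientGroup.mk' (Subgroup.center G)) = ⊤ := by
      apply ih
      have hcomm : (commutator G).map (QuotientGroup.mk' (Subgroup.center G)) =
          commutator (G ⧸ Subgroup.center G) := by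
        rw [commutator_def, commutator_def, Subgroup.map_commutator,
          Subgroup.map_top_of_surjective _ (QuotientGroup.mk'_surjective _)]
      rw [← hcomm, ← Subgroup.map_sup, hH,
        Subgroup.map_top_of_surjective _ (QuotientGroup.mk'_surjective _)]
    have h2 : H ⊔ Subgroup.center G = ⊤ := by
      have := congrArg (Subgroup.comap (QuotientGroup.mk' (Subgroup.center G))) h1
      rw [Subgroup.comap_map_eq, Subgroup.comap_top, QuotientGroup.ker_mk'] at this
      exact this
    -- `H` contains the commutators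
    have h3 : commutator G ≤ H := by
      rw [commutator_def, Subgroup.commutator_le]
      intro x _ y _
      have hdec : ∀ x : G, ∃ a ∈ H, ∃ z ∈ Subgroup.center G, x = a * z := by
        intro x
        have hx : x ∈ H ⊔ Subgroup.center G := h2 ▸ Subgroup.mem_top x
        rw [← SetLike.mem_coe, Subgroup.mul_normal H (Subgroup.center G)] at hx
        obtain ⟨a, ha, z, hz, h⟩ := hx
        exact ⟨a, ha, z, hz, h.symm⟩
      obtain ⟨a, ha, z, hz, rfl⟩ := hdec x
      obtain ⟨b, hb, w, hw, rfl⟩ := hdec y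
      have hz' := Subgroup.mem_center_iff.1 hz
      have hw' := Subgroup.mem_center_iff.1 hw
      have : ⁅a * z, b * w⁆ = ⁅a, b⁆ := by
        rw [commutatorElement_def, commutatorElement_def]
        calc a * z * (b * w) * (a * z)⁻¹ * (b * w)⁻¹
            = a * (z * b) * w * z⁻¹ * a⁻¹ * w⁻¹ * b⁻¹ := by group
          _ = a * (b * z) * w * z⁻¹ * a⁻¹ * w⁻¹ * b⁻¹ := by rw [hz' b]
          _ = a * b * (z * w) * z⁻¹ * a⁻¹ * w⁻¹ * b⁻¹ := by group
          _ = a * b * (w * z) * z⁻¹ * a⁻¹ * w⁻¹ * b⁻¹ := by rw [hz' w]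
          _ = a * b * (w * a⁻¹) * w⁻¹ * b⁻¹ := by group
          _ = a * b * (a⁻¹ * w) * w⁻¹ * b⁻¹ := by rw [hw' a⁻¹]
          _ = a * b * a⁻¹ * b⁻¹ := by group
      rw [this, commutatorElement_def]
      exact H.mul_mem (H.mul_mem (H.mul_mem ha hb) (H.inv_mem ha)) (H.inv_mem hb)
    rw [← hH, sup_eq_left.2 h3]

theorem proj_of_same {Λ : Type} [Group Λ] [Group.FG Λ] {n : ℕ}
    (h : SameFiniteQuotients Λ (FreeGroup (Fin n))) : Proj Λ := by
  intro E Q _ _ _ _ f hf θ
  refine Rep.lift_transfer h f (fun _ => True) ?_ θ trivial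
  intro α _
  choose s hs using hf
  refine ⟨FreeGroup.lift fun i => s (α (FreeGroup.of i)), ?_⟩
  ext i
  simp [hs]

theorem abRank_of_same {Λ : Type} [Group Λ] [Group.FG Λ] {n : ℕ}
    (h : SameFiniteQuotients Λ (FreeGroup (Fin n))) : AbRank Λ n := by
  obtain ⟨r, p, hp, hfac⟩ := abRank_of_proj Λ (proj_of_same h)
  have key : r = n := by
    have h1 : Nat.card (Λ →* Multiplicative (ZMod 2)) =
        Nat.card (FreeGroup (Fin n) →* Multiplicative (ZMod 2)) := by
      have : Finite (Multiplicative (ZMod 2)) := (inferInstance : Finite (ZMod 2))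
      exact hc_eq_of_same _ h
    have h2 : Nat.card (FreeGroup (Fin n) →* Multiplicative (ZMod 2)) = 2 ^ n := by
      rw [Nat.card_congr (FreeGroup.lift (α := Fin n) (β := Multiplicative (ZMod 2))).symm,
        Nat.card_fun, Nat.card_eq_fintype_card (α := Fin n), Fintype.card_fin]
      congr 1
      exact Nat.card_zmod 2
    have h3 : Nat.card (Λ →* Multiplicative (ZMod 2)) = 2 ^ r := by
      have e1 : (Λ →* Multiplicative (ZMod 2)) ≃
          (Multiplicative (Fin r →₀ ℤ) →* Multiplicative (ZMod 2)) := by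
        symm
        refine Equiv.ofBijective (fun g => g.comp p) ⟨?_, ?_⟩
        · intro g g' hg
          exact (MonoidHom.cancel_right hp).1 hg
        · intro f
          obtain ⟨g, hg⟩ := hfac _ f
          exact ⟨g, hg.symm⟩
      have e2 : (Multiplicative (Fin r →₀ ℤ) →* Multiplicative (ZMod 2)) ≃ (Fin r → ZMod 2) :=
        (AddMonoidHom.toMultiplicative (α := Fin r →₀ ℤ) (β := ZMod 2)).symm.trans
          ((Finsupp.liftAddHom (α := Fin r) (M := ℤ) (N := ZMod 2)).symm.toEquiv.trans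
            (Equiv.piCongrRight fun _ => (zmultiplesHom (ZMod 2)).symm))
      rw [Nat.card_congr e1, Nat.card_congr e2, Nat.card_fun,
        Nat.card_eq_fintype_card (α := Fin r), Fintype.card_fin, Nat.card_zmod]
    rw [h1, h2] at h3
    exact (Nat.pow_right_injective le_rfl h3).symm
  subst key
  exact ⟨p, hp, hfac⟩

theorem exists_gens {Λ : Type} [Group Λ] [Group.FG Λ] {n : ℕ}
    (h : SameFiniteQuotients Λ (FreeGroup (Fin n))) :
    ∃ φ : FreeGroup (Fin n) →* Λ, φ.range ⊔ commutator Λ = ⊤ := by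
  obtain ⟨p, hp, hfac⟩ := abRank_of_same h
  choose s hs using hp
  let φ : FreeGroup (Fin n) →* Λ :=
    FreeGroup.lift fun i => s (Multiplicative.ofAdd (Finsupp.single i 1))
  refine ⟨φ, ?_⟩
  -- the range maps onto `ℤ^n`
  have h1 : ∀ v : Fin n →₀ ℤ, ∃ y ∈ φ.range, p y = Multiplicative.ofAdd v := by
    intro v
    induction v using Finsupp.induction_linear with
    | zero => exact ⟨1, one_mem _, by rw [map_one]; rfl⟩
    | add f g hf hg =>
      obtain ⟨y, hy, hy'⟩ := hf
      obtain ⟨z, hz, hz'⟩ := hg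
      exact ⟨y * z, mul_mem hy hz, by rw [map_mul, hy', hz']; rfl⟩
    | single i c =>
      refine ⟨(φ (FreeGroup.of i)) ^ c, Subgroup.zpow_mem φ.range ⟨_, rfl⟩ c, ?_⟩
      rw [map_zpow]
      have : p (φ (FreeGroup.of i)) = Multiplicative.ofAdd (Finsupp.single i 1) := by
        simp only [φ, FreeGroup.lift_apply_of]
        exact hs _
      rw [this, ← ofAdd_zsmul, Finsupp.smul_single, smul_eq_mul, mul_one]
  -- the kernel of `p` is contained in the commutator subgroup
  have h2 : p.ker ≤ commutator Λ := by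
    obtain ⟨g, hg⟩ := hfac (Abelianization Λ) Abelianization.of
    intro x hx
    rw [← Abelianization.ker_of, MonoidHom.mem_ker, hg, MonoidHom.comp_apply,
      MonoidHom.mem_ker.1 hx, map_one]
  rw [eq_top_iff]
  intro x _
  obtain ⟨y, hy, hy'⟩ := h1 (Multiplicative.toAdd (p x))
  have h3 : y⁻¹ * x ∈ commutator Λ := by
    apply h2
    rw [MonoidHom.mem_ker, map_mul, map_inv, hy']
    exact inv_mul_cancel _
  have h4 : x = y * (y⁻¹ * x) := by group
  rw [h4]
  exact Subgroup.mul_mem_sup hy h3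

/-- the lower central series -/
abbrev lcs (G : Type) [Group G] (k : ℕ) : Subgroup G := (⊤ : Subgroup G).lowerCentralSeries k

theorem map_lcs {G H : Type} [Group G] [Group H] (f : G →* H) (hf : Function.Surjective f) (k : ℕ) :
    (lcs G k).map f = lcs H k := by
  rw [Subgroup.map_lowerCentralSeries, Subgroup.map_top_of_surjective _ hf]

theorem same_lcs {G H : Type} [Group G] [Group H] (h : SameFiniteQuotients G H) (k : ℕ) :
    SameFiniteQuotients (G ⧸ lcs G k) (H ⧸ lcs H k) := by
  have aux : ∀ {G H : Type} [Group G] [Group H], SameFiniteQuotients G H → ∀ (Q : Type) [Group Q]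
      [Finite Q], (∃ φ : (G ⧸ lcs G k) →* Q, Function.Surjective φ) →
        ∃ φ : (H ⧸ lcs H k) →* Q, Function.Surjective φ := by
    rintro G H _ _ h Q _ _ ⟨φ, hφ⟩
    have hs : Function.Surjective (φ.comp (QuotientGroup.mk' (lcs G k))) :=
      hφ.comp (QuotientGroup.mk'_surjective _)
    obtain ⟨ψ, hψ⟩ := (h Q).1 ⟨_, hs⟩
    have h1 : lcs Q k = ⊥ := by
      rw [← map_lcs _ hs k, eq_bot_iff, Subgroup.map_le_iff_le_comap]
      intro x hx
      rw [Subgroup.mem_comap, Subgroup.mem_bot, MonoidHom.comp_apply]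
      have : QuotientGroup.mk' (lcs G k) x = 1 := (QuotientGroup.eq_one_iff x).2 hx
      rw [this, map_one]
    have h2 : lcs H k ≤ ψ.ker := by
      intro x hx
      have : ψ x ∈ (lcs H k).map ψ := Subgroup.mem_map_of_mem ψ hx
      rw [map_lcs _ hψ, h1, Subgroup.mem_bot] at this
      exact this
    refine ⟨QuotientGroup.lift (lcs H k) ψ h2, ?_⟩
    intro q
    obtain ⟨x, rfl⟩ := hψ q
    exact ⟨QuotientGroup.mk' _ x, rfl⟩
  exact fun Q _ _ => ⟨aux h Q, aux h.symm Q⟩

theorem rf_lcs (n k : ℕ) : Group.ResiduallyFinite (FreeGroup (Fin n) ⧸ lcs (FreeGroup (Fin n)) k) := by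
  rw [Group.residuallyFinite_iff_exists_finiteIndex]
  intro g hg
  obtain ⟨x, rfl⟩ := QuotientGroup.mk_surjective g
  have hx : x ∉ lcs (FreeGroup (Fin n)) k := fun hx => hg ((QuotientGroup.eq_one_iff x).2 hx)
  have : Fact (Nat.Prime 2) := ⟨Nat.prime_two⟩
  obtain ⟨E, _, _, φ, _, hle, hne⟩ := Pool.Agent.Lib.MP_f3dc04_al.resP_lcs 2 (Fin n) k x hx
  let ψ := QuotientGroup.lift (lcs (FreeGroup (Fin n)) k) φ hle
  refine ⟨ψ.ker, Subgroup.finiteIndex_ker _, ?_⟩
  rw [MonoidHom.mem_ker]
  exact hne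

/-- **the nilpotent quotients of a group in the genus of a free group** -/
theorem lcs_equiv {Λ : Type} [Group Λ] [Group.FG Λ] {n : ℕ}
    (h : SameFiniteQuotients Λ (FreeGroup (Fin n))) (k : ℕ) :
    Nonempty (Λ ⧸ lcs Λ k ≃* FreeGroup (Fin n) ⧸ lcs (FreeGroup (Fin n)) k) := by
  obtain ⟨φ, hφ⟩ := exists_gens h
  have hle : lcs (FreeGroup (Fin n)) k ≤ (lcs Λ k).comap φ := by
    intro x hx
    exact Pool.Agent.Lib.MP_f3dc04_al.map_lcs_le φ k x hx
  let ψ : (FreeGroup (Fin n) ⧸ lcs (FreeGroup (Fin n)) k) →* (Λ ⧸ lcs Λ k) :=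
    QuotientGroup.map _ _ φ hle
  have hnil : Group.IsNilpotent (Λ ⧸ lcs Λ k) := by
    rw [Subgroup.nilpotent_iff_lowerCentralSeries]
    refine ⟨k, ?_⟩
    have h0 := map_lcs _ (QuotientGroup.mk'_surjective (lcs Λ k)) k
    change lcs (Λ ⧸ lcs Λ k) k = ⊥
    rw [← h0, eq_bot_iff, Subgroup.map_le_iff_le_comap]
    intro x hx
    exact (QuotientGroup.eq_one_iff x).2 hx
  have hsurj : Function.Surjective ψ := by
    rw [← MonoidHom.range_eq_top]
    apply eq_top_of_sup_commutator
    have h1 : φ.range.map (QuotientGroup.mk' (lcs Λ k)) ≤ ψ.range := by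
      rintro _ ⟨_, ⟨x, rfl⟩, rfl⟩
      exact ⟨QuotientGroup.mk' _ x, rfl⟩
    have hcomm : (commutator Λ).map (QuotientGroup.mk' (lcs Λ k)) =
        commutator (Λ ⧸ lcs Λ k) := by
      rw [commutator_def, commutator_def, Subgroup.map_commutator,
        Subgroup.map_top_of_surjective _ (QuotientGroup.mk'_surjective _)]
    have h2 : (φ.range ⊔ commutator Λ).map (QuotientGroup.mk' (lcs Λ k)) = ⊤ := by
      rw [hφ]
      exact Subgroup.map_top_of_surjective _ (QuotientGroup.mk'_surjective (lcs Λ k))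
    rw [eq_top_iff, ← h2, Subgroup.map_sup, hcomm]
    exact sup_le_sup_right h1 _
  have hfg1 : Group.FG (FreeGroup (Fin n) ⧸ lcs (FreeGroup (Fin n)) k) :=
    Group.fg_of_surjective (QuotientGroup.mk'_surjective _)
  have hfg2 : Group.FG (Λ ⧸ lcs Λ k) := Group.fg_of_surjective (QuotientGroup.mk'_surjective _)
  have hrf := rf_lcs n k
  have hinj := injective_of_surj (same_lcs h k).symm ψ hsurj
  exact ⟨(MulEquiv.ofBijective ψ ⟨hinj, hsurj⟩).symm⟩

end Pool.Agent.Lib.MP_305fdd_al.LW
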