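import Mathlib

/-!
# MP_305fdd_al (LW): the universal representation ring
-/

set_option autoImplicit false

namespace Pool.Agent.Lib.MP_305fdd_al.LW

open MvPolynomial

variable (k Λ : Type) [CommRing k] [Group Λ] (N : ℕ)

/-- the matrix of variables attached to a group element -/
noncomputable def genMat (x : Λ) : Matrix (Fin N) (Fin N) (MvPolynomial (Λ × Fin N × Fin N) k) :=
  Matrix.of fun a b => X (x, a, b)

/-- the relations of a representation -/
noncomputable def repIdeal : Ideal (MvPolynomial (Λ × Fin N × Fin N) k) :=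
  Ideal.span (
    (Set.range fun p : Λ × Λ × Fin N × Fin N =>
      (genMat k Λ N (p.1 * p.2.1) - genMat k Λ N p.1 * genMat k Λ N p.2.1) p.2.2.1 p.2.2.2) ∪
    (Set.range fun p : Fin N × Fin N => (genMat k Λ N 1 - 1) p.1 p.2))

/-- The ring over `k` carrying the universal representation `Λ → M_N`. -/
def RepRing : Type := MvPolynomial (Λ × Fin N × Fin N) k ⧸ repIdeal k Λ N

noncomputable instance : CommRing (RepRing k Λ N) :=
  inferInstanceAs (CommRing (MvPolynomial (Λ × Fin N × Fin N) k ⧸ repIdeal k Λ N))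

noncomputable instance : Algebra k (RepRing k Λ N) :=
  inferInstanceAs (Algebra k (MvPolynomial (Λ × Fin N × Fin N) k ⧸ repIdeal k Λ N))

namespace RepRing

/-- the quotient map -/
noncomputable def mk : MvPolynomial (Λ × Fin N × Fin N) k →ₐ[k] RepRing k Λ N :=
  Ideal.Quotient.mkₐ k (repIdeal k Λ N)

theorem mk_surjective : Function.Surjective (mk k Λ N) := Ideal.Quotient.mkₐ_surjective _ _

variable {k Λ N}

theorem mk_eq_zero {f : MvPolynomial (Λ × Fin N × Fin N) k} (hf : f ∈ repIdeal k Λ N) :
    mk k Λ N f = 0 := Ideal.Quotient.eq_zero_iff_mem.2 hf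

variable (k Λ N)

/-- the universal representation -/
noncomputable def univ : Λ →* Matrix (Fin N) (Fin N) (RepRing k Λ N) where
  toFun x := Matrix.of fun a b => mk k Λ N (X (x, a, b))
  map_one' := by
    ext a b
    have h : (genMat k Λ N 1 - 1) a b ∈ repIdeal k Λ N :=
      Ideal.subset_span (Or.inr ⟨(a, b), rfl⟩)
    have h1 := mk_eq_zero h
    rw [Matrix.sub_apply, map_sub, sub_eq_zero] at h1
    change mk k Λ N (X (1, a, b)) = _
    change mk k Λ N (genMat k Λ N 1 a b) = _
    rw [h1, Matrix.one_apply, Matrix.one_apply]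
    split_ifs <;> simp
  map_mul' x y := by
    ext a b
    have h : (genMat k Λ N (x * y) - genMat k Λ N x * genMat k Λ N y) a b ∈ repIdeal k Λ N :=
      Ideal.subset_span (Or.inl ⟨(x, y, a, b), rfl⟩)
    have h1 := mk_eq_zero h
    rw [Matrix.sub_apply, map_sub, sub_eq_zero, Matrix.mul_apply, map_sum] at h1
    change mk k Λ N (genMat k Λ N (x * y) a b) = _
    rw [h1, Matrix.mul_apply]
    exact Finset.sum_congr rfl fun c _ => map_mul _ _ _

theorem univ_apply (x : Λ) (a b : Fin N) : univ k Λ N x a b = mk k Λ N (X (x, a, b)) := rfl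

variable {k Λ N}

/-- the universal property -/
noncomputable def lift {R : Type*} [CommRing R] (f : k →+* R)
    (ρ : Λ →* Matrix (Fin N) (Fin N) R) : RepRing k Λ N →+* R :=
  Ideal.Quotient.lift (repIdeal k Λ N)
    (eval₂Hom f fun p : Λ × Fin N × Fin N => ρ p.1 p.2.1 p.2.2) (by
      have key : repIdeal k Λ N ≤ RingHom.ker
          (eval₂Hom f fun p : Λ × Fin N × Fin N => ρ p.1 p.2.1 p.2.2) := by
        rw [repIdeal, Ideal.span_le]
        have hgen : ∀ x : Λ, (genMat k Λ N x).map
            (eval₂Hom f fun p : Λ × Fin N × Fin N => ρ p.1 p.2.1 p.2.2) = ρ x := by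
          intro x
          ext a b
          simp [genMat]
        rintro _ (⟨⟨x, y, a, b⟩, rfl⟩ | ⟨⟨a, b⟩, rfl⟩)
        · rw [SetLike.mem_coe, RingHom.mem_ker]
          have : ((genMat k Λ N (x * y) - genMat k Λ N x * genMat k Λ N y).map
            (eval₂Hom f fun p : Λ × Fin N × Fin N => ρ p.1 p.2.1 p.2.2)) a b = 0 := by
            rw [Matrix.map_sub _ (map_sub _), Matrix.map_mul, hgen, hgen, hgen, map_mul, sub_self]
            rfl
          exact this
        · rw [SetLike.mem_coe, RingHom.mem_ker]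
          have : ((genMat k Λ N 1 - 1).map
            (eval₂Hom f fun p : Λ × Fin N × Fin N => ρ p.1 p.2.1 p.2.2)) a b = 0 := by
            rw [Matrix.map_sub _ (map_sub _), hgen, map_one, Matrix.map_one _ (map_zero _)
              (map_one _), sub_self]
            rfl
          exact this
      exact fun x hx => key hx)

theorem lift_mk {R : Type*} [CommRing R] (f : k →+* R) (ρ : Λ →* Matrix (Fin N) (Fin N) R)
    (p : MvPolynomial (Λ × Fin N × Fin N) k) :
    lift f ρ (mk k Λ N p) = eval₂Hom f (fun p : Λ × Fin N × Fin N => ρ p.1 p.2.1 p.2.2) p := rfl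

theorem lift_univ {R : Type*} [CommRing R] (f : k →+* R) (ρ : Λ →* Matrix (Fin N) (Fin N) R)
    (x : Λ) (a b : Fin N) : lift f ρ (univ k Λ N x a b) = ρ x a b := by
  rw [univ_apply, lift_mk]
  simp

theorem lift_algebraMap {R : Type*} [CommRing R] (f : k →+* R)
    (ρ : Λ →* Matrix (Fin N) (Fin N) R) (c : k) :
    lift f ρ (algebraMap k (RepRing k Λ N) c) = f c := by
  have : algebraMap k (RepRing k Λ N) c = mk k Λ N (C c) := rfl
  rw [this, lift_mk]
  simp

theorem hom_ext {R : Type*} [CommRing R] {φ ψ : RepRing k Λ N →+* R}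
    (h : ∀ c : k, φ (algebraMap k _ c) = ψ (algebraMap k _ c))
    (h' : ∀ (x : Λ) (a b : Fin N), φ (univ k Λ N x a b) = ψ (univ k Λ N x a b)) : φ = ψ := by
  have : φ.comp (mk k Λ N).toRingHom = ψ.comp (mk k Λ N).toRingHom := by
    apply MvPolynomial.ringHom_ext
    · intro c
      exact h c
    · rintro ⟨x, a, b⟩
      exact h' x a b
  ext x
  obtain ⟨x, rfl⟩ := mk_surjective k Λ N x
  exact DFunLike.congr_fun this x

theorem adjoin_univ : Algebra.adjoin k
    (Set.range fun p : Λ × Fin N × Fin N => univ k Λ N p.1 p.2.1 p.2.2) = ⊤ := by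
  have h1 : (Set.range fun p : Λ × Fin N × Fin N => univ k Λ N p.1 p.2.1 p.2.2) =
      mk k Λ N '' (Set.range (X : Λ × Fin N × Fin N → MvPolynomial (Λ × Fin N × Fin N) k)) := by
    rw [← Set.range_comp]
    rfl
  rw [h1, ← AlgHom.map_adjoin, MvPolynomial.adjoin_range_X, Algebra.map_top,
    AlgHom.range_eq_top]
  exact mk_surjective k Λ N

instance [Group.FG Λ] : Algebra.FiniteType k (RepRing k Λ N) := by
  classical
  obtain ⟨S, hS⟩ := Group.fg_def.1 (inferInstance : Group.FG Λ)
  let T : Finset Λ := S ∪ S.image fun x => x⁻¹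
  let A : Subalgebra k (RepRing k Λ N) := Algebra.adjoin k
    (Set.range fun p : T × Fin N × Fin N => univ k Λ N p.1 p.2.1 p.2.2)
  have hfg : A.FG := by
    refine ⟨(Set.finite_range fun p : T × Fin N × Fin N =>
      univ k Λ N p.1 p.2.1 p.2.2).toFinset, ?_⟩
    rw [Set.Finite.coe_toFinset]
  have hA : A = ⊤ := by
    rw [eq_top_iff, ← adjoin_univ, Algebra.adjoin_le_iff]
    rintro _ ⟨⟨x, a, b⟩, rfl⟩
    change univ k Λ N x a b ∈ A
    have hT : ∀ y ∈ T, ∀ a b, univ k Λ N y a b ∈ A := fun y hy a b =>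
      Algebra.subset_adjoin ⟨(⟨y, hy⟩, a, b), rfl⟩
    have hx : x ∈ Subgroup.closure (S : Set Λ) := hS ▸ Subgroup.mem_top x
    have key : ∀ a b, univ k Λ N x a b ∈ A := by
      induction hx using Subgroup.closure_induction'' with
      | one =>
        intro a b
        rw [map_one, Matrix.one_apply]
        split_ifs
        · exact one_mem _
        · exact zero_mem _
      | mem y hy => exact hT y (Finset.mem_union_left _ hy)
      | inv_mem y hy =>
        exact hT y⁻¹ (Finset.mem_union_right _ (Finset.mem_image.2 ⟨y, hy, rfl⟩))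
      | mul y z _ _ h1 h2 =>
        intro a b
        rw [map_mul, Matrix.mul_apply]
        exact sum_mem fun c _ => mul_mem (h1 a c) (h2 c b)
    exact key a b
  exact ⟨hA ▸ hfg⟩

end RepRing

end Pool.Agent.Lib.MP_305fdd_al.LW
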