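import Pool.Agent.Lib.MP_305fdd_al.LW.RepRing
import Pool.Agent.Lib.MP_305fdd_al.NatBij
import Pool.Agent.Lib.MP_305fdd_al.Rep.Krull

/-!
# MP_305fdd_al (LW): non-zero elements of the universal representation ring survive in a domain of
large transcendence degree
-/

set_option autoImplicit false

namespace Pool.Agent.Lib.MP_305fdd_al.LW

open Finsupp

section trunc

variable (ι : Type) [Finite ι] (F : Type) [Field F]

/-- the truncated polynomial rings -/
abbrev TR (j : ℕ) : Type := MvPolynomial ι F ⧸ (MvPolynomial.idealOfVars ι F) ^ j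

theorem finite_TR [Finite F] (j : ℕ) : Finite (TR ι F j) := by
  classical
  have h0 : Finite (MvPolynomial ι F ⧸ MvPolynomial.idealOfVars ι F) := by
    have hs : Function.Surjective ((Ideal.Quotient.mk (MvPolynomial.idealOfVars ι F)).comp
        (MvPolynomial.C : F →+* MvPolynomial ι F)) := by
      intro y
      obtain ⟨p, rfl⟩ := Ideal.Quotient.mk_surjective y
      refine ⟨MvPolynomial.coeff 0 p, ?_⟩
      rw [RingHom.comp_apply, Ideal.Quotient.mk_eq_mk_iff_sub_mem]
      have h1 := (MvPolynomial.mem_pow_idealOfVars_iff' 1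
        (MvPolynomial.C (MvPolynomial.coeff 0 p) - p)).2 ?_
      · rwa [pow_one] at h1
      · intro x hx
        have hx0 : x = 0 := by
          have : Finsupp.degree x = 0 := by omega
          exact (Finsupp.degree_eq_zero_iff x).1 this
        subst hx0
        rw [MvPolynomial.coeff_sub, MvPolynomial.coeff_C, if_pos rfl, sub_self]
    exact Finite.of_surjective _ hs
  exact Ideal.finite_quotient_pow (MvPolynomial.idealOfVars_fg ι F) j

/-- truncation -/
noncomputable def tau (j : ℕ) : MvPowerSeries ι F →+* TR ι F j :=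
  (MvPowerSeries.truncTotalAlgHom ι F j).toRingHom

theorem tau_apply (j : ℕ) (p : MvPowerSeries ι F) : tau ι F j p =
    Ideal.Quotient.mk _ (MvPowerSeries.truncTotal j p) := rfl

theorem tau_eq_iff (j : ℕ) (p q : MvPowerSeries ι F) : tau ι F j p = tau ι F j q ↔
    ∀ x : ι →₀ ℕ, degree x < j → MvPowerSeries.coeff x p = MvPowerSeries.coeff x q := by
  rw [tau_apply, tau_apply, Ideal.Quotient.mk_eq_mk_iff_sub_mem,
    MvPolynomial.mem_pow_idealOfVars_iff']
  refine forall_congr' fun x => forall_congr' fun hx => ?_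
  rw [MvPolynomial.coeff_sub, sub_eq_zero, MvPowerSeries.coeff_truncTotal _ hx,
    MvPowerSeries.coeff_truncTotal _ hx]

theorem tau_coe (j : ℕ) (p : MvPolynomial ι F) : tau ι F j (p : MvPowerSeries ι F) =
    Ideal.Quotient.mk _ p := by
  rw [tau_apply, Ideal.Quotient.mk_eq_mk_iff_sub_mem, MvPolynomial.mem_pow_idealOfVars_iff']
  intro x hx
  rw [MvPolynomial.coeff_sub, sub_eq_zero, MvPowerSeries.coeff_truncTotal _ hx,
    MvPolynomial.coeff_coe]

theorem tau_sep {p q : MvPowerSeries ι F} (h : ∀ j, tau ι F j p = tau ι F j q) : p = q := by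
  ext x
  exact (tau_eq_iff ι F (degree x + 1) p q).1 (h _) x (Nat.lt_succ_self _)

/-- transition maps -/
noncomputable def fac {i j : ℕ} (h : i ≤ j) : TR ι F j →+* TR ι F i :=
  Ideal.Quotient.factor (Ideal.pow_le_pow_right h)

omit [Finite ι] in
theorem fac_mk {i j : ℕ} (h : i ≤ j) (p : MvPolynomial ι F) :
    fac ι F h (Ideal.Quotient.mk _ p) = Ideal.Quotient.mk _ p :=
  Ideal.Quotient.factor_mk _ _

theorem fac_tau {i j : ℕ} (h : i ≤ j) : (fac ι F h).comp (tau ι F j) = tau ι F i := by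
  ext1 p
  rw [RingHom.comp_apply, tau_apply, fac_mk, tau_apply, Ideal.Quotient.mk_eq_mk_iff_sub_mem,
    MvPolynomial.mem_pow_idealOfVars_iff']
  intro x hx
  rw [MvPolynomial.coeff_sub, sub_eq_zero, MvPowerSeries.coeff_truncTotal _ hx,
    MvPowerSeries.coeff_truncTotal _ (lt_of_lt_of_le hx h)]

theorem exists_lim (a : ∀ j, TR ι F j) (ha : ∀ {i j : ℕ} (h : i ≤ j), fac ι F h (a j) = a i) :
    ∃ p : MvPowerSeries ι F, ∀ j, tau ι F j p = a j := by
  have hout : ∀ j, ∃ f : MvPolynomial ι F, Ideal.Quotient.mk _ f = a j := fun j =>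
    Ideal.Quotient.mk_surjective (a j)
  choose f hf using hout
  obtain ⟨p, hp⟩ : ∃ p : MvPowerSeries ι F, ∀ x, MvPowerSeries.coeff x p =
      MvPolynomial.coeff x (f (degree x + 1)) :=
    ⟨fun x => MvPolynomial.coeff x (f (degree x + 1)), fun _ => rfl⟩
  refine ⟨p, fun j => ?_⟩
  rw [tau_apply, ← hf j, Ideal.Quotient.mk_eq_mk_iff_sub_mem,
    MvPolynomial.mem_pow_idealOfVars_iff']
  intro x hx
  rw [MvPolynomial.coeff_sub, sub_eq_zero, MvPowerSeries.coeff_truncTotal _ hx, hp]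
  have h1 := ha (i := degree x + 1) (j := j) hx
  rw [← hf j, fac_mk, ← hf (degree x + 1), Ideal.Quotient.mk_eq_mk_iff_sub_mem,
    MvPolynomial.mem_pow_idealOfVars_iff'] at h1
  have h2 := h1 x (Nat.lt_succ_self _)
  rw [MvPolynomial.coeff_sub, sub_eq_zero] at h2
  exact h2.symm

end trunc

section algind

variable {ι : Type} {F : Type} [Field F]

/-- two power series of order at least `m` with the same leading form of degree `m` -/
def Cg (f g : MvPowerSeries ι F) (m : ℕ) : Prop :=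
  (m : ℕ∞) ≤ f.order ∧ (m : ℕ∞) ≤ g.order ∧ ((m + 1 : ℕ) : ℕ∞) ≤ (f - g).order

theorem Cg.mul {f g f' g' : MvPowerSeries ι F} {m m' : ℕ} (h : Cg f g m) (h' : Cg f' g' m') :
    Cg (f * f') (g * g') (m + m') := by
  obtain ⟨h1, h2, h3⟩ := h
  obtain ⟨h1', h2', h3'⟩ := h'
  refine ⟨?_, ?_, ?_⟩
  · rw [Nat.cast_add]
    exact (add_le_add h1 h1').trans MvPowerSeries.le_order_mul
  · rw [Nat.cast_add]
    exact (add_le_add h2 h2').trans MvPowerSeries.le_order_mul
  · have h4 : f * f' - g * g' = f * (f' - g') + (f - g) * g' := by ring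
    rw [h4]
    refine le_trans (le_min ?_ ?_) MvPowerSeries.min_order_le_add
    · refine le_trans ?_ MvPowerSeries.le_order_mul
      have : ((m + m' + 1 : ℕ) : ℕ∞) = (m : ℕ∞) + ((m' + 1 : ℕ) : ℕ∞) := by push_cast; ring
      rw [this]
      exact add_le_add h1 h3'
    · refine le_trans ?_ MvPowerSeries.le_order_mul
      have : ((m + m' + 1 : ℕ) : ℕ∞) = ((m + 1 : ℕ) : ℕ∞) + (m' : ℕ∞) := by push_cast; ring
      rw [this]
      exact add_le_add h3 h2'

theorem Cg.one : Cg (1 : MvPowerSeries ι F) 1 0 := by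
  refine ⟨by simp, by simp, ?_⟩
  rw [sub_self, MvPowerSeries.order_zero]
  exact le_top

theorem Cg.pow {f g : MvPowerSeries ι F} (h : Cg f g 1) (m : ℕ) : Cg (f ^ m) (g ^ m) m := by
  induction m with
  | zero => simpa using Cg.one
  | succ m ih =>
    rw [pow_succ, pow_succ]
    exact ih.mul h

theorem Cg.prod {κ : Type} (s : Finset κ) (f g : κ → MvPowerSeries ι F) (m : κ → ℕ)
    (h : ∀ i ∈ s, Cg (f i) (g i) (m i)) : Cg (∏ i ∈ s, f i) (∏ i ∈ s, g i) (∑ i ∈ s, m i) := by
  classical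
  induction s using Finset.induction_on with
  | empty => simpa using Cg.one
  | insert a s ha ih =>
    rw [Finset.prod_insert ha, Finset.prod_insert ha, Finset.sum_insert ha]
    exact (h a (Finset.mem_insert_self _ _)).mul
      (ih fun i hi => h i (Finset.mem_insert_of_mem hi))

theorem cg_X {b : MvPowerSeries ι F} {i : ι} (hb : ∀ x : ι →₀ ℕ, degree x < 2 →
    MvPowerSeries.coeff x b = MvPowerSeries.coeff x (MvPowerSeries.X i)) :
    Cg b (MvPowerSeries.X i) 1 := by
  classical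
  have h2 : ∀ x : ι →₀ ℕ, degree x < 1 →
      MvPowerSeries.coeff x (MvPowerSeries.X i : MvPowerSeries ι F) = 0 := by
    intro x hx
    have hx0 : x = 0 := (Finsupp.degree_eq_zero_iff x).1 (by omega)
    subst hx0
    rw [MvPowerSeries.coeff_zero_X]
  refine ⟨?_, ?_, ?_⟩
  · refine MvPowerSeries.nat_le_order fun x hx => ?_
    rw [hb x (by omega), h2 x hx]
  · exact MvPowerSeries.nat_le_order fun x hx => h2 x hx
  · refine MvPowerSeries.nat_le_order fun x hx => ?_
    rw [map_sub, hb x hx, sub_self]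

theorem algebraicIndependent_of_trunc (b : ι → MvPowerSeries ι F)
    (hb : ∀ (i : ι) (x : ι →₀ ℕ), degree x < 2 →
      MvPowerSeries.coeff x (b i) = MvPowerSeries.coeff x (MvPowerSeries.X i)) :
    AlgebraicIndependent F b := by
  classical
  rw [algebraicIndependent_iff]
  intro G hG
  by_contra hne
  have hsupp : G.support.Nonempty := by
    rw [Finset.nonempty_iff_ne_empty]
    intro h
    exact hne (MvPolynomial.support_eq_empty.1 h)
  obtain ⟨e₀, he₀, hmin⟩ := Finset.exists_min_image G.support (fun e => degree e) hsupp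
  -- the leading coefficients
  have hmon : ∀ e : ι →₀ ℕ, degree e₀ ≤ degree e →
      MvPowerSeries.coeff e₀ (e.prod fun i m => b i ^ m) = if e = e₀ then 1 else 0 := by
    intro e he
    have h1 : Cg (e.prod fun i m => b i ^ m)
        (e.prod fun i m => (MvPowerSeries.X i : MvPowerSeries ι F) ^ m) (degree e) :=
      Cg.prod e.support _ _ _ fun i _ => (cg_X (hb i)).pow (e i)
    have h2 := MvPowerSeries.coeff_of_lt_order (d := e₀)
      (lt_of_lt_of_le (by exact_mod_cast Nat.lt_succ_of_le he) h1.2.2)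
    rw [map_sub, sub_eq_zero] at h2
    rw [h2]
    have h3 : (e.prod fun i m => (MvPowerSeries.X i : MvPowerSeries ι F) ^ m) =
        MvPowerSeries.monomial e 1 := by
      have h4 := congrArg (MvPolynomial.coeToMvPowerSeries.ringHom (σ := ι) (R := F))
        (MvPolynomial.monomial_eq (s := e) (a := (1 : F)))
      rw [MvPolynomial.coeToMvPowerSeries.ringHom_apply, MvPolynomial.coe_monomial] at h4
      rw [h4, map_one, one_mul, Finsupp.prod, Finsupp.prod, map_prod]
      refine Finset.prod_congr rfl fun i _ => ?_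
      rw [map_pow, MvPolynomial.coeToMvPowerSeries.ringHom_apply, MvPolynomial.coe_X]
    rw [h3, MvPowerSeries.coeff_monomial]
    simp only [eq_comm]
  have h5 : MvPowerSeries.coeff e₀ (MvPolynomial.aeval b G) = MvPolynomial.coeff e₀ G := by
    have h6 : ∀ e ∈ G.support, MvPowerSeries.coeff e₀
        (algebraMap F (MvPowerSeries ι F) (MvPolynomial.coeff e G) *
          ∏ i ∈ e.support, b i ^ e i) = MvPolynomial.coeff e G * if e = e₀ then 1 else 0 := by
      intro e he
      rw [MvPowerSeries.algebraMap_apply, MvPowerSeries.coeff_C_mul]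
      exact congrArg _ (hmon e (hmin e he))
    rw [MvPolynomial.aeval_def, MvPolynomial.eval₂_eq, map_sum, Finset.sum_congr rfl h6]
    simp only [mul_ite, mul_one, mul_zero]
    rw [Finset.sum_ite_eq' G.support e₀, if_pos he₀]
  rw [hG, map_zero] at h5
  exact (MvPolynomial.mem_support_iff.1 he₀) h5.symm

end algind

section gl

variable {N : ℕ}

/-- entries of a map of general linear groups -/
theorem glMap_apply {R S : Type} [CommRing R] [CommRing S] (f : R →+* S)
    (g : Matrix.GeneralLinearGroup (Fin N) R) (a b : Fin N) :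
    (Matrix.GeneralLinearGroup.map f g : Matrix (Fin N) (Fin N) S) a b =
      f ((g : Matrix (Fin N) (Fin N) R) a b) := rfl

/-- the subgroup of matrices with entries in a subring -/
def entSub {R : Type} [CommRing R] (S : Subring R) :
    Subgroup (Matrix.GeneralLinearGroup (Fin N) R) where
  carrier := {g | ∀ a b, (g : Matrix (Fin N) (Fin N) R) a b ∈ S ∧
    ((g⁻¹ : Matrix.GeneralLinearGroup (Fin N) R) : Matrix (Fin N) (Fin N) R) a b ∈ S}
  one_mem' := by
    intro a b
    rw [inv_one, Matrix.GeneralLinearGroup.coe_one, Matrix.one_apply]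
    split_ifs
    · exact ⟨S.one_mem, S.one_mem⟩
    · exact ⟨S.zero_mem, S.zero_mem⟩
  mul_mem' := by
    intro g h hg hh a b
    rw [mul_inv_rev, Matrix.GeneralLinearGroup.coe_mul, Matrix.GeneralLinearGroup.coe_mul,
      Matrix.mul_apply, Matrix.mul_apply]
    exact ⟨S.sum_mem fun c _ => S.mul_mem (hg a c).1 (hh c b).1,
      S.sum_mem fun c _ => S.mul_mem (hh a c).2 (hg c b).2⟩
  inv_mem' := by
    intro g hg a b
    rw [inv_inv]
    exact (hg a b).symm

theorem series {n N : ℕ} {Λ : Type} [Group Λ] (Φ : NatBij Λ (FreeGroup (Fin n)))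
    (F : Type) [Field F] [Finite F] (R : Type) [CommRing R] [Finite R] (π : R →+* F)
    (σ : F →+* R) (hσ : ∀ c, π (σ c) = c) (k : ℕ) (hk : RingHom.ker π ^ k = ⊥)
    (r : Λ →* Matrix.GeneralLinearGroup (Fin N) R) :
    ∃ (ρ : Λ →* Matrix (Fin N) (Fin N) (MvPowerSeries (Fin n × Fin N × Fin N) F))
      (η : MvPowerSeries (Fin n × Fin N × Fin N) F →+* R),
      (∀ c, η (MvPowerSeries.C c) = σ c) ∧
      (∀ x a b, η (ρ x a b) = (r x : Matrix (Fin N) (Fin N) R) a b) ∧
      ∀ S : Subalgebra F (MvPowerSeries (Fin n × Fin N × Fin N) F), (∀ x a b, ρ x a b ∈ S) →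
        ∀ i, ∃ b ∈ S, ∀ x : (Fin n × Fin N × Fin N) →₀ ℕ, degree x < 2 →
          MvPowerSeries.coeff x b = MvPowerSeries.coeff x (MvPowerSeries.X i) := by
  classical
  set ι : Type := Fin n × Fin N × Fin N with hι
  have hfin : ∀ j, Finite (TR ι F j) := finite_TR ι F
  -- the representation of the free group corresponding to `r`
  let M : Fin n → Matrix.GeneralLinearGroup (Fin N) R := fun i =>
    Φ.toFun _ r (FreeGroup.of i)
  -- the generic matrices
  let U : Fin n → Matrix (Fin N) (Fin N) (MvPowerSeries ι F) := fun i =>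
    Matrix.of fun a b => MvPowerSeries.C (π ((M i : Matrix (Fin N) (Fin N) R) a b)) +
      MvPowerSeries.X (i, a, b)
  have hU : ∀ i, IsUnit (U i).det := by
    intro i
    rw [MvPowerSeries.isUnit_iff_constantCoeff]
    have h1 : (MvPowerSeries.constantCoeff (U i).det) =
        ((Matrix.GeneralLinearGroup.map π (M i) : Matrix.GeneralLinearGroup (Fin N) F) :
          Matrix (Fin N) (Fin N) F).det := by
      rw [RingHom.map_det]
      congr 1
      ext a b
      simp [U]
    rw [h1]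
    exact (Matrix.isUnit_iff_isUnit_det _).1 (Matrix.GeneralLinearGroup.map π (M i)).isUnit
  let u : Fin n → Matrix.GeneralLinearGroup (Fin N) (MvPowerSeries ι F) := fun i =>
    Matrix.GeneralLinearGroup.mk'' (U i) (hU i)
  have hu : ∀ (i : Fin n) (a b : Fin N), (u i : Matrix (Fin N) (Fin N) (MvPowerSeries ι F)) a b =
      MvPowerSeries.C (π ((M i : Matrix (Fin N) (Fin N) R) a b)) + MvPowerSeries.X (i, a, b) :=
    fun _ _ _ => rfl
  let r'inf : FreeGroup (Fin n) →* Matrix.GeneralLinearGroup (Fin N) (MvPowerSeries ι F) :=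
    FreeGroup.lift u
  let r' : ∀ j, FreeGroup (Fin n) →* Matrix.GeneralLinearGroup (Fin N) (TR ι F j) := fun j =>
    (Matrix.GeneralLinearGroup.map (tau ι F j)).comp r'inf
  let rj : ∀ j, Λ →* Matrix.GeneralLinearGroup (Fin N) (TR ι F j) := fun j =>
    Φ.symm.toFun _ (r' j)
  have hcompat' : ∀ {i j : ℕ} (h : i ≤ j),
      (Matrix.GeneralLinearGroup.map (fac ι F h)).comp (r' j) = r' i := by
    intro i j h
    change (Matrix.GeneralLinearGroup.map (fac ι F h)).comp
      ((Matrix.GeneralLinearGroup.map (tau ι F j)).comp r'inf) = _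
    rw [← MonoidHom.comp_assoc, ← Matrix.GeneralLinearGroup.map_comp, fac_tau]
  have hcompat : ∀ {i j : ℕ} (h : i ≤ j),
      (Matrix.GeneralLinearGroup.map (fac ι F h)).comp (rj j) = rj i := by
    intro i j h
    change _ = Φ.symm.toFun _ (r' i)
    rw [← hcompat' h, Φ.symm.nat]
  -- the limit
  have hlim : ∀ (x : Λ) (a b : Fin N), ∃ p : MvPowerSeries ι F, ∀ j, tau ι F j p =
      (rj j x : Matrix (Fin N) (Fin N) (TR ι F j)) a b := by
    intro x a b
    refine exists_lim ι F _ fun {i j} h => ?_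
    rw [← glMap_apply, ← hcompat h]
    rfl
  choose p hp using hlim
  let ρ : Λ →* Matrix (Fin N) (Fin N) (MvPowerSeries ι F) :=
    { toFun := fun x => Matrix.of fun a b => p x a b
      map_one' := by
        ext1 a b
        refine tau_sep ι F fun j => ?_
        rw [Matrix.of_apply, hp, map_one, Matrix.GeneralLinearGroup.coe_one, Matrix.one_apply,
          Matrix.one_apply]
        split_ifs <;> simp
      map_mul' := by
        intro x y
        ext1 a b
        refine tau_sep ι F fun j => ?_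
        rw [Matrix.of_apply, hp, map_mul, Matrix.GeneralLinearGroup.coe_mul, Matrix.mul_apply,
          Matrix.mul_apply, map_sum]
        refine Finset.sum_congr rfl fun c _ => ?_
        rw [map_mul, Matrix.of_apply, Matrix.of_apply, hp, hp] }
  -- the map to `R`
  let c : ι → R := fun q => (M q.1 : Matrix (Fin N) (Fin N) R) q.2.1 q.2.2 -
    σ (π ((M q.1 : Matrix (Fin N) (Fin N) R) q.2.1 q.2.2))
  have hc : ∀ q, π (c q) = 0 := by
    intro q
    change π (_ - _) = 0
    rw [map_sub, hσ, sub_self]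
  let ev : MvPolynomial ι F →+* R := MvPolynomial.eval₂Hom σ c
  have hev : ∀ f ∈ MvPolynomial.idealOfVars ι F ^ k, ev f = 0 := by
    intro f hf
    have h1 : (MvPolynomial.idealOfVars ι F).map ev ≤ RingHom.ker π := by
      rw [Ideal.map_le_iff_le_comap, MvPolynomial.idealOfVars, Ideal.span_le]
      rintro _ ⟨q, rfl⟩
      rw [SetLike.mem_coe, Ideal.mem_comap, RingHom.mem_ker]
      have : ev (MvPolynomial.X q) = c q := MvPolynomial.eval₂Hom_X' _ _ _
      rw [this, hc]
    have h2 : ev f ∈ (MvPolynomial.idealOfVars ι F ^ k).map ev := Ideal.mem_map_of_mem _ hf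
    rw [Ideal.map_pow] at h2
    have h3 := Ideal.pow_right_mono h1 k h2
    rw [hk] at h3
    exact h3
  let evk : TR ι F k →+* R := Ideal.Quotient.lift _ ev hev
  have hevk : (Matrix.GeneralLinearGroup.map evk).comp (r' k) = Φ.toFun _ r := by
    refine FreeGroup.ext_hom _ _ fun i => ?_
    change Matrix.GeneralLinearGroup.map evk (Matrix.GeneralLinearGroup.map (tau ι F k)
      (FreeGroup.lift u (FreeGroup.of i))) = M i
    rw [FreeGroup.lift_apply_of]
    apply Matrix.GeneralLinearGroup.ext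
    intro a b
    rw [glMap_apply, glMap_apply, hu, ← MvPolynomial.coe_C, ← MvPolynomial.coe_X, map_add,
      map_add, tau_coe, tau_coe]
    have h0 : ∀ f, evk (Ideal.Quotient.mk _ f) = ev f := fun f => rfl
    rw [h0, h0]
    have h1 : ev (MvPolynomial.X (i, a, b)) = c (i, a, b) := MvPolynomial.eval₂Hom_X' _ _ _
    have h2 : ∀ y, ev (MvPolynomial.C y) = σ y := fun y => MvPolynomial.eval₂Hom_C _ _ _
    have h3 : c (i, a, b) = (M i : Matrix (Fin N) (Fin N) R) a b -
      σ (π ((M i : Matrix (Fin N) (Fin N) R) a b)) := rfl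
    rw [h1, h2, h3]
    ring
  have hrk : (Matrix.GeneralLinearGroup.map evk).comp (rj k) = r := by
    change (Matrix.GeneralLinearGroup.map evk).comp (Φ.symm.toFun _ (r' k)) = r
    rw [← Φ.symm.nat, hevk]
    exact Φ.left_inv _ r
  refine ⟨ρ, evk.comp (tau ι F k), ?_, ?_, ?_⟩
  · intro y
    rw [RingHom.comp_apply, ← MvPolynomial.coe_C, tau_coe]
    exact MvPolynomial.eval₂Hom_C _ _ _
  · intro x a b
    rw [RingHom.comp_apply]
    change evk (tau ι F k (p x a b)) = _
    rw [hp, ← glMap_apply, ← MonoidHom.comp_apply, hrk]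
  · intro S hS
    rintro ⟨i, a, b⟩
    -- the image of `S` in the second truncation
    let S₂ : Subring (TR ι F 2) := S.toSubring.map (tau ι F 2)
    have h1 : (rj 2).range ≤ entSub S₂ := by
      have h2 : ∀ x a b, (rj 2 x : Matrix (Fin N) (Fin N) (TR ι F 2)) a b ∈ S₂ := by
        intro x a b
        rw [← hp]
        exact ⟨_, hS x a b, rfl⟩
      rintro _ ⟨x, rfl⟩ a b
      refine ⟨h2 x a b, ?_⟩
      rw [← map_inv]
      exact h2 x⁻¹ a b
    have h3 := Φ.range_le (rj 2) _ h1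
    have h4 : Φ.toFun _ (rj 2) = r' 2 := Φ.right_inv _ (r' 2)
    rw [h4] at h3
    have h5 := (h3 ⟨FreeGroup.of i, rfl⟩ a b).1
    have h6 : (r' 2 (FreeGroup.of i) : Matrix (Fin N) (Fin N) (TR ι F 2)) a b =
        tau ι F 2 (MvPowerSeries.C (π ((M i : Matrix (Fin N) (Fin N) R) a b)) +
          MvPowerSeries.X (i, a, b)) := by
      change ((Matrix.GeneralLinearGroup.map (tau ι F 2)
        (FreeGroup.lift u (FreeGroup.of i)) : Matrix.GeneralLinearGroup (Fin N) (TR ι F 2)) :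
          Matrix (Fin N) (Fin N) (TR ι F 2)) a b = _
      rw [FreeGroup.lift_apply_of]
      rfl
    rw [h6] at h5
    obtain ⟨s, hs, hs2⟩ := h5
    refine ⟨s - MvPowerSeries.C (π ((M i : Matrix (Fin N) (Fin N) R) a b)),
      S.sub_mem hs (S.algebraMap_mem _), ?_⟩
    rw [← tau_eq_iff, map_sub, hs2, map_add]
    ring

end gl

section final

/-- the domain -/
theorem exists_domain_core {n N : ℕ} {Λ : Type} [Group Λ] [Group.FG Λ]
    (Φ : NatBij Λ (FreeGroup (Fin n))) (ℓ : ℕ) [Fact ℓ.Prime]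
    (F : Type) [Field F] [Finite F] [Algebra (ZMod ℓ) F] (R : Type) [CommRing R] [Finite R]
    (π : R →+* F) (σ : F →+* R) (hσ : ∀ c, π (σ c) = c) (k : ℕ) (hk : RingHom.ker π ^ k = ⊥)
    (q : RepRing (ZMod ℓ) Λ N →+* R) (x : RepRing (ZMod ℓ) Λ N) (hx : q x ≠ 0) :
    ∃ (B : Type) (_ : CommRing B) (_ : IsDomain B) (_ : Algebra F B) (_ : Algebra.FiniteType F B)
      (θ : RepRing (ZMod ℓ) Λ N →+* B),
      θ x ≠ 0 ∧ Algebra.adjoin F (Set.range θ) = ⊤ ∧
      ∃ s : Fin n × Fin N × Fin N → B, AlgebraicIndependent F s := by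
  classical
  let r : Λ →* Matrix.GeneralLinearGroup (Fin N) R :=
    (q.mapMatrix.toMonoidHom.comp (RepRing.univ (ZMod ℓ) Λ N)).toHomUnits
  have hr : ∀ y a b, (r y : Matrix (Fin N) (Fin N) R) a b = q (RepRing.univ (ZMod ℓ) Λ N y a b) :=
    fun _ _ _ => rfl
  obtain ⟨ρ, η, hη, hρ, hS⟩ := series Φ F R π σ hσ k hk r
  let θ₀ : RepRing (ZMod ℓ) Λ N →+* MvPowerSeries (Fin n × Fin N × Fin N) F :=
    RepRing.lift (MvPowerSeries.C.comp (algebraMap (ZMod ℓ) F)) ρ
  have hθη : η.comp θ₀ = q := by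
    refine RepRing.hom_ext (fun c => ?_) fun y a b => ?_
    · exact DFunLike.congr_fun (Subsingleton.elim
        ((η.comp θ₀).comp (algebraMap (ZMod ℓ) _)) (q.comp (algebraMap (ZMod ℓ) _))) c
    · rw [RingHom.comp_apply]
      change η (RepRing.lift _ ρ _) = _
      rw [RepRing.lift_univ, hρ, hr]
  have hθx : θ₀ x ≠ 0 := by
    intro h
    apply hx
    rw [← hθη, RingHom.comp_apply, h, map_zero]
  let B : Subalgebra F (MvPowerSeries (Fin n × Fin N × Fin N) F) :=
    Algebra.adjoin F (Set.range θ₀)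
  have hmem : ∀ y, θ₀ y ∈ B := fun y => Algebra.subset_adjoin ⟨y, rfl⟩
  -- finite type
  have hB : B.FG := by
    obtain ⟨T, hT⟩ := (inferInstance : Algebra.FiniteType (ZMod ℓ) (RepRing (ZMod ℓ) Λ N)).out
    refine ⟨T.image θ₀, le_antisymm (Algebra.adjoin_mono ?_) (Algebra.adjoin_le ?_)⟩
    · intro y hy
      obtain ⟨z, _, rfl⟩ := Finset.mem_image.1 (Finset.mem_coe.1 hy)
      exact ⟨z, rfl⟩
    · rintro _ ⟨y, rfl⟩
      have hy : y ∈ Algebra.adjoin (ZMod ℓ) (T : Set (RepRing (ZMod ℓ) Λ N)) := hT ▸ trivial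
      induction hy using Algebra.adjoin_induction with
      | mem y hy =>
        exact Algebra.subset_adjoin (Finset.mem_coe.2 (Finset.mem_image_of_mem _ hy))
      | algebraMap c =>
        have : θ₀ (algebraMap (ZMod ℓ) _ c) = MvPowerSeries.C (algebraMap (ZMod ℓ) F c) :=
          RepRing.lift_algebraMap _ _ _
        rw [this]
        exact Subalgebra.algebraMap_mem _ (algebraMap (ZMod ℓ) F c)
      | add y z _ _ h1 h2 =>
        rw [map_add]
        exact add_mem h1 h2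
      | mul y z _ _ h1 h2 =>
        rw [map_mul]
        exact mul_mem h1 h2
  let θ : RepRing (ZMod ℓ) Λ N →+* B := θ₀.codRestrict B hmem
  have hρB : ∀ y a b, ρ y a b ∈ B := by
    intro y a b
    have h1 : θ₀ (RepRing.univ (ZMod ℓ) Λ N y a b) = ρ y a b := RepRing.lift_univ _ _ _ _ _
    rw [← h1]
    exact hmem _
  choose b hbB hb using hS B hρB
  have hdomP : IsDomain (MvPowerSeries (Fin n × Fin N × Fin N) F) :=
    NoZeroDivisors.to_isDomain _
  have hdom : IsDomain B := inferInstanceAs (IsDomain B.toSubring)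
  refine ⟨B, inferInstance, hdom, inferInstance, B.fg_iff_finiteType.1 hB, θ, ?_, ?_,
    fun i => ⟨b i, hbB i⟩, ?_⟩
  · intro h
    exact hθx (congrArg Subtype.val h)
  · have h1 : Set.range θ = (Subtype.val : B → _) ⁻¹' (Set.range θ₀) := by
      ext y
      constructor
      · rintro ⟨z, rfl⟩
        exact ⟨z, rfl⟩
      · rintro ⟨z, hz⟩
        exact ⟨z, Subtype.ext hz⟩
    rw [h1]
    exact Algebra.adjoin_adjoin_coe_preimage
  · refine AlgebraicIndependent.of_comp B.val ?_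
    exact algebraicIndependent_of_trunc b hb

end final

/-- PIECE R -/
theorem exists_domain {n N : ℕ} {Λ : Type} [Group Λ] [Group.FG Λ]
    (h : Pool.Agent.MP_305fdd_al.SameFiniteQuotients Λ (FreeGroup (Fin n))) (ℓ : ℕ)
    [Fact ℓ.Prime] (x : RepRing (ZMod ℓ) Λ N) (hx : x ≠ 0) :
    ∃ (F : Type) (_ : Field F) (_ : Finite F) (_ : Algebra (ZMod ℓ) F) (B : Type)
      (_ : CommRing B) (_ : IsDomain B) (_ : Algebra F B) (_ : Algebra.FiniteType F B)
      (θ : RepRing (ZMod ℓ) Λ N →+* B),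
      θ x ≠ 0 ∧ Algebra.adjoin F (Set.range θ) = ⊤ ∧
      ∃ s : Fin n × Fin N × Fin N → B, AlgebraicIndependent F s := by
  classical
  obtain ⟨Φ⟩ := exists_natBij h
  have hnt : Nontrivial (RepRing (ZMod ℓ) Λ N) := ⟨⟨x, 0, hx⟩⟩
  have hnoeth : IsNoetherianRing (RepRing (ZMod ℓ) Λ N) :=
    Algebra.FiniteType.isNoetherianRing (ZMod ℓ) _
  have hft : Algebra.FiniteType ℤ (RepRing (ZMod ℓ) Λ N) := by
    have h1 : Algebra.FiniteType ℤ (ZMod ℓ) :=
      Algebra.FiniteType.of_surjective (Algebra.ofId ℤ (ZMod ℓ)) ZMod.intCast_surjective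
    exact Algebra.FiniteType.trans h1 inferInstance
  obtain ⟨𝔪, hm, k, hxk⟩ : ∃ 𝔪 : Ideal (RepRing (ZMod ℓ) Λ N), 𝔪.IsMaximal ∧ ∃ k : ℕ,
      x ∉ 𝔪 ^ k := by
    by_contra hcon
    push Not at hcon
    exact hx (Rep.eq_zero_of_forall_pow x hcon)
  have hk0 : k ≠ 0 := by
    rintro rfl
    rw [pow_zero, Ideal.one_eq_top] at hxk
    exact hxk Submodule.mem_top
  have hfinR : Finite (RepRing (ZMod ℓ) Λ N ⧸ 𝔪 ^ k) := Rep.finite_quotient_pow _ 𝔪 hm k
  have hfinF : Finite (RepRing (ZMod ℓ) Λ N ⧸ 𝔪) := by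
    have := Rep.finite_quotient_pow _ 𝔪 hm 1
    rwa [pow_one] at this
  let instF : Field (RepRing (ZMod ℓ) Λ N ⧸ 𝔪) := Ideal.Quotient.field 𝔪
  have hle : 𝔪 ^ k ≤ 𝔪 := Ideal.pow_le_self hk0
  have hne : 𝔪 ^ k ≠ ⊤ := fun h => hm.ne_top (top_le_iff.1 (h ▸ hle))
  have hntR : Nontrivial (RepRing (ZMod ℓ) Λ N ⧸ 𝔪 ^ k) := Ideal.Quotient.nontrivial_iff.2 hne
  have hcR : CharP (RepRing (ZMod ℓ) Λ N ⧸ 𝔪 ^ k) ℓ :=
    charP_of_injective_algebraMap (algebraMap (ZMod ℓ) _).injective ℓ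
  have hcF : CharP (RepRing (ZMod ℓ) Λ N ⧸ 𝔪) ℓ :=
    charP_of_injective_algebraMap (algebraMap (ZMod ℓ) _).injective ℓ
  let _ : Fintype (RepRing (ZMod ℓ) Λ N ⧸ 𝔪) := Fintype.ofFinite _
  obtain ⟨s, hs, hcard⟩ := FiniteField.card (RepRing (ZMod ℓ) Λ N ⧸ 𝔪) ℓ
  let π : (RepRing (ZMod ℓ) Λ N ⧸ 𝔪 ^ k) →+* (RepRing (ZMod ℓ) Λ N ⧸ 𝔪) :=
    Ideal.Quotient.factor hle
  have hpow : ∀ y : RepRing (ZMod ℓ) Λ N ⧸ 𝔪, y ^ (ℓ ^ ((s : ℕ) * k)) = y := by
    intro y
    rw [pow_mul, ← hcard]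
    exact FiniteField.pow_card_pow k y
  have hbig : k ≤ ℓ ^ ((s : ℕ) * k) := by
    calc k ≤ ℓ ^ k := (Nat.lt_pow_self (Fact.out : ℓ.Prime).one_lt).le
      _ ≤ ℓ ^ ((s : ℕ) * k) := Nat.pow_le_pow_right (Fact.out : ℓ.Prime).pos
          (Nat.le_mul_of_pos_left _ s.pos)
  let fr : RepRing (ZMod ℓ) Λ N →+* (RepRing (ZMod ℓ) Λ N ⧸ 𝔪 ^ k) :=
    (iterateFrobenius (RepRing (ZMod ℓ) Λ N ⧸ 𝔪 ^ k) ℓ ((s : ℕ) * k)).comp
      (Ideal.Quotient.mk (𝔪 ^ k))
  have hfr : ∀ y, fr y = (Ideal.Quotient.mk (𝔪 ^ k) y) ^ (ℓ ^ ((s : ℕ) * k)) := fun y =>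
    iterateFrobenius_def _ _ _
  have hfr0 : ∀ y ∈ 𝔪, fr y = 0 := by
    intro y hy
    rw [hfr, ← map_pow, Ideal.Quotient.eq_zero_iff_mem]
    exact Ideal.pow_le_pow_right hbig (Ideal.pow_mem_pow hy _)
  let σ : (RepRing (ZMod ℓ) Λ N ⧸ 𝔪) →+* (RepRing (ZMod ℓ) Λ N ⧸ 𝔪 ^ k) :=
    Ideal.Quotient.lift 𝔪 fr hfr0
  have hσ : ∀ c, π (σ c) = c := by
    intro c
    obtain ⟨y, rfl⟩ := Ideal.Quotient.mk_surjective c
    change π (fr y) = _
    rw [hfr, map_pow]
    exact hpow (Ideal.Quotient.mk 𝔪 y)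
  have hker : RingHom.ker π ^ k = ⊥ := by
    have h1 : RingHom.ker π = 𝔪.map (Ideal.Quotient.mk (𝔪 ^ k)) := Ideal.Quotient.factor_ker hle
    rw [h1, ← Ideal.map_pow, Ideal.map_quotient_self]
  obtain ⟨B, i1, i2, i3, i4, θ, hθ⟩ := exists_domain_core Φ ℓ (RepRing (ZMod ℓ) Λ N ⧸ 𝔪)
    (RepRing (ZMod ℓ) Λ N ⧸ 𝔪 ^ k) π σ hσ k hker (Ideal.Quotient.mk (𝔪 ^ k)) x
    (fun h0 => hxk (Ideal.Quotient.eq_zero_iff_mem.1 h0))
  exact ⟨_, instF, hfinF, inferInstance, B, i1, i2, i3, i4, θ, hθ⟩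

end Pool.Agent.Lib.MP_305fdd_al.LW
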